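import Pool.Agent.Helper84.Lam.Tools61

/-!
# Lipschitz bounds for the logarithms and the cusp Harnack inequality (MP_78803a)
-/

set_option autoImplicit false

namespace Pool.Agent.Helper84.Lam

open Complex Real Filter Topology ComplexConjugate MatrixGroups

theorem speed_T3 {w : ℂ} (h : ‖w‖ < 1) : (1 - ‖w‖ ^ 2) * ‖deriv T3 w‖ ≤ 2102 * YD w := by
  have hT := (T3_spec.1 w h).hasDerivAt
  have hF := (F3_spec.1 w h).hasDerivAt
  have h1 := one_sub_ne h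
  have hd : HasDerivAt (fun z : ℂ => 1 - z) (-1) w := by
    simpa using (hasDerivAt_id w).const_sub 1
  have hA : HasDerivAt (fun z => cexp (F3 z) * (1 - z) ^ 2)
      (cexp (F3 w) * deriv F3 w * (1 - w) ^ 2 + cexp (F3 w) * (2 * (1 - w) * -1)) w := by
    have a := hd.pow 2
    have a' : HasDerivAt (fun z : ℂ => (1 - z) ^ 2) (2 * (1 - w) * -1) w := by
      refine HasDerivAt.congr_deriv a ?_
      push_cast
      ring
    exact hF.cexp.mul a'
  have hB : HasDerivAt (fun z => -2 * π * cexp (T3 z) ^ 4)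
      (-2 * π * (4 * cexp (T3 w) ^ 3 * (cexp (T3 w) * deriv T3 w))) w := by
    have a := hT.cexp.pow 4
    have a' : HasDerivAt (fun z : ℂ => cexp (T3 z) ^ 4)
        (4 * cexp (T3 w) ^ 3 * (cexp (T3 w) * deriv T3 w)) w := by
      refine HasDerivAt.congr_deriv a ?_
      push_cast
      ring
    exact a'.const_mul (-2 * π : ℂ)
  have hAB : (fun z => cexp (F3 z) * (1 - z) ^ 2) =ᶠ[𝓝 w] fun z => -2 * π * cexp (T3 z) ^ 4 := by
    filter_upwards [Metric.isOpen_ball.mem_nhds (ball_norm.2 h)] with z hz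
    have hz' := ball_norm.1 hz
    rw [exp_F3 hz', exp_T3 hz', thD_eq hz', div_mul_cancel₀ _ (pow_ne_zero 2 (one_sub_ne hz'))]
  have hU := hA.unique (hB.congr_of_eventuallyEq hAB)
  have hv : cexp (F3 w) * (1 - w) ^ 2 = -2 * π * cexp (T3 w) ^ 4 := hAB.self_of_nhds
  have e : 4 * deriv T3 w = deriv F3 w - 2 / (1 - w) := by
    have hne : cexp (F3 w) * (1 - w) ^ 2 ≠ 0 := mul_ne_zero (Complex.exp_ne_zero _) (pow_ne_zero 2 h1)
    have h3 : (cexp (F3 w) * (1 - w) ^ 2) * (4 * deriv T3 w) =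
        (cexp (F3 w) * (1 - w) ^ 2) * (deriv F3 w - 2 / (1 - w)) := by
      have h4 : (cexp (F3 w) * (1 - w) ^ 2) * (deriv F3 w - 2 / (1 - w)) =
          cexp (F3 w) * deriv F3 w * (1 - w) ^ 2 + cexp (F3 w) * (2 * (1 - w) * -1) := by
        field_simp
        ring
      rw [h4, hU, hv]
      ring
    exact mul_left_cancel₀ hne h3
  have hL2 := T_L2_three h
  have hY := YD_lower h
  have p := one_sub_sq_pos h
  have n1 : 0 < ‖1 - w‖ := norm_pos_iff.2 h1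
  have h5 : (1 - ‖w‖ ^ 2) * ‖(2 : ℂ) / (1 - w)‖ ≤ 4 := by
    have h6 : 1 - ‖w‖ ≤ ‖1 - w‖ := by
      have := norm_sub_norm_le (1 : ℂ) w
      rwa [norm_one] at this
    have h7 : ‖(2 : ℂ)‖ = 2 := by norm_num
    have n0 := norm_nonneg w
    rw [norm_div, h7, mul_div_assoc', div_le_iff₀ n1]
    nlinarith
  have h8 : ‖(4 : ℂ) * deriv T3 w‖ ≤ ‖deriv F3 w‖ + ‖(2 : ℂ) / (1 - w)‖ := by
    rw [e]
    exact norm_sub_le _ _
  rw [norm_mul] at h8
  have h9 : ‖(4 : ℂ)‖ = 4 := by norm_num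
  rw [h9] at h8
  have h10 := mul_le_mul_of_nonneg_left h8 p.le
  nlinarith

theorem hasDerivAt_mob' {B z : ℂ} (hB : ‖B‖ < 1) (hz : ‖z‖ < 1) :
    HasDerivAt (mob B) (((1 - ‖B‖ ^ 2 : ℝ) : ℂ) / (1 + conj B * z) ^ 2) z := by
  have h0 := mob_den hB hz
  have h1 : HasDerivAt (fun ω : ℂ => B + ω) 1 z := by
    simpa using (hasDerivAt_id z).const_add B
  have h2 : HasDerivAt (fun ω : ℂ => 1 + conj B * ω) (conj B) z := by
    simpa using ((hasDerivAt_id z).const_mul (conj B)).const_add 1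
  have h3 := h1.div h2 h0
  refine h3.congr_deriv ?_
  have h4 : (((1 - ‖B‖ ^ 2 : ℝ)) : ℂ) = 1 - B * conj B := by
    rw [Complex.mul_conj, Complex.normSq_eq_norm_sq]
    push_cast
    ring
  rw [h4]
  congr 1
  ring

theorem one_sub_mob_sq {w ω : ℂ} (hw : ‖w‖ < 1) (hω1 : ‖ω‖ < 1) :
    1 - ‖mob w ω‖ ^ 2 = (1 - ‖w‖ ^ 2) * (1 - ‖ω‖ ^ 2) / ‖1 + conj w * ω‖ ^ 2 := by
  have h1 := mob_den hw hω1
  have h2 := norm_one_sub_conj w (-ω)
  have e : 1 - conj w * -ω = 1 + conj w * ω := by ring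
  rw [e, sub_neg_eq_add, norm_neg] at h2
  unfold mob
  have := norm_ne_zero_iff.2 h1
  rw [norm_div, div_pow, eq_div_iff (pow_ne_zero 2 this), sub_mul, one_mul,
    div_mul_cancel₀ _ (pow_ne_zero 2 this)]
  linarith

theorem lip_mob {F : ℂ → ℂ} {C : ℝ} (hC : 0 ≤ C) (hF : ∀ z, ‖z‖ < 1 → DifferentiableAt ℂ F z)
    (hs : ∀ z, ‖z‖ < 1 → (1 - ‖z‖ ^ 2) * ‖deriv F z‖ ≤ C * YD z) {w ω : ℂ} (hw : ‖w‖ < 1)
    (h : ‖ω‖ ≤ 1 / 100) : ‖F (mob w ω) - F w‖ ≤ 13 * C * YD w * ‖ω‖ := by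
  have hY := YD_lower hw
  have hder : ∀ z : ℂ, ‖z‖ ≤ 1 / 100 → HasDerivAt (fun z => F (mob w z))
      (deriv F (mob w z) * (((1 - ‖w‖ ^ 2 : ℝ) : ℂ) / (1 + conj w * z) ^ 2)) z := by
    intro z hz
    have hz1 : ‖z‖ < 1 := by linarith
    exact HasDerivAt.comp (h₂ := F) z (hF _ (norm_mob hw hz1)).hasDerivAt (hasDerivAt_mob' hw hz1)
  have hb : ∀ z ∈ Metric.closedBall (0 : ℂ) (1 / 100), ‖deriv (fun z => F (mob w z)) z‖ ≤
      13 * C * YD w := by
    intro z hz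
    rw [Metric.mem_closedBall, dist_zero_right] at hz
    have hz1 : ‖z‖ < 1 := by linarith
    have hm := norm_mob hw hz1
    have n0 := norm_nonneg z
    rw [(hder z hz).deriv, norm_mul, norm_div, Complex.norm_real,
      Real.norm_of_nonneg (one_sub_sq_pos hw).le, norm_pow]
    have p1 := one_sub_sq_pos hz1
    have p2 := norm_pos_iff.2 (mob_den hw hz1)
    have e := one_sub_mob_sq hw hz1
    have e1 : ‖deriv F (mob w z)‖ * ((1 - ‖w‖ ^ 2) / ‖1 + conj w * z‖ ^ 2) =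
        (1 - ‖mob w z‖ ^ 2) * ‖deriv F (mob w z)‖ / (1 - ‖z‖ ^ 2) := by
      rw [e]
      field_simp
    rw [e1, div_le_iff₀ p1]
    refine (hs _ hm).trans ?_
    have h5 := T_L5 hm hw
    have h6 : ps (mob w z) w = ‖z‖ := by
      have := ps_mob hw (ω := z) (ω' := 0) hz1 (by simp)
      rw [mob_zero] at this
      rw [this]
      unfold ps
      simp
    rw [h6] at h5
    have h7 : YD (mob w z) ≤ 12.13 * YD w := by nlinarith
    have h8 : 12.13 * YD w ≤ 13 * YD w * (1 - ‖z‖ ^ 2) := by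
      have : 0.999 ≤ 1 - ‖z‖ ^ 2 := by nlinarith
      nlinarith
    calc C * YD (mob w z) ≤ C * (13 * YD w * (1 - ‖z‖ ^ 2)) :=
          mul_le_mul_of_nonneg_left (h7.trans h8) hC
      _ = 13 * C * YD w * (1 - ‖z‖ ^ 2) := by ring
  have h1 := (convex_closedBall (0 : ℂ) (1 / 100)).norm_image_sub_le_of_norm_deriv_le
    (f := fun z => F (mob w z)) (fun z hz => (hder z (by
      rwa [Metric.mem_closedBall, dist_zero_right] at hz)).differentiableAt) hb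
    (x := 0) (y := ω) (by simp) (by rwa [Metric.mem_closedBall, dist_zero_right])
  rw [mob_zero, sub_zero] at h1
  exact h1

theorem lip_of_speed {F : ℂ → ℂ} {C : ℝ} (hC : 0 ≤ C) (hF : ∀ z, ‖z‖ < 1 → DifferentiableAt ℂ F z)
    (hs : ∀ z, ‖z‖ < 1 → (1 - ‖z‖ ^ 2) * ‖deriv F z‖ ≤ C * YD z) {w v : ℂ} (hw : ‖w‖ < 1)
    (hv : ‖v‖ < 1) (h : ps w v ≤ 1 / 100) : ‖F v - F w‖ ≤ 13 * C * YD w * ps w v := by
  have hωn : ‖(v - w) / (1 - conj w * v)‖ = ps w v := by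
    rw [norm_div, norm_sub_rev]
    rfl
  have h1 := lip_mob hC hF hs hw (ω := (v - w) / (1 - conj w * v)) (by rwa [hωn])
  rw [mob_sub hw hv, hωn] at h1
  exact h1

theorem LL_lip {w v : ℂ} (hw : ‖w‖ < 1) (hv : ‖v‖ < 1) (h : ps w v ≤ 1 / 100) :
    ‖LL v - LL w‖ ≤ 82 * YD w * ps w v := by
  have h1 := lip_of_speed (F := LL) (C := 2 * π) (by positivity) LL_spec.1
    (fun z hz => speed_LL hz) hw hv h
  refine h1.trans ?_
  have hY := YD_lower hw
  have h2 : 0 ≤ ps w v := div_nonneg (norm_nonneg _) (norm_nonneg _)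
  have h3 : 0 ≤ YD w * ps w v := by positivity
  have hpi := Real.pi_lt_d2
  nlinarith

theorem L1_lip {w v : ℂ} (hw : ‖w‖ < 1) (hv : ‖v‖ < 1) (h : ps w v ≤ 1 / 100) :
    ‖L1 v - L1 w‖ ≤ 82 * YD w * ps w v := by
  have h1 := lip_of_speed (F := L1) (C := 2 * π) (by positivity) L1_spec.1
    (fun z hz => speed_L1 hz) hw hv h
  refine h1.trans ?_
  have hY := YD_lower hw
  have h2 : 0 ≤ ps w v := div_nonneg (norm_nonneg _) (norm_nonneg _)
  have h3 : 0 ≤ YD w * ps w v := by positivity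
  have hpi := Real.pi_lt_d2
  nlinarith

theorem T3_lip {w v : ℂ} (hw : ‖w‖ < 1) (hv : ‖v‖ < 1) (h : ps w v ≤ 1 / 100) :
    ‖T3 v - T3 w‖ ≤ 27326 * YD w * ps w v := by
  have h1 := lip_of_speed (F := T3) (C := 2102) (by norm_num) T3_spec.1
    (fun z hz => speed_T3 hz) hw hv h
  refine h1.trans (le_of_eq ?_)
  ring

theorem F3_lip {w v : ℂ} (hw : ‖w‖ < 1) (hv : ‖v‖ < 1) (h : ps w v ≤ 1 / 100) :
    ‖F3 v - F3 w‖ ≤ 109200 * YD w * ps w v := by
  have h1 := lip_of_speed (F := F3) (C := 8400) (by norm_num) F3_spec.1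
    (fun z hz => T_L2_three hz) hw hv h
  refine h1.trans (le_of_eq ?_)
  ring

/-! ### the cusp Harnack inequality -/

theorem harnack_im (g : SL(2, ℤ)) {v w : ℂ} (hv : ‖v‖ < 1) (hw : ‖w‖ < 1) :
    (1 - ps v w) / (1 + ps v w) * (tau g v).im ≤ (tau g w).im := by
  set ω := (w - v) / (1 - conj v * w) with hω
  have hωn : ‖ω‖ = ps v w := by
    rw [hω, norm_div, norm_sub_rev]
    rfl
  have hω1 : ‖ω‖ < 1 := norm_dd hv hw
  have hmob : (v + ω) / (1 + conj v * ω) = w := mob_sub hv hw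
  have h1 := tau_mobius g hv hω1
  rw [hmob] at h1
  have h2 := im_mobius (tau g v) (kap g v) (norm_kap g hv) hω1
  rw [← h1] at h2
  have h3 := tau_im_pos g hv
  have h4 : ‖1 - kap g v * ω‖ ≤ 1 + ‖ω‖ := by
    refine (norm_sub_le _ _).trans ?_
    rw [norm_one, norm_mul, norm_kap g hv, one_mul]
  have h5 : 1 - ‖ω‖ ≤ ‖1 - kap g v * ω‖ := by
    have := norm_sub_norm_le (1 : ℂ) (kap g v * ω)
    rwa [norm_one, norm_mul, norm_kap g hv, one_mul] at this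
  have n0 := norm_nonneg ω
  have h6 : 0 < ‖1 - kap g v * ω‖ := by linarith
  have h7 : ‖1 - kap g v * ω‖ ^ 2 ≤ (1 + ‖ω‖) ^ 2 := pow_le_pow_left₀ h6.le h4 2
  rw [← hωn, h2, div_mul_eq_mul_div, div_le_div_iff₀ (by linarith) (pow_pos h6 2)]
  have h8 : 0 ≤ (1 - ‖ω‖) * (tau g v).im := mul_nonneg (by linarith) h3.le
  calc (1 - ‖ω‖) * (tau g v).im * ‖1 - kap g v * ω‖ ^ 2
      ≤ (1 - ‖ω‖) * (tau g v).im * (1 + ‖ω‖) ^ 2 := mul_le_mul_of_nonneg_left h7 h8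
    _ = (tau g v).im * (1 - ‖ω‖ ^ 2) * (1 + ‖ω‖) := by ring

theorem ps_lt_one {v w : ℂ} (hv : ‖v‖ < 1) (hw : ‖w‖ < 1) : ps v w < 1 := by
  have := norm_dd hv hw
  rw [norm_div, norm_sub_rev] at this
  exact this

/-- the three functions `Z`, with their coordinates at the cusp -/
theorem exists_cusp {Z : ℂ → ℂ} (hZ : Z = lamD ∨ Z = (fun w => (1 - lamD w)⁻¹) ∨
    Z = (fun w => (lamD w)⁻¹)) {B : ℂ} (hB : ‖B‖ < 1) (h10 : 10 ≤ ‖Z B‖) :
    ∃ g : SL(2, ℤ), (∀ v : ℂ, ‖v‖ < 1 → Z v =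
      (16 * cexp (π * I * tau g v) * MM (cexp (π * I * tau g v)))⁻¹) ∧
      Real.log ‖Z B‖ ≤ π * (tau g B).im := by
  rcases hZ with rfl | rfl | rfl
  · obtain ⟨g, g1, _, g3⟩ := cuspD_infty hB h10
    refine ⟨g, fun v hv => ?_, g3⟩
    rw [← g1 v hv, inv_inv]
  · have h1 : ‖1 - lamD B‖ ≤ 1 / 10 := by
      rw [norm_inv, le_inv_comm₀ (by norm_num)
        (norm_pos_iff.2 (sub_ne_zero.2 (lamD_ne_one hB).symm))] at h10
      linarith
    obtain ⟨g, g1, _, g3⟩ := cuspD_one hB h1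
    refine ⟨g, fun v hv => ?_, ?_⟩
    · simp only
      rw [← g1 v hv]
    · simp only
      rw [norm_inv, Real.log_inv]
      exact g3
  · have h1 : ‖lamD B‖ ≤ 1 / 10 := by
      rw [norm_inv, le_inv_comm₀ (by norm_num) (norm_pos_iff.2 (lamD_ne_zero hB))] at h10
      linarith
    obtain ⟨g, g1, _, g3⟩ := cuspD_zero hB h1
    refine ⟨g, fun v hv => ?_, ?_⟩
    · simp only
      rw [← g1 v hv]
    · simp only
      rw [norm_inv, Real.log_inv]
      exact g3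

theorem exp_neg_six : rexp (-6) ≤ 0.0025 := by
  have h4 : (400 : ℝ) ≤ rexp 6 := by
    have e : rexp 6 = rexp 1 ^ 6 := by
      rw [← Real.exp_nat_mul]
      norm_num
    have h3 := Real.exp_one_gt_d9
    have h5 : (2.718 : ℝ) ^ 6 ≤ rexp 1 ^ 6 := pow_le_pow_left₀ (by norm_num) (by linarith) 6
    rw [e]
    norm_num at h5 ⊢
    linarith
  rw [Real.exp_neg, inv_le_comm₀ (Real.exp_pos _) (by norm_num)]
  refine le_trans ?_ h4
  norm_num

theorem log_sixteen_le : Real.log 16 ≤ 2.78 := by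
  have h1 : (16 : ℝ) = 2 ^ 4 := by norm_num
  rw [h1, Real.log_pow]
  have := Real.log_two_lt_d9
  push_cast
  linarith

/-- near the cusp `-log |x| = π Im τ - log 16 + O(e^{-π Im τ})` -/
theorem cusp_log {Z : ℂ → ℂ} {g : SL(2, ℤ)} (hZ : ∀ v : ℂ, ‖v‖ < 1 → Z v =
      (16 * cexp (π * I * tau g v) * MM (cexp (π * I * tau g v)))⁻¹) {v : ℂ} (hv : ‖v‖ < 1)
    (h : 6 ≤ π * (tau g v).im) :
    |Real.log ‖Z v‖ - (π * (tau g v).im - Real.log 16)| ≤ 20 * rexp (-(π * (tau g v).im)) := by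
  set q := cexp (π * I * tau g v) with hq
  have hqn : ‖q‖ = rexp (-(π * (tau g v).im)) := by
    rw [hq, Complex.norm_exp]
    congr 1
    simp
  have hq1 : ‖q‖ ≤ 1 / 100 := by
    rw [hqn]
    have h1 := exp_neg_six
    have h2 : rexp (-(π * (tau g v).im)) ≤ rexp (-6) := Real.exp_le_exp.2 (by linarith)
    linarith
  have hb1 := (MM_bounds hq1).1
  have hM0 : MM q ≠ 0 := MM_ne (by linarith)
  have h16 : ‖(16 : ℂ)‖ = 16 := by norm_num
  rw [hZ v hv, ← hq, norm_inv, norm_mul, norm_mul, h16, Real.log_inv, hqn,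
    Real.log_mul (by positivity) (norm_ne_zero_iff.2 hM0),
    Real.log_mul (by norm_num) (Real.exp_pos _).ne', Real.log_exp]
  rw [hqn] at hb1
  have e : -(Real.log 16 + -(π * (tau g v).im) + Real.log ‖MM q‖) - (π * (tau g v).im - Real.log 16) =
      -Real.log ‖MM q‖ := by ring
  rw [e, abs_neg]
  exact hb1

/-- **(d)** the cusp Harnack inequality, from below -/
theorem cusp_harnack {Z : ℂ → ℂ} (hZ : Z = lamD ∨ Z = (fun w => (1 - lamD w)⁻¹) ∨
    Z = (fun w => (lamD w)⁻¹)) {B v : ℂ} (hB : ‖B‖ < 1) (hv : ‖v‖ < 1) (h10 : 10 ≤ ‖Z B‖)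
    (h1 : 6 ≤ (1 - ps B v) / (1 + ps B v) * Real.log ‖Z B‖) :
    (1 - ps B v) / (1 + ps B v) * Real.log ‖Z B‖ - 3 ≤ Real.log ‖Z v‖ := by
  obtain ⟨g, g1, g2⟩ := exists_cusp hZ hB h10
  have h2 := harnack_im g hB hv
  have h3 : 0 ≤ ps B v := div_nonneg (norm_nonneg _) (norm_nonneg _)
  have h4 := ps_lt_one hB hv
  have h5 : 0 ≤ (1 - ps B v) / (1 + ps B v) := div_nonneg (by linarith) (by linarith)
  have h6 : (1 - ps B v) / (1 + ps B v) * Real.log ‖Z B‖ ≤ π * (tau g v).im := by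
    refine (mul_le_mul_of_nonneg_left g2 h5).trans ?_
    have h7 := mul_le_mul_of_nonneg_left h2 Real.pi_pos.le
    linarith
  have h7 := cusp_log g1 hv (h1.trans h6)
  have h8 : rexp (-(π * (tau g v).im)) ≤ rexp (-6) := Real.exp_le_exp.2 (by linarith)
  have h9 := exp_neg_six
  have h10 := log_sixteen_le
  rw [abs_le] at h7
  linarith [h7.1]

/-- and from above: `log |Z v| ≤ (1+ps)/(1-ps) log |Z B| + ...` near the cusp at `B` -/
theorem cusp_harnack_up {Z : ℂ → ℂ} (hZ : Z = lamD ∨ Z = (fun w => (1 - lamD w)⁻¹) ∨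
    Z = (fun w => (lamD w)⁻¹)) {B v : ℂ} (hB : ‖B‖ < 1) (hv : ‖v‖ < 1) (h10 : 10 ≤ ‖Z B‖)
    (h1 : 6 ≤ Real.log ‖Z B‖) (h2 : 6 ≤ (1 - ps B v) / (1 + ps B v) * Real.log ‖Z B‖) :
    Real.log ‖Z v‖ ≤ (1 + ps B v) / (1 - ps B v) * (Real.log ‖Z B‖ + 3) := by
  obtain ⟨g, g1, g2⟩ := exists_cusp hZ hB h10
  have h3 : 0 ≤ ps B v := div_nonneg (norm_nonneg _) (norm_nonneg _)
  have h4 := ps_lt_one hB hv
  have hsym : ps v B = ps B v := by
    unfold ps
    rw [norm_sub_rev]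
    congr 1
    have : 1 - conj v * B = conj (1 - conj B * v) := by
      simp [mul_comm]
    rw [this, Complex.norm_conj]
  have h5 : 0 ≤ (1 - ps B v) / (1 + ps B v) := div_nonneg (by linarith) (by linarith)
  have a1 := harnack_im g hB hv
  have a2 := harnack_im g hv hB
  rw [hsym] at a2
  have h6 : (1 - ps B v) / (1 + ps B v) * Real.log ‖Z B‖ ≤ π * (tau g v).im := by
    refine (mul_le_mul_of_nonneg_left g2 h5).trans ?_
    have h7 := mul_le_mul_of_nonneg_left a1 Real.pi_pos.le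
    linarith
  have h7 := cusp_log g1 hv (h2.trans h6)
  have h8 := cusp_log g1 hB (h1.trans g2)
  have h9 : rexp (-(π * (tau g v).im)) ≤ rexp (-6) := Real.exp_le_exp.2 (by linarith)
  have h11 : rexp (-(π * (tau g B).im)) ≤ rexp (-6) := Real.exp_le_exp.2 (by linarith)
  have h12 := exp_neg_six
  have h13 := log_sixteen_le
  have h14 : 0 < Real.log 16 := Real.log_pos (by norm_num)
  have h15 : 0.05 ≤ Real.log 16 := by
    have h1 : (16 : ℝ) = 2 ^ 4 := by norm_num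
    rw [h1, Real.log_pow]
    have := Real.log_two_gt_d9
    push_cast
    linarith
  rw [abs_le] at h7 h8
  have h16 : (tau g v).im ≤ (1 + ps B v) / (1 - ps B v) * (tau g B).im := by
    rw [div_mul_eq_mul_div, le_div_iff₀ (by linarith)]
    rw [div_mul_eq_mul_div, div_le_iff₀ (by linarith)] at a2
    linarith
  have h17 : π * (tau g B).im ≤ Real.log ‖Z B‖ + 3 := by linarith [h8.1]
  have h18 : 0 ≤ (1 + ps B v) / (1 - ps B v) := div_nonneg (by linarith) (by linarith)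
  have h19 := mul_le_mul_of_nonneg_left h17 h18
  have h20 := mul_le_mul_of_nonneg_left h16 Real.pi_pos.le
  have h21 : π * ((1 + ps B v) / (1 - ps B v) * (tau g B).im) =
      (1 + ps B v) / (1 - ps B v) * (π * (tau g B).im) := by ring
  rw [h21] at h20
  linarith [h7.2]

end Pool.Agent.Helper84.Lam
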