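import Pool.Agent.Helper84.Lam.Logs

/-!
# The facts (L1) to (L5) of the master text (MP_78803a, Part 0)
-/

set_option autoImplicit false

namespace Pool.Agent.Helper84.Lam

open Complex Real Filter Topology ComplexConjugate MatrixGroups

/-! ### (L3) -/

/-- the three cusp inequalities together -/
def Cus (u : ℂ) : Prop :=
  u.im * ‖th2 u‖ ^ 4 ≤ 2.4 * (1 + |lb u - lc u|) ∧
  u.im * ‖th3 u‖ ^ 4 ≤ 2.4 * (1 + |la u - lc u|) ∧
  u.im * ‖th4 u‖ ^ 4 ≤ 2.4 * (1 + |la u - lb u|)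

theorem Cus_T {u : ℂ} (h : 0 < u.im) : Cus (u + 1) ↔ Cus u := by
  have e1 : la (u + 1) = la u := by
    unfold la
    rw [nT2 h]
  have e2 : lb (u + 1) = lc u := by
    unfold lb lc
    rw [th3_add_one h]
  have e3 : lc (u + 1) = lb u := by
    unfold lb lc
    rw [th4_add_one h]
  have e4 : (u + 1).im = u.im := by simp
  unfold Cus
  rw [e1, e2, e3, e4, nT2 h, th3_add_one h, th4_add_one h, abs_sub_comm (lc u) (lb u)]
  tauto

theorem im_mul_S {u : ℂ} (h : 0 < u.im) (x : ℝ) : (-1 / u).im * (‖u‖ ^ 2 * x) = u.im * x := by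
  rw [im_neg_inv]
  have : ‖u‖ ≠ 0 := norm_ne_zero_iff.2 (ne_zero_of_im h)
  field_simp

theorem Cus_S {u : ℂ} (h : 0 < u.im) : Cus (-1 / u) ↔ Cus u := by
  have hu : 0 < ‖u‖ ^ 2 := pow_pos (norm_pos_iff.2 (ne_zero_of_im h)) 2
  have e1 : la (-1 / u) = Real.log (‖u‖ ^ 2) + lc u := by
    unfold la lc
    rw [nS2 h, Real.log_mul hu.ne' (n4 h).ne']
  have e2 : lb (-1 / u) = Real.log (‖u‖ ^ 2) + lb u := by
    unfold lb
    rw [nS3 h, Real.log_mul hu.ne' (n3 h).ne']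
  have e3 : lc (-1 / u) = Real.log (‖u‖ ^ 2) + la u := by
    unfold la lc
    rw [nS4 h, Real.log_mul hu.ne' (n2 h).ne']
  unfold Cus
  rw [e1, e2, e3, nS2 h, nS3 h, nS4 h, im_mul_S h, im_mul_S h, im_mul_S h]
  rw [add_sub_add_left_eq_sub, add_sub_add_left_eq_sub, add_sub_add_left_eq_sub,
    abs_sub_comm (lb u) (la u), abs_sub_comm (lc u) (la u), abs_sub_comm (lc u) (lb u)]
  tauto

theorem Cus_fd {u : ℂ} (h : 0.86 ≤ u.im) : Cus u := by
  obtain ⟨⟨b1, b2⟩, ⟨c1, c2⟩⟩ := lbc_bd h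
  obtain ⟨a1, a2⟩ := la_bd h
  obtain ⟨x1, x2⟩ := fd3 h
  obtain ⟨y1, y2⟩ := fd4 h
  obtain ⟨z1, z2⟩ := fdg h
  have x := (pow4_bd (by norm_num) x1 x2).2
  have y := (pow4_bd (by norm_num) y1 y2).2
  have z := (pow4_bd (by norm_num) z1 z2).2
  norm_num at x y z
  have hp : 0 < u.im := by linarith
  have hpi := Real.pi_gt_d2
  have hpi2 := Real.pi_lt_d2
  have hle1 := neg_le_abs (la u - lc u)
  have hle2 := neg_le_abs (la u - lb u)
  have n1 := abs_nonneg (la u - lc u)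
  have n2' := abs_nonneg (la u - lb u)
  have n3' := abs_nonneg (lb u - lc u)
  have hmul : π * u.im ≥ 3.14 * u.im := by nlinarith
  refine ⟨?_, ?_, ?_⟩
  · -- `x e^{-πx}` is small
    rw [norm_th2]
    have e0 := Real.exp_pos (-π * u.im)
    have h5 : u.im * rexp (-π * u.im) ≤ 0.1 := by
      have h6 := exp_small h
      have h7 : rexp (-π * u.im) ≤ rexp (-2.7) * rexp (-π * (u.im - 0.86)) := by
        rw [← Real.exp_add, Real.exp_le_exp]
        nlinarith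
      have h8 : rexp (-π * (u.im - 0.86)) ≤ 1 / (1 + π * (u.im - 0.86)) := by
        have h9 : 1 + π * (u.im - 0.86) ≤ rexp (π * (u.im - 0.86)) := by
          linarith [Real.add_one_le_exp (π * (u.im - 0.86))]
        have h10 : -π * (u.im - 0.86) = -(π * (u.im - 0.86)) := by ring
        rw [h10, Real.exp_neg, ← one_div]
        refine one_div_le_one_div_of_le ?_ h9
        have : 0 ≤ π * (u.im - 0.86) := mul_nonneg Real.pi_pos.le (by linarith)
        linarith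
      have h11 : rexp (-2.7) ≤ 0.07 := by
        have h12 : (14.3 : ℝ) ≤ rexp 2.7 := by
          have e : rexp 2.7 = rexp 1 ^ 2 * rexp 0.7 := by
            rw [← Real.exp_nat_mul, ← Real.exp_add]
            norm_num
          have h3 := Real.quadratic_le_exp_of_nonneg (by norm_num : (0 : ℝ) ≤ 0.7)
          have h4 := Real.exp_one_gt_d9
          rw [e]
          nlinarith [Real.exp_pos 1, Real.exp_pos 0.7]
        rw [Real.exp_neg, inv_le_comm₀ (Real.exp_pos _) (by norm_num)]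
        refine le_trans ?_ h12
        norm_num
      have h13 : 0 < 1 + π * (u.im - 0.86) := by
        have : 0 ≤ π * (u.im - 0.86) := mul_nonneg Real.pi_pos.le (by linarith)
        linarith
      have h14 : rexp (-π * u.im) ≤ 0.07 * (1 / (1 + π * (u.im - 0.86))) := by
        refine h7.trans ?_
        exact mul_le_mul h11 h8 (Real.exp_pos _).le (by norm_num)
      have h15 : u.im * (0.07 * (1 / (1 + π * (u.im - 0.86)))) ≤ 0.1 := by
        have e : u.im * (0.07 * (1 / (1 + π * (u.im - 0.86)))) =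
            (0.07 * u.im) / (1 + π * (u.im - 0.86)) := by ring
        rw [e, div_le_iff₀ h13]
        nlinarith
      exact (mul_le_mul_of_nonneg_left h14 hp.le).trans h15
    have h16 : u.im * (16 * rexp (-π * u.im) * ‖gg u‖ ^ 4) =
        16 * (u.im * rexp (-π * u.im)) * ‖gg u‖ ^ 4 := by ring
    rw [h16]
    have h17 : 0 ≤ u.im * rexp (-π * u.im) := by positivity
    have h18 : 0 ≤ ‖gg u‖ ^ 4 := by positivity
    nlinarith
  · have h1 : u.im * ‖th3 u‖ ^ 4 ≤ u.im * 1.76 := mul_le_mul_of_nonneg_left (by linarith) hp.le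
    refine h1.trans ?_
    by_cases h2 : u.im ≤ 1.36
    · nlinarith
    · push Not at h2
      nlinarith
  · have h1 : u.im * ‖th4 u‖ ^ 4 ≤ u.im * 1.76 := mul_le_mul_of_nonneg_left (by linarith) hp.le
    refine h1.trans ?_
    by_cases h2 : u.im ≤ 1.36
    · nlinarith
    · push Not at h2
      nlinarith

theorem Cus_all (v : UpperHalfPlane) : Cus (v : ℂ) := by
  obtain ⟨g, hg⟩ := ModularGroup.exists_smul_mem_fd v
  have h := Cus_fd (fd_im hg)
  have e := inv_of_gen (F := fun v : UpperHalfPlane => Cus (v : ℂ)) (fun v => by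
    simp only [coe_S]
    exact propext (Cus_S v.im_pos)) (fun v => by
    simp only [coe_T]
    exact propext (Cus_T v.im_pos)) g v
  have e' : Cus ((g • v : UpperHalfPlane) : ℂ) = Cus (v : ℂ) := e
  rw [e'] at h
  exact h

theorem speed_eq {w : ℂ} (h : ‖w‖ < 1) :
    (1 - ‖w‖ ^ 2) * ‖deriv LL w‖ = 2 * π * ((cy w).im * ‖th4 (cy w)‖ ^ 4) ∧
    (1 - ‖w‖ ^ 2) * ‖deriv L1 w‖ = 2 * π * ((cy w).im * ‖th2 (cy w)‖ ^ 4) := by
  have him := cy_im_pos h
  have n0 := lamD_ne_zero h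
  have n1 : 1 - lamD w ≠ 0 := sub_ne_zero.2 (lamD_ne_one h).symm
  have nw := norm_ne_zero_iff.2 (one_sub_ne h)
  have m3 := norm_ne_zero_iff.2 (th3_ne him)
  have key : ‖deriv lamD w‖ * ‖1 - w‖ ^ 2 =
      2 * π * (‖lamD w‖ * ‖1 - lamD w‖ * ‖th3 (cy w)‖ ^ 4) := by
    rw [(hasDerivAt_lamD h).deriv, norm_mul, norm_mul, norm_mul, norm_mul, norm_mul, norm_pow,
      norm_div, norm_mul, Complex.norm_I, Complex.norm_real, Real.norm_of_nonneg Real.pi_pos.le,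
      norm_pow]
    have : ‖(2 : ℂ)‖ = 2 := by norm_num
    rw [this]
    field_simp
  have e4 : ‖1 - lamD w‖ * ‖th3 (cy w)‖ ^ 4 = ‖th4 (cy w)‖ ^ 4 := by
    have : 1 - lamD w = th4 (cy w) ^ 4 / th3 (cy w) ^ 4 := one_sub_lam him
    rw [this, norm_div, norm_pow, norm_pow]
    field_simp
  have e2 : ‖lamD w‖ * ‖th3 (cy w)‖ ^ 4 = ‖th2 (cy w)‖ ^ 4 := by
    have : lamD w = th2 (cy w) ^ 4 / th3 (cy w) ^ 4 := rfl
    rw [this, norm_div, norm_pow, norm_pow]
    field_simp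
  have p0 : ‖lamD w‖ ≠ 0 := norm_ne_zero_iff.2 n0
  have p1 : ‖1 - lamD w‖ ≠ 0 := norm_ne_zero_iff.2 n1
  constructor
  · rw [(hasDerivAt_LL h).deriv, norm_div, cy_im h, ← e4]
    field_simp
    linear_combination (1 - ‖w‖ ^ 2) * key
  · rw [(hasDerivAt_L1 h).deriv, norm_div, norm_neg, cy_im h, ← e2]
    field_simp
    linear_combination (1 - ‖w‖ ^ 2) * key

/-- **(L3)** for `log λ` -/
theorem L3_one {w : ℂ} (h : ‖w‖ < 1) : (1 - ‖w‖ ^ 2) * ‖deriv LL w‖ ≤ 16 * (1 + |(LL w).re|) := by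
  rw [(speed_eq h).1, re_LL h]
  have h1 := (Cus_all ⟨cy w, cy_im_pos h⟩).2.2
  have h2 : (cy w).im * ‖th4 (cy w)‖ ^ 4 ≤ 2.4 * (1 + |la (cy w) - lb (cy w)|) := h1
  have h3 : Real.log ‖lamD w‖ = la (cy w) - lb (cy w) := log_lam (cy_im_pos h)
  rw [h3]
  have hpi2 := Real.pi_lt_d2
  have hpi := Real.pi_pos
  have h4 : 0 ≤ 1 + |la (cy w) - lb (cy w)| := by positivity
  nlinarith

/-- **(L3)** for `log (1 - λ)` -/
theorem L3_two {w : ℂ} (h : ‖w‖ < 1) : (1 - ‖w‖ ^ 2) * ‖deriv L1 w‖ ≤ 16 * (1 + |(L1 w).re|) := by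
  rw [(speed_eq h).2, re_L1 h]
  have h1 := (Cus_all ⟨cy w, cy_im_pos h⟩).1
  have h2 : (cy w).im * ‖th2 (cy w)‖ ^ 4 ≤ 2.4 * (1 + |lb (cy w) - lc (cy w)|) := h1
  have h3 : Real.log ‖1 - lamD w‖ = lc (cy w) - lb (cy w) := log_one_sub_lam (cy_im_pos h)
  rw [h3, abs_sub_comm]
  have hpi2 := Real.pi_lt_d2
  have hpi := Real.pi_pos
  have h4 : 0 ≤ 1 + |lb (cy w) - lc (cy w)| := by positivity
  nlinarith

/-! ### (L2) -/

/-- `H = 2 π YD` -/
noncomputable def HH (w : ℂ) : ℝ :=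
  (1 - ‖w‖ ^ 2) * ‖deriv lamD w‖ * (1 + ‖lamD w‖ + ‖1 - lamD w‖) / (‖lamD w‖ * ‖1 - lamD w‖)

theorem HH_eq {w : ℂ} (h : ‖w‖ < 1) : HH w = 2 * π * YD w := YD_eq h

theorem L2_lower {w : ℂ} (h : ‖w‖ < 1) : 5 ≤ HH w := by
  rw [HH_eq h]
  have h1 := YD_lower h
  have h2 := Real.pi_gt_d2
  nlinarith

theorem L2_upper {w : ℂ} (h : ‖w‖ < 1) :
    HH w ≤ 13 * (|Real.log ‖lamD w‖| + |Real.log ‖1 - lamD w‖|) + 51 := by
  rw [HH_eq h]
  have h1 := YD_le_log h
  have h2 := Real.pi_lt_d2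
  have h3 := YD_lower h
  have h4 : 0 ≤ |Real.log ‖lamD w‖| + |Real.log ‖1 - lamD w‖| := by positivity
  nlinarith [Real.pi_pos]

/-! ### (L4) -/

theorem log_ratio {x y e : ℝ} (hx : 0 < x) (he : 0 ≤ e) (he2 : e ≤ 1 / 2)
    (h : |y - x| ≤ e * x) : |Real.log y - Real.log x| ≤ 2 * e := by
  rw [abs_le] at h
  have hy : 0 < y := by nlinarith [h.1]
  rw [← Real.log_div hy.ne' hx.ne', abs_le]
  have hr : 0 < y / x := div_pos hy hx
  have h1 : y / x ≤ 1 + e := by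
    rw [div_le_iff₀ hx]
    linarith [h.2]
  have h2 : 1 - e ≤ y / x := by
    rw [le_div_iff₀ hx]
    linarith [h.1]
  constructor
  · have h3 := Real.one_sub_inv_le_log_of_pos hr
    have h4 : (y / x)⁻¹ ≤ 1 + 2 * e := by
      rw [inv_le_comm₀ hr (by linarith)]
      refine le_trans ?_ h2
      rw [inv_le_iff_one_le_mul₀ (by linarith)]
      nlinarith
    linarith
  · have h3 := Real.log_le_sub_one_of_pos hr
    linarith

/-- the pseudo-hyperbolic distance -/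
noncomputable def ps (a b : ℂ) : ℝ := ‖a - b‖ / ‖1 - conj a * b‖

theorem one_sub_conj_ne {a b : ℂ} (ha : ‖a‖ < 1) (hb : ‖b‖ < 1) : 1 - conj a * b ≠ 0 := by
  intro h0
  have h3 : conj a * b = 1 := by linear_combination -h0
  have h4 := congrArg norm h3
  rw [norm_mul, Complex.norm_conj, norm_one] at h4
  have := norm_nonneg a
  have := norm_nonneg b
  nlinarith

/-- the Möbius map centred at `B` -/
noncomputable def mob (B ω : ℂ) : ℂ := (B + ω) / (1 + conj B * ω)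

theorem mob_den {B ω : ℂ} (hB : ‖B‖ < 1) (hω : ‖ω‖ < 1) : 1 + conj B * ω ≠ 0 := by
  have := one_sub_conj_ne hB (b := -ω) (by rwa [norm_neg])
  have e : 1 - conj B * -ω = 1 + conj B * ω := by ring
  rwa [e] at this

theorem norm_mob {B ω : ℂ} (hB : ‖B‖ < 1) (hω : ‖ω‖ < 1) : ‖mob B ω‖ < 1 := by
  have h1 := mob_den hB hω
  unfold mob
  rw [norm_div, div_lt_one (norm_pos_iff.2 h1)]
  have h2 := norm_one_sub_conj B (-ω)
  have e : 1 - conj B * -ω = 1 + conj B * ω := by ring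
  rw [e, sub_neg_eq_add, norm_neg] at h2
  have nB := norm_nonneg B
  have nω := norm_nonneg ω
  have h3 : 0 < (1 - ‖B‖ ^ 2) * (1 - ‖ω‖ ^ 2) := mul_pos (by nlinarith) (by nlinarith)
  have h4 : ‖B + ω‖ ^ 2 < ‖1 + conj B * ω‖ ^ 2 := by linarith
  exact lt_of_pow_lt_pow_left₀ 2 (norm_nonneg _) h4

/-- the inverse of `mob B` -/
theorem mob_sub {B b : ℂ} (hB : ‖B‖ < 1) (hb : ‖b‖ < 1) :
    mob B ((b - B) / (1 - conj B * b)) = b := by
  have h1 := one_sub_conj_ne hB hb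
  have h3 : 1 - conj B * B ≠ 0 := one_sub_conj_ne hB hB
  unfold mob
  generalize conj B = B' at h1 h3 ⊢
  have e1 : 1 + B' * ((b - B) / (1 - B' * b)) = (1 - B' * B) / (1 - B' * b) := by
    rw [eq_div_iff h1, add_mul, mul_assoc, div_mul_cancel₀ _ h1]
    ring
  have e2 : B + (b - B) / (1 - B' * b) = b * (1 - B' * B) / (1 - B' * b) := by
    rw [eq_div_iff h1, add_mul, div_mul_cancel₀ _ h1]
    ring
  rw [e1, e2, div_div_div_cancel_right₀ h1, mul_div_assoc, div_self h3, mul_one]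

theorem ps_mob {B ω ω' : ℂ} (hB : ‖B‖ < 1) (hω : ‖ω‖ < 1) (hω' : ‖ω'‖ < 1) :
    ps (mob B ω) (mob B ω') = ps ω ω' := by
  have h1 := mob_den hB hω
  have h2 := mob_den hB hω'
  have h1c : conj (1 + conj B * ω) ≠ 0 := by rwa [Ne, map_eq_zero]
  have h3 : 1 - conj B * B ≠ 0 := one_sub_conj_ne hB hB
  have e1 : mob B ω - mob B ω' = (ω - ω') * (1 - conj B * B) / ((1 + conj B * ω) * (1 + conj B * ω')) := by
    unfold mob
    rw [div_sub_div _ _ h1 h2]
    congr 1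
    ring
  have e2 : 1 - conj (mob B ω) * mob B ω' =
      (1 - conj ω * ω') * (1 - conj B * B) / (conj (1 + conj B * ω) * (1 + conj B * ω')) := by
    unfold mob
    rw [map_div₀]
    have h4 : conj (B + ω) = conj B + conj ω := map_add _ _ _
    have h5 : conj (1 + conj B * ω) = 1 + B * conj ω := by simp
    rw [h5] at h1c ⊢
    rw [h4, div_mul_div_comm, eq_div_iff (mul_ne_zero h1c h2), sub_mul, one_mul,
      div_mul_cancel₀ _ (mul_ne_zero h1c h2)]
    ring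
  have n1 := norm_ne_zero_iff.2 h1
  have n2' := norm_ne_zero_iff.2 h2
  have n3' := norm_ne_zero_iff.2 h3
  have n4' := norm_ne_zero_iff.2 (one_sub_conj_ne hω hω')
  unfold ps
  rw [e1, e2, norm_div, norm_mul, norm_mul, norm_div, norm_mul, norm_mul, Complex.norm_conj]
  generalize ‖1 + conj B * ω‖ = x1 at n1 ⊢
  generalize ‖1 + conj B * ω'‖ = x2 at n2' ⊢
  generalize ‖1 - conj B * B‖ = x3 at n3' ⊢
  generalize ‖1 - conj ω * ω'‖ = x4 at n4' ⊢
  field_simp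

theorem log_YD_near {w v : ℂ} (hw : ‖w‖ < 1) (hv : ‖v‖ < 1) {ρ : ℝ} (h0 : 0 ≤ ρ)
    (h1 : ρ ≤ 1 / 6480) (h : ps w v ≤ ρ) : |Real.log (YD v) - Real.log (YD w)| ≤ 6480 * ρ := by
  have h2 := norm_pos_iff.2 (one_sub_conj_ne hw hv)
  unfold ps at h
  rw [div_le_iff₀ h2] at h
  have h3 := YD_lip hw hv h0 (by linarith) h
  have h4 := YD_lower hw
  have h5 := log_ratio (e := 3240 * ρ) (by linarith : 0 < YD w) (by positivity) (by linarith) h3
  have e : 2 * (3240 * ρ) = 6480 * ρ := by ring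
  rw [e] at h5
  exact h5

/-- **(L4)** -/
theorem L4 {w v : ℂ} (hw : ‖w‖ < 1) (hv : ‖v‖ < 1) (h : ps w v ≤ 1 / 10) :
    |Real.log (YD v) - Real.log (YD w)| ≤ 6700 * ps w v := by
  set ω := (v - w) / (1 - conj w * v) with hω
  have hωn : ‖ω‖ = ps w v := by
    rw [hω, norm_div, norm_sub_rev]
    rfl
  have hmob : mob w ω = v := mob_sub hw hv
  have hω1 : ‖ω‖ ≤ 1 / 10 := by rw [hωn]; exact h
  set p := ps w v with hp
  have hp0 : 0 ≤ p := by rw [← hωn]; exact norm_nonneg _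
  -- the chain
  have hs : ∀ k : ℕ, k ≤ 1000 → ‖(((k : ℝ) / 1000 : ℝ) : ℂ) * ω‖ < 1 := by
    intro k hk
    rw [norm_mul, Complex.norm_real, Real.norm_of_nonneg (by positivity)]
    have h1 : (k : ℝ) / 1000 ≤ 1 := by
      rw [div_le_one (by norm_num)]
      exact_mod_cast hk
    have h2 : 0 ≤ (k : ℝ) / 1000 := by positivity
    have h3 := norm_nonneg ω
    nlinarith
  have hstep : ∀ k : ℕ, k + 1 ≤ 1000 →
      ps (mob w ((((k : ℝ) / 1000 : ℝ) : ℂ) * ω)) (mob w (((((k + 1 : ℕ) : ℝ) / 1000 : ℝ) : ℂ) * ω)) ≤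
        1.02 * p / 1000 := by
    intro k hk
    rw [ps_mob hw (hs k (by omega)) (hs (k + 1) hk)]
    unfold ps
    have e1 : (((k : ℝ) / 1000 : ℝ) : ℂ) * ω - ((((k + 1 : ℕ) : ℝ) / 1000 : ℝ) : ℂ) * ω =
        ((-(1 / 1000) : ℝ) : ℂ) * ω := by
      push_cast
      ring
    have e2 : conj ((((k : ℝ) / 1000 : ℝ) : ℂ) * ω) * (((((k + 1 : ℕ) : ℝ) / 1000 : ℝ) : ℂ) * ω) =
        (((k : ℝ) / 1000 * (((k + 1 : ℕ) : ℝ) / 1000) * ‖ω‖ ^ 2 : ℝ) : ℂ) := by
      have h5 : conj ω * ω = ((‖ω‖ ^ 2 : ℝ) : ℂ) := by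
        rw [mul_comm, Complex.mul_conj, Complex.normSq_eq_norm_sq]
      rw [map_mul, Complex.conj_ofReal]
      have : (((k : ℝ) / 1000 : ℝ) : ℂ) * conj ω * (((((k + 1 : ℕ) : ℝ) / 1000 : ℝ) : ℂ) * ω) =
          (((k : ℝ) / 1000 : ℝ) : ℂ) * ((((k + 1 : ℕ) : ℝ) / 1000 : ℝ) : ℂ) * (conj ω * ω) := by ring
      rw [this, h5]
      push_cast
      ring
    have h6 : 0.99 ≤ ‖1 - conj ((((k : ℝ) / 1000 : ℝ) : ℂ) * ω) *
        (((((k + 1 : ℕ) : ℝ) / 1000 : ℝ) : ℂ) * ω)‖ := by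
      rw [e2]
      have h7 : (k : ℝ) / 1000 * (((k + 1 : ℕ) : ℝ) / 1000) * ‖ω‖ ^ 2 ≤ 0.01 := by
        have h8 : (k : ℝ) / 1000 ≤ 1 := by
          rw [div_le_one (by norm_num)]
          exact_mod_cast (by omega : k ≤ 1000)
        have h9 : ((k + 1 : ℕ) : ℝ) / 1000 ≤ 1 := by
          rw [div_le_one (by norm_num)]
          exact_mod_cast hk
        have h10 : 0 ≤ (k : ℝ) / 1000 := by positivity
        have h11 : 0 ≤ ((k + 1 : ℕ) : ℝ) / 1000 := by positivity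
        have h12 : (k : ℝ) / 1000 * (((k + 1 : ℕ) : ℝ) / 1000) ≤ 1 := by nlinarith
        have h13 : ‖ω‖ ^ 2 ≤ 0.01 := by
          have := norm_nonneg ω
          nlinarith
        have h14 : 0 ≤ ‖ω‖ ^ 2 := by positivity
        nlinarith
      have h15 := Complex.re_le_norm (1 - (((k : ℝ) / 1000 * (((k + 1 : ℕ) : ℝ) / 1000) * ‖ω‖ ^ 2 : ℝ) : ℂ))
      rw [Complex.sub_re, Complex.one_re, Complex.ofReal_re] at h15
      linarith
    rw [e1, norm_mul, Complex.norm_real, div_le_iff₀ (by linarith), hωn]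
    have h16 : ‖(-(1 / 1000) : ℝ)‖ = 1 / 1000 := by norm_num
    rw [h16]
    nlinarith
  have hind : ∀ k : ℕ, k ≤ 1000 →
      |Real.log (YD (mob w ((((k : ℝ) / 1000 : ℝ) : ℂ) * ω))) - Real.log (YD w)| ≤
        k * (6480 * (1.02 * p / 1000)) := by
    intro k
    induction k with
    | zero =>
      intro _
      have e : mob w ((((((0 : ℕ) : ℝ)) / 1000 : ℝ) : ℂ) * ω) = w := by
        unfold mob
        simp
      rw [e]
      simp
    | succ k ih =>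
      intro hk
      have h1 := ih (by omega)
      have h2 := log_YD_near (norm_mob hw (hs k (by omega))) (norm_mob hw (hs (k + 1) hk))
        (ρ := 1.02 * p / 1000) (by positivity) (by linarith) (hstep k hk)
      have h3 := abs_sub_le (Real.log (YD (mob w (((((k + 1 : ℕ) : ℝ) / 1000 : ℝ) : ℂ) * ω))))
        (Real.log (YD (mob w ((((k : ℝ) / 1000 : ℝ) : ℂ) * ω)))) (Real.log (YD w))
      push_cast at h1 h2 h3 ⊢
      linarith
  have h1 := hind 1000 (le_refl _)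
  have e : (((((1000 : ℕ) : ℝ)) / 1000 : ℝ) : ℂ) * ω = ω := by
    norm_num
  rw [e, hmob] at h1
  refine h1.trans ?_
  push_cast
  linarith

/-- (L4) for `H` -/
theorem L4_H {w v : ℂ} (hw : ‖w‖ < 1) (hv : ‖v‖ < 1) (h : ps w v ≤ 1 / 10) :
    |Real.log (HH v) - Real.log (HH w)| ≤ 6700 * ps w v := by
  have h1 := L4 hw hv h
  have h2 : 0 < 2 * π := by positivity
  rw [HH_eq hw, HH_eq hv, Real.log_mul h2.ne' (by linarith [YD_lower hv]),
    Real.log_mul h2.ne' (by linarith [YD_lower hw])]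
  rw [add_sub_add_left_eq_sub]
  exact h1

end Pool.Agent.Helper84.Lam
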