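import Pool.Agent.Helper84.Lam.Lift

/-!
# Analytic logarithms on the disc
-/

set_option autoImplicit false

namespace Pool.Agent.Helper84.Lam

open Complex Real Filter Topology

theorem exists_log_ball {R : ℝ} {F : ℂ → ℂ} (hF : DifferentiableOn ℂ F (Metric.ball 0 R))
    (h0 : ∀ z ∈ Metric.ball (0 : ℂ) R, F z ≠ 0) :
    ∃ L : ℂ → ℂ, DifferentiableOn ℂ L (Metric.ball 0 R) ∧ (0 < R → L 0 = Complex.log (F 0)) ∧
      ∀ z ∈ Metric.ball (0 : ℂ) R, cexp (L z) = F z := by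
  have h1 : DifferentiableOn ℂ (fun z => deriv F z / F z) (Metric.ball 0 R) :=
    (hF.deriv Metric.isOpen_ball).div hF h0
  obtain ⟨L, hL0, hL⟩ := h1.isExactOn_ball.with_val_at 0 (Complex.log (F 0))
  refine ⟨L, fun z hz => (hL z hz).differentiableAt.differentiableWithinAt, fun _ => hL0, ?_⟩
  intro z hz
  have hR : 0 < R := lt_of_le_of_lt (norm_nonneg z) (by rwa [Metric.mem_ball, dist_zero_right] at hz)
  have h00 : (0 : ℂ) ∈ Metric.ball (0 : ℂ) R := Metric.mem_ball_self hR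
  have hd : ∀ w ∈ Metric.ball (0 : ℂ) R, HasDerivAt (fun w => F w * cexp (-L w)) 0 w := by
    intro w hw
    have h2 := (hF.differentiableAt (Metric.isOpen_ball.mem_nhds hw)).hasDerivAt
    have h3 := (hL w hw).neg.cexp
    refine (h2.mul h3).congr_deriv ?_
    have := h0 w hw
    field_simp
    ring
  have hconst : ∀ w ∈ Metric.ball (0 : ℂ) R, F w * cexp (-L w) = F 0 * cexp (-L 0) := by
    intro w hw
    refine (convex_ball (0 : ℂ) R).is_const_of_fderivWithin_eq_zero (𝕜 := ℂ)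
      (f := fun w => F w * cexp (-L w)) (fun x hx => (hd x hx).differentiableAt.differentiableWithinAt)
      (fun x hx => ?_) hw h00
    rw [fderivWithin_of_isOpen Metric.isOpen_ball hx]
    have := (hd x hx).hasFDerivAt.fderiv
    rw [this]
    ext
    simp
  have h4 := hconst z hz
  rw [hL0, Complex.exp_neg, Complex.exp_neg, Complex.exp_log (h0 0 h00), mul_inv_cancel₀ (h0 0 h00)] at h4
  have h5 := Complex.exp_ne_zero (L z)
  field_simp at h4
  exact h4.symm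

theorem ball_norm {z : ℂ} : z ∈ Metric.ball (0 : ℂ) 1 ↔ ‖z‖ < 1 := by
  rw [Metric.mem_ball, dist_zero_right]

theorem log_spec {F : ℂ → ℂ} (hF : ∀ w, ‖w‖ < 1 → DifferentiableAt ℂ F w)
    (h0 : ∀ w, ‖w‖ < 1 → F w ≠ 0) : ∃ L : ℂ → ℂ, (∀ w, ‖w‖ < 1 → DifferentiableAt ℂ L w) ∧
      L 0 = Complex.log (F 0) ∧ ∀ w, ‖w‖ < 1 → cexp (L w) = F w := by
  obtain ⟨L, h1, h2, h3⟩ := exists_log_ball (R := 1) (F := F)
    (fun z hz => (hF z (ball_norm.1 hz)).differentiableWithinAt) (fun z hz => h0 z (ball_norm.1 hz))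
  exact ⟨L, fun w hw => h1.differentiableAt (Metric.isOpen_ball.mem_nhds (ball_norm.2 hw)),
    h2 one_pos, fun w hw => h3 w (ball_norm.2 hw)⟩

/-- derivative and real part of a logarithm -/
theorem log_props {F L : ℂ → ℂ} (hF : ∀ w, ‖w‖ < 1 → DifferentiableAt ℂ F w)
    (hL : ∀ w, ‖w‖ < 1 → DifferentiableAt ℂ L w)
    (he : ∀ w, ‖w‖ < 1 → cexp (L w) = F w) {w : ℂ} (hw : ‖w‖ < 1) :
    HasDerivAt L (deriv F w / F w) w ∧ (L w).re = Real.log ‖F w‖ := by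
  constructor
  · have h1 := (hL w hw).hasDerivAt
    have h2 : HasDerivAt F (cexp (L w) * deriv L w) w := by
      refine h1.cexp.congr_of_eventuallyEq ?_
      filter_upwards [Metric.isOpen_ball.mem_nhds (ball_norm.2 hw)] with z hz
      exact (he z (ball_norm.1 hz)).symm
    refine h1.congr_deriv ?_
    rw [h2.deriv, ← he w hw]
    have := Complex.exp_ne_zero (L w)
    field_simp
  · rw [← he w hw, Complex.norm_exp, Real.log_exp]

/-- `log λ` on the disc -/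
noncomputable def LL : ℂ → ℂ :=
  Classical.choose (log_spec (fun _ h => diff_lamD h) (fun _ h => lamD_ne_zero h))

theorem diff_one_sub_lamD {w : ℂ} (h : ‖w‖ < 1) : DifferentiableAt ℂ (fun w => 1 - lamD w) w :=
  (diff_lamD h).const_sub 1

/-- `log (1 - λ)` on the disc -/
noncomputable def L1 : ℂ → ℂ :=
  Classical.choose (log_spec (F := fun w => 1 - lamD w) (fun _ h => diff_one_sub_lamD h)
    (fun _ h => sub_ne_zero.2 (lamD_ne_one h).symm))

theorem diff_th3_cy {w : ℂ} (h : ‖w‖ < 1) : DifferentiableAt ℂ (fun w => th3 (cy w)) w :=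
  DifferentiableAt.comp w (diff_th3 (cy_im_pos h)) (hasDerivAt_cy h).differentiableAt

/-- `log θ₃` on the disc -/
noncomputable def T3 : ℂ → ℂ :=
  Classical.choose (log_spec (F := fun w => th3 (cy w)) (fun _ h => diff_th3_cy h)
    (fun _ h => th3_ne (cy_im_pos h)))

theorem LL_spec : (∀ w, ‖w‖ < 1 → DifferentiableAt ℂ LL w) ∧
      LL 0 = Complex.log (lamD 0) ∧ ∀ w, ‖w‖ < 1 → cexp (LL w) = lamD w :=
  Classical.choose_spec (log_spec (fun _ h => diff_lamD h) (fun _ h => lamD_ne_zero h))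

theorem L1_spec : (∀ w, ‖w‖ < 1 → DifferentiableAt ℂ L1 w) ∧
      L1 0 = Complex.log (1 - lamD 0) ∧ ∀ w, ‖w‖ < 1 → cexp (L1 w) = 1 - lamD w :=
  Classical.choose_spec (log_spec (F := fun w => 1 - lamD w) (fun _ h => diff_one_sub_lamD h)
    (fun _ h => sub_ne_zero.2 (lamD_ne_one h).symm))

theorem T3_spec : (∀ w, ‖w‖ < 1 → DifferentiableAt ℂ T3 w) ∧
      T3 0 = Complex.log (th3 (cy 0)) ∧ ∀ w, ‖w‖ < 1 → cexp (T3 w) = th3 (cy w) :=
  Classical.choose_spec (log_spec (F := fun w => th3 (cy w)) (fun _ h => diff_th3_cy h)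
    (fun _ h => th3_ne (cy_im_pos h)))

theorem exp_LL {w : ℂ} (h : ‖w‖ < 1) : cexp (LL w) = lamD w := LL_spec.2.2 w h
theorem exp_L1 {w : ℂ} (h : ‖w‖ < 1) : cexp (L1 w) = 1 - lamD w := L1_spec.2.2 w h
theorem exp_T3 {w : ℂ} (h : ‖w‖ < 1) : cexp (T3 w) = th3 (cy w) := T3_spec.2.2 w h

theorem hasDerivAt_LL {w : ℂ} (h : ‖w‖ < 1) : HasDerivAt LL (deriv lamD w / lamD w) w :=
  (log_props (fun _ h => diff_lamD h) LL_spec.1 LL_spec.2.2 h).1

theorem hasDerivAt_L1 {w : ℂ} (h : ‖w‖ < 1) : HasDerivAt L1 (-deriv lamD w / (1 - lamD w)) w := by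
  have h1 := (log_props (F := fun w => 1 - lamD w) (fun _ h => diff_one_sub_lamD h) L1_spec.1
    L1_spec.2.2 h).1
  refine h1.congr_deriv ?_
  rw [((diff_lamD h).hasDerivAt.const_sub 1).deriv]

theorem re_LL {w : ℂ} (h : ‖w‖ < 1) : (LL w).re = Real.log ‖lamD w‖ :=
  (log_props (fun _ h => diff_lamD h) LL_spec.1 LL_spec.2.2 h).2

theorem re_L1 {w : ℂ} (h : ‖w‖ < 1) : (L1 w).re = Real.log ‖1 - lamD w‖ :=
  (log_props (F := fun w => 1 - lamD w) (fun _ h => diff_one_sub_lamD h) L1_spec.1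
    L1_spec.2.2 h).2

theorem re_T3 {w : ℂ} (h : ‖w‖ < 1) : (T3 w).re = Real.log ‖th3 (cy w)‖ :=
  (log_props (F := fun w => th3 (cy w)) (fun _ h => diff_th3_cy h) T3_spec.1 T3_spec.2.2 h).2

theorem abs_re_LL {w : ℂ} (h : ‖w‖ < 1) : |(LL w).re| ≤ 7 * YD w := by
  rw [re_LL h]
  exact (log_le_YD h).1

theorem abs_re_L1 {w : ℂ} (h : ‖w‖ < 1) : |(L1 w).re| ≤ 7 * YD w := by
  rw [re_L1 h]
  exact (log_le_YD h).2

/-- The hyperbolic derivative of `log λ` is at most `2 π YD`. -/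
theorem speed_LL {w : ℂ} (h : ‖w‖ < 1) : (1 - ‖w‖ ^ 2) * ‖deriv LL w‖ ≤ 2 * π * YD w := by
  rw [(hasDerivAt_LL h).deriv, norm_div, ← YD_eq h]
  have h1 : 0 < ‖lamD w‖ := norm_pos_iff.2 (lamD_ne_zero h)
  have h2 : 0 < ‖1 - lamD w‖ := norm_pos_iff.2 (sub_ne_zero.2 (lamD_ne_one h).symm)
  have h3 : 0 ≤ (1 - ‖w‖ ^ 2) * ‖deriv lamD w‖ := by
    have := norm_nonneg w
    have h4 : 0 ≤ 1 - ‖w‖ ^ 2 := by nlinarith
    positivity
  have e : (1 - ‖w‖ ^ 2) * (‖deriv lamD w‖ / ‖lamD w‖) =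
      (1 - ‖w‖ ^ 2) * ‖deriv lamD w‖ * ‖1 - lamD w‖ / (‖lamD w‖ * ‖1 - lamD w‖) := by
    field_simp
  rw [e]
  refine div_le_div_of_nonneg_right ?_ (by positivity)
  exact mul_le_mul_of_nonneg_left (by linarith) h3

/-- The hyperbolic derivative of `log (1 - λ)` is at most `2 π YD`. -/
theorem speed_L1 {w : ℂ} (h : ‖w‖ < 1) : (1 - ‖w‖ ^ 2) * ‖deriv L1 w‖ ≤ 2 * π * YD w := by
  rw [(hasDerivAt_L1 h).deriv, norm_div, norm_neg, ← YD_eq h]
  have h1 : 0 < ‖lamD w‖ := norm_pos_iff.2 (lamD_ne_zero h)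
  have h2 : 0 < ‖1 - lamD w‖ := norm_pos_iff.2 (sub_ne_zero.2 (lamD_ne_one h).symm)
  have h3 : 0 ≤ (1 - ‖w‖ ^ 2) * ‖deriv lamD w‖ := by
    have := norm_nonneg w
    have h4 : 0 ≤ 1 - ‖w‖ ^ 2 := by nlinarith
    positivity
  have e : (1 - ‖w‖ ^ 2) * (‖deriv lamD w‖ / ‖1 - lamD w‖) =
      (1 - ‖w‖ ^ 2) * ‖deriv lamD w‖ * ‖lamD w‖ / (‖lamD w‖ * ‖1 - lamD w‖) := by
    field_simp
  rw [e]
  refine div_le_div_of_nonneg_right ?_ (by positivity)
  exact mul_le_mul_of_nonneg_left (by linarith) h3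

end Pool.Agent.Helper84.Lam
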