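import Pool.Agent.Helper84.Lam.Theta

/-!
# The theta constants: rules for `τ + 1` and `-1/τ`, limits, zeros, differentiability
-/

set_option autoImplicit false

namespace Pool.Agent.Helper84.Lam

open Complex Real Filter Topology

theorem th4_eq {τ : ℂ} (h : 0 < τ.im) : th4 τ = th3 (τ + 1) := by
  have h' : 0 < (τ + 1).im := by simpa using h
  refine (hasSum_th4 h).unique ((hs_congr fun n => ?_).1 (hasSum_th3 h'))
  obtain ⟨k, hk⟩ : ∃ k : ℤ, n ^ 2 - n = 2 * k := by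
    have : Even (n ^ 2 - n) := by
      have e : n ^ 2 - n = (n - 1) * (n - 1 + 1) := by ring
      rw [e]
      exact Int.even_mul_succ_self _
    obtain ⟨k, hk⟩ := this
    exact ⟨k, by omega⟩
  have hk' : (n : ℂ) ^ 2 = n + 2 * k := by
    have : ((n ^ 2 - n : ℤ) : ℂ) = ((2 * k : ℤ) : ℂ) := by rw [hk]
    push_cast at this
    linear_combination this
  apply exp_eq k
  linear_combination π * I * hk'

theorem th3_add_one {τ : ℂ} (h : 0 < τ.im) : th3 (τ + 1) = th4 τ := (th4_eq h).symm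

theorem th4_add_one {τ : ℂ} (h : 0 < τ.im) : th4 (τ + 1) = th3 τ := by
  have h' : 0 < (τ + 1).im := by simpa using h
  rw [th4_eq h', add_assoc, one_add_one_eq_two]
  exact jacobiTheta₂_add_right 0 τ

theorem th2_add_one {τ : ℂ} (h : 0 < τ.im) : th2 (τ + 1) = cexp (π * I / 4) * th2 τ := by
  have h' : 0 < (τ + 1).im := by simpa using h
  refine (hasSum_th2 h').unique
    ((hs_congr fun n => ?_).1 ((hasSum_th2 h).mul_left (cexp (π * I / 4))))
  rw [← Complex.exp_add]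
  obtain ⟨k, hk⟩ : ∃ k : ℤ, n ^ 2 + n = 2 * k := by
    have : Even (n ^ 2 + n) := by
      have e : n ^ 2 + n = n * (n + 1) := by ring
      rw [e]
      exact Int.even_mul_succ_self _
    obtain ⟨k, hk⟩ := this
    exact ⟨k, by omega⟩
  have hk' : (n : ℂ) ^ 2 + n = 2 * k := by
    have : ((n ^ 2 + n : ℤ) : ℂ) = ((2 * k : ℤ) : ℂ) := by rw [hk]
    push_cast at this
    exact this
  symm
  apply exp_eq k
  linear_combination π * I * hk'

theorem neg_inv_im {τ : ℂ} (h : 0 < τ.im) : 0 < (-1 / τ).im := by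
  have h0 : τ ≠ 0 := fun h0 => by rw [h0] at h; simp at h
  rw [neg_div, one_div, Complex.neg_im, Complex.inv_im]
  have : 0 < Complex.normSq τ := Complex.normSq_pos.2 h0
  have := div_pos h this
  rw [neg_div, neg_neg]
  exact this

theorem ne_zero_of_im {τ : ℂ} (h : 0 < τ.im) : τ ≠ 0 := fun h0 => by
  rw [h0] at h; simp at h

theorem th3_S {τ : ℂ} (h : 0 < τ.im) : th3 τ = 1 / (-I * τ) ^ (1 / 2 : ℂ) * th3 (-1 / τ) := by
  unfold th3
  rw [jacobiTheta₂_functional_equation 0 τ]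
  simp

theorem th4_S {τ : ℂ} (h : 0 < τ.im) : th4 τ = 1 / (-I * τ) ^ (1 / 2 : ℂ) * th2 (-1 / τ) := by
  unfold th4 th2
  rw [jacobiTheta₂_functional_equation (1 / 2) τ]
  have h0 := ne_zero_of_im h
  have e1 : (-1 / τ) / 2 = -(1 / 2 / τ) := by field_simp
  rw [e1, jacobiTheta₂_neg_left, mul_assoc, mul_assoc]
  congr 3
  field_simp
  norm_num

theorem pow4 {τ : ℂ} (h : 0 < τ.im) : ((1 : ℂ) / (-I * τ) ^ (1 / 2 : ℂ)) ^ 4 = -1 / τ ^ 2 := by
  have h0 := ne_zero_of_im h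
  have h1 : (((-I * τ) ^ (1 / 2 : ℂ)) ^ 4) = -τ ^ 2 := by
    have h2 : (((-I * τ) ^ (1 / 2 : ℂ)) ^ 2) = -I * τ := by
      rw [← Complex.cpow_nat_mul]
      norm_num
    calc (((-I * τ) ^ (1 / 2 : ℂ)) ^ 4) = (((-I * τ) ^ (1 / 2 : ℂ)) ^ 2) ^ 2 := by ring
      _ = (-I * τ) ^ 2 := by rw [h2]
      _ = -τ ^ 2 := by
        rw [mul_pow, neg_pow, Complex.I_sq]
        ring
  rw [div_pow, h1, one_pow]
  field_simp

/-- `θ₃(-1/τ)^4 = -τ² θ₃(τ)^4` -/
theorem th3_S4 {τ : ℂ} (h : 0 < τ.im) : th3 (-1 / τ) ^ 4 = -τ ^ 2 * th3 τ ^ 4 := by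
  have h0 := ne_zero_of_im h
  have h1 := congrArg (· ^ 4) (th3_S h)
  simp only [mul_pow] at h1
  rw [pow4 h] at h1
  rw [h1]
  field_simp

theorem th2_S4 {τ : ℂ} (h : 0 < τ.im) : th2 (-1 / τ) ^ 4 = -τ ^ 2 * th4 τ ^ 4 := by
  have h0 := ne_zero_of_im h
  have h1 := congrArg (· ^ 4) (th4_S h)
  simp only [mul_pow] at h1
  rw [pow4 h] at h1
  rw [h1]
  field_simp

theorem th4_S4 {τ : ℂ} (h : 0 < τ.im) : th4 (-1 / τ) ^ 4 = -τ ^ 2 * th2 τ ^ 4 := by
  have h0 := ne_zero_of_im h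
  have h1 := th2_S4 (neg_inv_im h)
  have e : -1 / (-1 / τ) = τ := by field_simp
  rw [e] at h1
  rw [h1]
  field_simp

theorem th2_T4 {τ : ℂ} (h : 0 < τ.im) : th2 (τ + 1) ^ 4 = -th2 τ ^ 4 := by
  rw [th2_add_one h, mul_pow, ← Complex.exp_nat_mul]
  have : ((4 : ℕ) : ℂ) * (π * I / 4) = π * I := by push_cast; ring
  rw [this, Complex.exp_pi_mul_I]
  ring

/-! ### bounds -/

theorem norm_th3 {τ : ℂ} (h : 0 < τ.im) :
    ‖th3 τ - 1‖ ≤ 2 / (1 - rexp (-π * τ.im)) * rexp (-π * τ.im) := by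
  have := norm_jacobiTheta_sub_one_le h
  rwa [jacobiTheta_eq_jacobiTheta₂] at this

theorem norm_th4 {τ : ℂ} (h : 0 < τ.im) :
    ‖th4 τ - 1‖ ≤ 2 / (1 - rexp (-π * τ.im)) * rexp (-π * τ.im) := by
  have h' : 0 < (τ + 1).im := by simpa using h
  rw [th4_eq h]
  have := norm_th3 h'
  simpa using this

/-- `g = e^{-πiτ/4} θ₂ / 2` -/
noncomputable def gg (τ : ℂ) : ℂ := jacobiTheta₂ (τ / 2) τ / 2

theorem th2_gg (τ : ℂ) : th2 τ = 2 * cexp (π * I * τ / 4) * gg τ := by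
  unfold th2 gg
  ring

theorem hs_congr_nat {f g : ℕ → ℂ} {a : ℂ} (h : ∀ i, f i = g i) :
    HasSum f a ↔ HasSum g a := by
  rw [funext h]

theorem gg_hasSum {τ : ℂ} (h : 0 < τ.im) :
    HasSum (fun n : ℤ => cexp (π * I * ((n : ℂ) ^ 2 + n) * τ)) (2 * gg τ) := by
  have e : 2 * gg τ = jacobiTheta₂ (τ / 2) τ := by unfold gg; ring
  rw [e]
  refine (hs_congr fun n => ?_).1 (hasSum_jacobiTheta₂_term (τ / 2) h)
  unfold jacobiTheta₂_term
  congr 1
  ring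

theorem gg_summable {τ : ℂ} (h : 0 < τ.im) :
    Summable (fun n : ℕ => cexp (π * I * ((n : ℂ) ^ 2 + n) * τ)) := by
  have := (gg_hasSum h).summable.comp_injective Nat.cast_injective
  refine this.congr fun n => ?_
  simp

theorem gg_tsum {τ : ℂ} (h : 0 < τ.im) :
    gg τ = ∑' n : ℕ, cexp (π * I * ((n : ℂ) ^ 2 + n) * τ) := by
  set f : ℤ → ℂ := fun n => cexp (π * I * ((n : ℂ) ^ 2 + n) * τ) with hf
  have h1 : HasSum f (2 * gg τ) := gg_hasSum h
  have h2 : HasSum (fun n : ℕ => f n) (∑' n : ℕ, cexp (π * I * ((n : ℂ) ^ 2 + n) * τ)) := by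
    refine (hs_congr_nat fun n => ?_).1 (gg_summable h).hasSum
    simp [hf]
  have h3 : HasSum (fun n : ℕ => f (-(n + 1))) (∑' n : ℕ, cexp (π * I * ((n : ℂ) ^ 2 + n) * τ)) := by
    refine (hs_congr_nat fun n => ?_).1 h2
    show cexp _ = cexp _
    congr 1
    push_cast
    ring
  have h4 := (HasSum.of_nat_of_neg_add_one h2 h3).unique h1
  have : 2 * gg τ = 2 * ∑' n : ℕ, cexp (π * I * ((n : ℂ) ^ 2 + n) * τ) := by rw [← h4]; ring
  exact mul_left_cancel₀ two_ne_zero this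

theorem norm_gg {τ : ℂ} (h : 0 < τ.im) :
    ‖gg τ - 1‖ ≤ (1 - rexp (-(2 * π) * τ.im))⁻¹ * rexp (-(2 * π) * τ.im) := by
  have h7 : gg τ - 1 = ∑' n : ℕ, cexp (π * I * (((n + 1 : ℕ) : ℂ) ^ 2 + ((n + 1 : ℕ) : ℂ)) * τ) := by
    rw [gg_tsum h, (gg_summable h).tsum_eq_zero_add]
    simp
  rw [h7]
  set r := rexp (-(2 * π) * τ.im) with hr
  have hr0 : 0 ≤ r := (Real.exp_pos _).le
  have hr1 : r < 1 := by
    rw [hr, Real.exp_lt_one_iff]
    have := mul_pos (mul_pos two_pos Real.pi_pos) h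
    linarith
  have h8 : HasSum (fun n : ℕ => r * r ^ n) (r * (1 - r)⁻¹) :=
    (hasSum_geometric_of_lt_one hr0 hr1).mul_left r
  refine (tsum_of_norm_bounded h8 fun n => ?_).trans (le_of_eq (mul_comm _ _))
  rw [Complex.norm_exp, ← pow_succ', hr, ← Real.exp_nat_mul, Real.exp_le_exp]
  have e : (π * I * (((n + 1 : ℕ) : ℂ) ^ 2 + ((n + 1 : ℕ) : ℂ)) * τ).re =
      -(π * (((n : ℝ) + 1) ^ 2 + ((n : ℝ) + 1)) * τ.im) := by
    have e1 : π * I * (((n + 1 : ℕ) : ℂ) ^ 2 + ((n + 1 : ℕ) : ℂ)) * τ =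
        ((π * (((n : ℝ) + 1) ^ 2 + ((n : ℝ) + 1)) : ℝ) : ℂ) * (I * τ) := by
      push_cast
      ring
    rw [e1, Complex.re_ofReal_mul]
    simp
  rw [e]
  push_cast
  have hn : (0 : ℝ) ≤ n := Nat.cast_nonneg n
  have hp : 0 ≤ π * τ.im := (mul_pos Real.pi_pos h).le
  nlinarith [mul_nonneg hp (mul_nonneg hn (by linarith : (0 : ℝ) ≤ n + 1))]

theorem tend_bound {F : ℂ → ℂ} {c : ℂ} {a b : ℝ} (ha : 0 < a)
    (h : ∀ τ : ℂ, 0 < τ.im → ‖F τ - c‖ ≤ b * ((1 - rexp (-a * τ.im))⁻¹ * rexp (-a * τ.im))) :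
    Tendsto F (comap Complex.im atTop) (𝓝 c) := by
  rw [tendsto_iff_norm_sub_tendsto_zero]
  have h1 : Tendsto (fun y : ℝ => rexp (-a * y)) atTop (𝓝 0) := by
    have : Tendsto (fun y : ℝ => -a * y) atTop atBot :=
      tendsto_id.const_mul_atTop_of_neg (neg_lt_zero.2 ha)
    exact Real.tendsto_exp_atBot.comp this
  have h2 : Tendsto (fun y : ℝ => b * ((1 - rexp (-a * y))⁻¹ * rexp (-a * y))) atTop (𝓝 0) := by
    have h3 : Tendsto (fun y : ℝ => (1 - rexp (-a * y))⁻¹) atTop (𝓝 (1 - 0)⁻¹) :=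
      (tendsto_const_nhds.sub h1).inv₀ (by norm_num)
    have h4 := (h3.mul h1).const_mul b
    simpa using h4
  have h3 := h2.comp (tendsto_comap (f := Complex.im) (x := atTop))
  refine squeeze_zero' (Eventually.of_forall fun _ => norm_nonneg _) ?_ h3
  have : ∀ᶠ τ : ℂ in comap Complex.im atTop, 0 < τ.im :=
    (tendsto_comap (f := Complex.im) (x := atTop)).eventually (eventually_gt_atTop 0)
  exact this.mono fun τ hτ => h τ hτ

theorem tend_th3 : Tendsto th3 (comap Complex.im atTop) (𝓝 1) := by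
  refine tend_bound (a := π) (b := 2) Real.pi_pos fun τ h => ?_
  have := norm_th3 h
  rw [div_eq_mul_inv, mul_assoc] at this
  exact this

theorem tend_th4 : Tendsto th4 (comap Complex.im atTop) (𝓝 1) := by
  refine tend_bound (a := π) (b := 2) Real.pi_pos fun τ h => ?_
  have := norm_th4 h
  rw [div_eq_mul_inv, mul_assoc] at this
  exact this

theorem tend_gg : Tendsto gg (comap Complex.im atTop) (𝓝 1) := by
  refine tend_bound (a := 2 * π) (b := 1) (by positivity) fun τ h => ?_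
  rw [one_mul]
  exact norm_gg h

theorem pow_im (τ : ℂ) (n : ℕ) : ((2 : ℂ) ^ n * τ).im = 2 ^ n * τ.im := by
  have : (2 : ℂ) ^ n = ((2 ^ n : ℝ) : ℂ) := by push_cast; rfl
  rw [this, Complex.im_ofReal_mul]

theorem tend_pow {τ : ℂ} (h : 0 < τ.im) :
    Tendsto (fun n : ℕ => (2 : ℂ) ^ n * τ) atTop (comap Complex.im atTop) := by
  rw [tendsto_comap_iff]
  have h1 : Tendsto (fun n : ℕ => (2 : ℝ) ^ n * τ.im) atTop atTop :=
    (tendsto_pow_atTop_atTop_of_one_lt one_lt_two).atTop_mul_const h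
  refine h1.congr fun n => ?_
  exact (pow_im τ n).symm

/-! ### no zeros -/

theorem th4_ne {τ : ℂ} (h : 0 < τ.im) : th4 τ ≠ 0 := by
  intro h0
  have key : ∀ n : ℕ, th4 ((2 : ℂ) ^ n * τ) = 0 := by
    intro n
    induction n with
    | zero => simpa using h0
    | succ n ih =>
      have him : 0 < ((2 : ℂ) ^ n * τ).im := by rw [pow_im]; positivity
      have h1 := agm3 him
      rw [ih, mul_zero] at h1
      have e : (2 : ℂ) ^ (n + 1) * τ = 2 * ((2 : ℂ) ^ n * τ) := by ring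
      rw [e]
      exact pow_eq_zero_iff two_ne_zero |>.1 h1.symm
  have h1 := tend_th4.comp (tend_pow h)
  have h2 : Tendsto (th4 ∘ fun n : ℕ => (2 : ℂ) ^ n * τ) atTop (𝓝 0) := by
    refine tendsto_const_nhds.congr fun n => ?_
    exact (key n).symm
  exact zero_ne_one (tendsto_nhds_unique h2 h1)

theorem th3_ne {τ : ℂ} (h : 0 < τ.im) : th3 τ ≠ 0 := by
  intro h0
  have h1 := agm3 h
  rw [h0, zero_mul] at h1
  exact th4_ne (two_im h) (pow_eq_zero_iff two_ne_zero |>.1 h1.symm)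

theorem th2_ne {τ : ℂ} (h : 0 < τ.im) : th2 τ ≠ 0 := by
  intro h0
  have h1 := th4_S4 h
  rw [h0] at h1
  exact th4_ne (neg_inv_im h) (by
    have : th4 (-1 / τ) ^ 4 = 0 := by rw [h1]; ring
    exact pow_eq_zero_iff (by norm_num) |>.1 this)

/-! ### differentiability -/

theorem diff_th3 {τ : ℂ} (h : 0 < τ.im) : DifferentiableAt ℂ th3 τ :=
  differentiableAt_jacobiTheta₂_snd 0 h

theorem diff_th4 {τ : ℂ} (h : 0 < τ.im) : DifferentiableAt ℂ th4 τ :=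
  differentiableAt_jacobiTheta₂_snd (1 / 2) h

theorem diff_gg {τ : ℂ} (h : 0 < τ.im) : DifferentiableAt ℂ gg τ := by
  have h1 : DifferentiableAt ℂ (fun p : ℂ × ℂ => jacobiTheta₂ p.1 p.2) (τ / 2, τ) :=
    (hasFDerivAt_jacobiTheta₂ (τ / 2) h).differentiableAt
  have h2 : DifferentiableAt ℂ (fun t : ℂ => ((t / 2, t) : ℂ × ℂ)) τ :=
    (differentiableAt_id.div_const 2).prodMk differentiableAt_id
  have h3 : DifferentiableAt ℂ
      ((fun p : ℂ × ℂ => jacobiTheta₂ p.1 p.2) ∘ (fun t : ℂ => ((t / 2, t) : ℂ × ℂ))) τ :=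
    DifferentiableAt.comp (f := fun t : ℂ => ((t / 2, t) : ℂ × ℂ)) τ h1 h2
  exact h3.div_const 2

theorem diff_th2 {τ : ℂ} (h : 0 < τ.im) : DifferentiableAt ℂ th2 τ := by
  have h1 : DifferentiableAt ℂ (fun t : ℂ => 2 * cexp (π * I * t / 4) * gg t) τ := by
    have h2 : DifferentiableAt ℂ (fun t : ℂ => 2 * cexp (π * I * t / 4)) τ := by fun_prop
    exact h2.mul (diff_gg h)
  have e : th2 = fun t : ℂ => 2 * cexp (π * I * t / 4) * gg t := funext th2_gg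
  rw [e]
  exact h1

end Pool.Agent.Helper84.Lam
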