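import Pool.Agent.Helper84.Lam.Height

/-!
# The cusps of `λ`
-/

set_option autoImplicit false

namespace Pool.Agent.Helper84.Lam

open Complex Real Filter Topology UpperHalfPlane ModularGroup MatrixGroups

theorem lam_S (v : ℍ) : lam ((ModularGroup.S • v : ℍ) : ℂ) = 1 - lam v := by
  rw [coe_S]
  exact lam_neg_inv v.im_pos

theorem lam_T (v : ℍ) : lam ((ModularGroup.T • v : ℍ) : ℂ) = lam v / (lam v - 1) := by
  rw [coe_T]
  exact lam_add_one v.im_pos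

theorem lam_S_inv (v : ℍ) : lam ((ModularGroup.S⁻¹ • v : ℍ) : ℂ) = 1 - lam v := by
  have h := lam_S (ModularGroup.S⁻¹ • v)
  rw [smul_inv_smul] at h
  rw [h]
  ring

theorem lam_T_inv (v : ℍ) : lam ((ModularGroup.T⁻¹ • v : ℍ) : ℂ) = lam v / (lam v - 1) := by
  have h := lam_T (ModularGroup.T⁻¹ • v)
  rw [smul_inv_smul] at h
  have h1 : lam ((ModularGroup.T⁻¹ • v : ℍ) : ℂ) - 1 ≠ 0 :=
    sub_ne_zero.2 (lam_ne_one (ModularGroup.T⁻¹ • v).im_pos)
  rw [h]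
  field_simp
  ring_nf

/-- the six anharmonic values -/
def Anh (x y : ℂ) : ℕ → Prop
  | 0 => y = x
  | 1 => y = 1 - x
  | 2 => y = 1 / x
  | 3 => y = 1 / (1 - x)
  | 4 => y = x / (x - 1)
  | 5 => y = (x - 1) / x
  | _ => False

def kS : ℕ → ℕ
  | 0 => 1 | 1 => 0 | 2 => 5 | 3 => 4 | 4 => 3 | 5 => 2 | n => n

def kT : ℕ → ℕ
  | 0 => 4 | 1 => 5 | 2 => 3 | 3 => 2 | 4 => 0 | 5 => 1 | n => n

theorem anh_S {x y : ℂ} (hx : x ≠ 0) (hx1 : x ≠ 1) {k : ℕ} (h : Anh x y k) :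
    Anh x (1 - y) (kS k) := by
  have h1 : x - 1 ≠ 0 := sub_ne_zero.2 hx1
  have h2 : 1 - x ≠ 0 := sub_ne_zero.2 hx1.symm
  match k, h with
  | 0, h => simp only [Anh, kS] at h ⊢; rw [h]
  | 1, h => simp only [Anh, kS] at h ⊢; rw [h]; ring
  | 2, h => simp only [Anh, kS] at h ⊢; rw [h]; field_simp
  | 3, h => simp only [Anh, kS] at h ⊢; rw [h]; field_simp; ring
  | 4, h => simp only [Anh, kS] at h ⊢; rw [h]; field_simp; ring
  | 5, h => simp only [Anh, kS] at h ⊢; rw [h]; field_simp; ring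

theorem anh_T {x y : ℂ} (hx : x ≠ 0) (hx1 : x ≠ 1) {k : ℕ} (h : Anh x y k) :
    Anh x (y / (y - 1)) (kT k) := by
  have h1 : x - 1 ≠ 0 := sub_ne_zero.2 hx1
  have h2 : 1 - x ≠ 0 := sub_ne_zero.2 hx1.symm
  match k, h with
  | 0, h => simp only [Anh, kT] at h ⊢; rw [h]
  | 1, h =>
    simp only [Anh, kT] at h ⊢
    have e : y - 1 = -x := by rw [h]; ring
    rw [e, h]; field_simp; ring
  | 2, h =>
    simp only [Anh, kT] at h ⊢
    have e : y - 1 = (1 - x) / x := by rw [h]; field_simp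
    rw [e, h]; field_simp
  | 3, h =>
    simp only [Anh, kT] at h ⊢
    have e : y - 1 = x / (1 - x) := by rw [h]; field_simp; ring
    rw [e, h]; field_simp
  | 4, h =>
    simp only [Anh, kT] at h ⊢
    have e : y - 1 = 1 / (x - 1) := by rw [h]; field_simp; ring
    rw [e, h]; field_simp
  | 5, h =>
    simp only [Anh, kT] at h ⊢
    have e : y - 1 = -1 / x := by rw [h]; field_simp; ring
    rw [e, h]; field_simp; ring

theorem anh (g : SL(2, ℤ)) :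
    ∃ k : ℕ, ∀ v : ℍ, Anh (lam v) (lam ((g • v : ℍ) : ℂ)) k := by
  have hg : g ∈ Subgroup.closure {ModularGroup.S, ModularGroup.T} := by
    simp [SpecialLinearGroup.SL2Z_generators]
  induction hg using Subgroup.closure_induction_left with
  | one => exact ⟨0, fun v => by simp [Anh]⟩
  | mul_left x hx y _ ih =>
    obtain ⟨k, hk⟩ := ih
    rcases hx with rfl | rfl
    · refine ⟨kS k, fun v => ?_⟩
      rw [mul_smul, lam_S]
      exact anh_S (lam_ne_zero v.im_pos) (lam_ne_one v.im_pos) (hk v)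
    · refine ⟨kT k, fun v => ?_⟩
      rw [mul_smul, lam_T]
      exact anh_T (lam_ne_zero v.im_pos) (lam_ne_one v.im_pos) (hk v)
  | inv_mul_cancel x hx y _ ih =>
    obtain ⟨k, hk⟩ := ih
    rcases hx with rfl | rfl
    · refine ⟨kS k, fun v => ?_⟩
      rw [mul_smul, lam_S_inv]
      exact anh_S (lam_ne_zero v.im_pos) (lam_ne_one v.im_pos) (hk v)
    · refine ⟨kT k, fun v => ?_⟩
      rw [mul_smul, lam_T_inv]
      exact anh_T (lam_ne_zero v.im_pos) (lam_ne_one v.im_pos) (hk v)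

/-! ### bounds in the fundamental domain -/

theorem norm_lam_eq {u : ℂ} (h : 0 < u.im) :
    ‖lam u‖ = 16 * rexp (-π * u.im) * ‖gg u‖ ^ 4 / ‖th3 u‖ ^ 4 := by
  unfold lam
  rw [norm_div, norm_pow, norm_pow, norm_th2]

theorem lam_fd_le {u : ℂ} (h : 0.86 ≤ u.im) : ‖lam u‖ ≤ 3 := by
  have hp : 0 < u.im := by linarith
  obtain ⟨a1, a2⟩ := fd3 h
  obtain ⟨c1, c2⟩ := fdg h
  have a := (pow4_bd (by norm_num) a1 a2).1
  have c := (pow4_bd (by norm_num) c1 c2).2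
  have d := exp_small h
  norm_num at a c
  rw [norm_lam_eq hp, div_le_iff₀ (n3 hp)]
  have : 0 ≤ ‖gg u‖ ^ 4 := by positivity
  have e := Real.exp_pos (-π * u.im)
  nlinarith

theorem lam_fd_ge {u : ℂ} (h : 0.86 ≤ u.im) : rexp (-π * u.im) ≤ ‖lam u‖ := by
  have hp : 0 < u.im := by linarith
  obtain ⟨a1, a2⟩ := fd3 h
  obtain ⟨c1, c2⟩ := fdg h
  have a := (pow4_bd (by norm_num) a1 a2).2
  have c := (pow4_bd (by norm_num) c1 c2).1
  norm_num at a c
  rw [norm_lam_eq hp, le_div_iff₀ (n3 hp)]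
  have e := Real.exp_pos (-π * u.im)
  nlinarith

theorem lam_fd_le' {u : ℂ} (h : 0.86 ≤ u.im) : ‖lam u‖ ≤ 33 * rexp (-π * u.im) := by
  have hp : 0 < u.im := by linarith
  obtain ⟨a1, a2⟩ := fd3 h
  obtain ⟨c1, c2⟩ := fdg h
  have a := (pow4_bd (by norm_num) a1 a2).1
  have c := (pow4_bd (by norm_num) c1 c2).2
  norm_num at a c
  rw [norm_lam_eq hp, div_le_iff₀ (n3 hp)]
  have e := Real.exp_pos (-π * u.im)
  nlinarith

theorem one_sub_lam_fd {u : ℂ} (h : 0.86 ≤ u.im) : 0.2 ≤ ‖1 - lam u‖ ∧ ‖1 - lam u‖ ≤ 4 := by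
  have hp : 0 < u.im := by linarith
  obtain ⟨a1, a2⟩ := fd3 h
  obtain ⟨b1, b2⟩ := fd4 h
  obtain ⟨a3, a4⟩ := pow4_bd (by norm_num) a1 a2
  obtain ⟨b3, b4⟩ := pow4_bd (by norm_num) b1 b2
  norm_num at a3 a4 b3 b4
  rw [one_sub_lam hp, norm_div, norm_pow, norm_pow, le_div_iff₀ (n3 hp), div_le_iff₀ (n3 hp)]
  constructor <;> nlinarith

/-- **The cusp at `λ = 0`.** -/
theorem cusp_zero (u : ℍ) (h : ‖lam u‖ ≤ 1 / 10) :
    ∃ g : SL(2, ℤ), (∀ v : ℍ, lam ((g • v : ℍ) : ℂ) = lam v) ∧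
      0.86 ≤ ((g • u : ℍ) : ℂ).im ∧
      -Real.log ‖lam u‖ ≤ π * ((g • u : ℍ) : ℂ).im := by
  obtain ⟨g, hg⟩ := ModularGroup.exists_smul_mem_fd u
  have him := fd_im hg
  have l1 := lam_fd_le him
  obtain ⟨l2, l3⟩ := one_sub_lam_fd him
  obtain ⟨k, hk⟩ := anh g
  have hx0 : lam (u : ℂ) ≠ 0 := lam_ne_zero u.im_pos
  have hx1 : lam (u : ℂ) ≠ 1 := lam_ne_one u.im_pos
  have hp : 0 < ‖lam (u : ℂ)‖ := norm_pos_iff.2 hx0
  have n1 : 1 - ‖lam (u : ℂ)‖ ≤ ‖1 - lam (u : ℂ)‖ := by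
    have := norm_sub_norm_le (1 : ℂ) (lam (u : ℂ))
    rwa [norm_one] at this
  have fin : ∀ w : ℍ, 0.86 ≤ (w : ℂ).im → lam (w : ℂ) = lam (u : ℂ) →
      -Real.log ‖lam u‖ ≤ π * (w : ℂ).im := by
    intro w hw he
    have h1 := lam_fd_ge hw
    rw [he] at h1
    have h2 := (Real.le_log_iff_exp_le hp).2 h1
    linarith
  have hku := hk u
  match k, hk, hku with
  | 0, hk, hku =>
    exact ⟨g, fun v => hk v, him, fin _ him hku⟩
  | 1, hk, hku =>
    exfalso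
    simp only [Anh] at hku
    have e : 1 - lam ((g • u : ℍ) : ℂ) = lam u := by rw [hku]; ring
    rw [e] at l2
    linarith
  | 2, hk, hku =>
    exfalso
    simp only [Anh] at hku
    rw [hku, norm_div, norm_one, div_le_iff₀ hp] at l1
    linarith
  | 3, hk, hku =>
    exfalso
    simp only [Anh] at hku
    have h1 : 1 - lam (u : ℂ) ≠ 0 := sub_ne_zero.2 hx1.symm
    have e : 1 - lam ((g • u : ℍ) : ℂ) = -lam u / (1 - lam u) := by
      rw [hku]
      field_simp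
      ring
    rw [e, norm_div, norm_neg, le_div_iff₀ (norm_pos_iff.2 h1)] at l2
    linarith
  | 4, hk, hku =>
    have hz : ∀ v : ℍ, lam ((ModularGroup.T • g • v : ℍ) : ℂ) = lam v := by
      intro v
      have h1 : lam (v : ℂ) - 1 ≠ 0 := sub_ne_zero.2 (lam_ne_one v.im_pos)
      have h2 := hk v
      simp only [Anh] at h2
      have e : lam ((g • v : ℍ) : ℂ) - 1 = 1 / (lam v - 1) := by
        rw [h2]
        field_simp
        ring
      rw [lam_T, e, h2]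
      field_simp
    have him2 : 0.86 ≤ ((ModularGroup.T • g • u : ℍ) : ℂ).im := by
      rw [coe_T]
      simpa using him
    refine ⟨ModularGroup.T * g, fun v => ?_, ?_, ?_⟩
    · rw [mul_smul]
      exact hz v
    · rw [mul_smul]
      exact him2
    · rw [mul_smul]
      exact fin _ him2 (hz u)
  | 5, hk, hku =>
    exfalso
    simp only [Anh] at hku
    rw [hku, norm_div, div_le_iff₀ hp, norm_sub_rev] at l1
    linarith

/-- **The cusp at `λ = 1`.** -/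
theorem cusp_one (u : ℍ) (h : ‖1 - lam u‖ ≤ 1 / 10) :
    ∃ g : SL(2, ℤ), (∀ v : ℍ, lam ((g • v : ℍ) : ℂ) = 1 - lam v) ∧
      0.86 ≤ ((g • u : ℍ) : ℂ).im ∧
      -Real.log ‖1 - lam u‖ ≤ π * ((g • u : ℍ) : ℂ).im := by
  have h1 : ‖lam ((ModularGroup.S • u : ℍ) : ℂ)‖ ≤ 1 / 10 := by rw [lam_S]; exact h
  obtain ⟨g, g1, g2, g3⟩ := cusp_zero _ h1
  refine ⟨g * ModularGroup.S, fun v => ?_, ?_, ?_⟩
  · rw [mul_smul, g1, lam_S]
  · rw [mul_smul]
    exact g2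
  · rw [mul_smul, ← lam_S]
    exact g3

/-- `λ(TST v) = 1/λ(v)` -/
theorem lam_TST (v : ℍ) :
    lam ((ModularGroup.T • ModularGroup.S • ModularGroup.T • v : ℍ) : ℂ) = (lam v)⁻¹ := by
  have h0 : lam (v : ℂ) ≠ 0 := lam_ne_zero v.im_pos
  have h1 : lam (v : ℂ) - 1 ≠ 0 := sub_ne_zero.2 (lam_ne_one v.im_pos)
  rw [lam_T, lam_S, lam_T]
  have e1 : 1 - lam (v : ℂ) / (lam v - 1) = -1 / (lam v - 1) := by
    field_simp
    ring
  have e2 : -1 / (lam (v : ℂ) - 1) - 1 = -lam v / (lam v - 1) := by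
    field_simp
    ring
  rw [e1, e2]
  field_simp

/-- **The cusp at `λ = ∞`.** -/
theorem cusp_infty (u : ℍ) (h : 10 ≤ ‖lam u‖) :
    ∃ g : SL(2, ℤ), (∀ v : ℍ, lam ((g • v : ℍ) : ℂ) = (lam v)⁻¹) ∧
      0.86 ≤ ((g • u : ℍ) : ℂ).im ∧
      Real.log ‖lam u‖ ≤ π * ((g • u : ℍ) : ℂ).im := by
  have h1 : ‖lam ((ModularGroup.T • ModularGroup.S • ModularGroup.T • u : ℍ) : ℂ)‖ ≤ 1 / 10 := by
    rw [lam_TST, norm_inv, inv_le_comm₀ (by linarith) (by norm_num)]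
    norm_num
    exact h
  obtain ⟨g, g1, g2, g3⟩ := cusp_zero _ h1
  refine ⟨g * (ModularGroup.T * (ModularGroup.S * ModularGroup.T)), fun v => ?_, ?_, ?_⟩
  · rw [mul_smul, mul_smul, mul_smul, g1, lam_TST]
  · rw [mul_smul, mul_smul, mul_smul]
    exact g2
  · rw [mul_smul, mul_smul, mul_smul]
    rw [lam_TST, norm_inv, Real.log_inv, neg_neg] at g3
    exact g3

end Pool.Agent.Helper84.Lam
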