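import Pool.Agent.Helper84.Lam.Facts

/-!
# (L5): the cusps in the coordinate centred at a point (MP_78803a, Part 0)
-/

set_option autoImplicit false

namespace Pool.Agent.Helper84.Lam

open Complex Real Filter Topology ComplexConjugate MatrixGroups

/-! ### bounds for `MM` -/

theorem geo {r : ℝ} (h0 : 0 ≤ r) (h1 : r < 1) (k : ℕ) :
    HasSum (fun n : ℕ => r ^ (n + k)) (r ^ k / (1 - r)) := by
  have := (hasSum_geometric_of_lt_one h0 h1).mul_left (r ^ k)
  rw [← div_eq_mul_inv] at this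
  refine this.congr_fun ?_ |> fun h => h
  intro n
  rw [pow_add, mul_comm]

theorem P3_sub_one {q : ℂ} (h : ‖q‖ < 1) : ‖P3 q - 1‖ ≤ 2 * (‖q‖ / (1 - ‖q‖)) := by
  have h0 := norm_nonneg q
  have e : P3 q - 1 = 2 * gap (fun n => (n + 1) ^ 2) q := by
    unfold P3
    ring
  rw [e, norm_mul]
  have h2 : ‖(2 : ℂ)‖ = 2 := by norm_num
  rw [h2]
  refine mul_le_mul_of_nonneg_left ?_ (by norm_num)
  have h3 := geo h0 h 1
  rw [pow_one] at h3
  unfold gap
  refine tsum_of_norm_bounded h3 fun n => ?_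
  rw [norm_pow]
  exact pow_le_pow_of_le_one h0 h.le (by nlinarith)

theorem P2_sub_one {q : ℂ} (h : ‖q‖ < 1) : ‖P2 q - 1‖ ≤ ‖q‖ ^ 2 / (1 - ‖q‖) := by
  have h0 := norm_nonneg q
  have hs : Summable (fun n : ℕ => q ^ (n * (n + 1))) := by
    refine Summable.of_norm_bounded (summable_geometric_of_lt_one h0 h) fun n => ?_
    rw [norm_pow]
    exact pow_le_pow_of_le_one h0 h.le (by nlinarith)
  have e : P2 q - 1 = ∑' n : ℕ, q ^ ((n + 1) * (n + 1 + 1)) := by
    unfold P2 gap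
    rw [hs.tsum_eq_zero_add]
    simp
  rw [e]
  refine tsum_of_norm_bounded (geo h0 h 2) fun n => ?_
  rw [norm_pow]
  exact pow_le_pow_of_le_one h0 h.le (by nlinarith)

theorem deriv_small {F : ℂ → ℂ} (hF : ∀ q : ℂ, ‖q‖ < 1 → DifferentiableAt ℂ F q) {C : ℝ}
    (hC : ∀ q : ℂ, ‖q‖ ≤ 1 / 10 → ‖F q - 1‖ ≤ C) {q : ℂ} (hq : ‖q‖ ≤ 1 / 100) :
    ‖deriv F q‖ ≤ C / 0.09 := by
  have r0 : (0 : ℝ) < 0.09 := by norm_num
  have hin : ∀ z : ℂ, dist z q ≤ 0.09 → ‖z‖ ≤ 1 / 10 := by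
    intro z hz
    rw [dist_eq_norm] at hz
    have : z = (z - q) + q := by ring
    rw [this]
    refine (norm_add_le _ _).trans ?_
    norm_num at hz ⊢
    linarith
  have hd : DiffContOnCl ℂ (fun z => F z - 1) (Metric.ball q 0.09) := by
    refine DifferentiableOn.diffContOnCl fun z hz => ?_
    rw [closure_ball q r0.ne', Metric.mem_closedBall] at hz
    exact ((hF z (lt_of_le_of_lt (hin z hz) (by norm_num))).sub_const 1).differentiableWithinAt
  have h5 := Complex.norm_deriv_le_of_forall_mem_sphere_norm_le (C := C) r0 hd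
    (fun z hz => hC z (hin z (le_of_eq hz)))
  rwa [deriv_sub_const] at h5

theorem abs_log_near {x e : ℝ} (he : e ≤ 1 / 10) (h : |x - 1| ≤ e) : |Real.log x| ≤ 1.2 * e := by
  have he0 : 0 ≤ e := (abs_nonneg _).trans h
  rw [abs_le] at h
  have hx : 0 < x := by linarith [h.1]
  rw [abs_le]
  constructor
  · have h3 := Real.one_sub_inv_le_log_of_pos hx
    have h4 : x⁻¹ ≤ 1 + 1.2 * e := by
      rw [inv_le_comm₀ hx (by positivity)]
      refine le_trans ?_ (by linarith [h.1] : 1 - e ≤ x)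
      rw [inv_le_iff_one_le_mul₀ (by positivity)]
      nlinarith
    linarith
  · have h3 := Real.log_le_sub_one_of_pos hx
    linarith [h.2]

/-- `|log |MM(q)|| ≤ 20 |q|` and `|q MM'(q)/MM(q)| ≤ 20 |q|` for `|q| ≤ 1/100` -/
theorem MM_bounds {q : ℂ} (hq : ‖q‖ ≤ 1 / 100) :
    |Real.log ‖MM q‖| ≤ 20 * ‖q‖ ∧ ‖q * deriv MM q / MM q‖ ≤ 20 * ‖q‖ := by
  have hq1 : ‖q‖ < 1 := by linarith
  have h0 := norm_nonneg q
  have a3 := P3_sub_one hq1
  have a2 := P2_sub_one hq1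
  have b3 : ‖q‖ / (1 - ‖q‖) ≤ 1.02 * ‖q‖ := by
    rw [div_le_iff₀ (by linarith)]
    nlinarith
  have b2 : ‖q‖ ^ 2 / (1 - ‖q‖) ≤ 0.011 * ‖q‖ := by
    rw [div_le_iff₀ (by linarith)]
    nlinarith
  have c3 : ‖P3 q - 1‖ ≤ 2.04 * ‖q‖ := by linarith
  have c2 : ‖P2 q - 1‖ ≤ 0.011 * ‖q‖ := by linarith
  have d3 : |‖P3 q‖ - 1| ≤ 2.04 * ‖q‖ := by
    have := abs_norm_sub_norm_le (P3 q) 1
    rw [norm_one] at this
    exact this.trans c3
  have d2 : |‖P2 q‖ - 1| ≤ 0.011 * ‖q‖ := by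
    have := abs_norm_sub_norm_le (P2 q) 1
    rw [norm_one] at this
    exact this.trans c2
  have n3' := P3_ne hq1
  have n2' := P2_ne hq1
  constructor
  · unfold MM
    rw [norm_div, norm_pow, norm_pow, Real.log_div (pow_ne_zero 4 (norm_ne_zero_iff.2 n2'))
      (pow_ne_zero 4 (norm_ne_zero_iff.2 n3')), Real.log_pow, Real.log_pow]
    have e3 := abs_log_near (by linarith) d3
    have e2 := abs_log_near (by linarith) d2
    rw [abs_le] at e3 e2 ⊢
    push_cast
    constructor <;> linarith [e3.1, e3.2, e2.1, e2.2]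
  · have f3 := deriv_small (fun q h => diff_P3 h) (C := 0.2223) (fun q hq => by
      have h1 := P3_sub_one (q := q) (by linarith)
      refine h1.trans ?_
      have h2 : ‖q‖ / (1 - ‖q‖) ≤ 0.11115 := by
        rw [div_le_iff₀ (by linarith)]
        linarith
      linarith) hq
    have f2 := deriv_small (fun q h => diff_P2 h) (C := 0.0112) (fun q hq => by
      have h1 := P2_sub_one (q := q) (by linarith)
      refine h1.trans ?_
      rw [div_le_iff₀ (by linarith)]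
      have := norm_nonneg q
      nlinarith) hq
    have g : deriv MM q / MM q = 4 * (deriv P2 q / P2 q) - 4 * (deriv P3 q / P3 q) := by
      have h1 := ((diff_P2 hq1).hasDerivAt.pow 4).div ((diff_P3 hq1).hasDerivAt.pow 4)
        (pow_ne_zero 4 n3')
      have h2 : deriv MM q = _ := h1.deriv
      rw [h2]
      unfold MM
      simp only [Pi.pow_apply]
      field_simp
      norm_num
      ring
    rw [mul_div_assoc, norm_mul, mul_comm, g]
    refine mul_le_mul_of_nonneg_right ?_ h0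
    refine (norm_sub_le _ _).trans ?_
    rw [norm_mul, norm_mul, norm_div, norm_div]
    have h4 : ‖(4 : ℂ)‖ = 4 := by norm_num
    rw [h4]
    have k3 : 0.9 ≤ ‖P3 q‖ := by
      rw [abs_le] at d3
      linarith [d3.1]
    have k2 : 0.9 ≤ ‖P2 q‖ := by
      rw [abs_le] at d2
      linarith [d2.1]
    have l3 : ‖deriv P3 q‖ / ‖P3 q‖ ≤ 3 := by
      rw [div_le_iff₀ (by linarith)]
      norm_num at f3
      linarith
    have l2 : ‖deriv P2 q‖ / ‖P2 q‖ ≤ 1 := by
      rw [div_le_iff₀ (by linarith)]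
      norm_num at f2
      linarith
    linarith

/-! ### the cusp in the coordinate centred at `B` -/

/-- `T(b) = x + i h (1 + s d)/(1 - s d)`, `d = (b - B)/(1 - conj B b)` -/
noncomputable def Tm (x h : ℝ) (s B b : ℂ) : ℂ :=
  x + I * h * ((1 + s * ((b - B) / (1 - conj B * b))) / (1 - s * ((b - B) / (1 - conj B * b))))

theorem norm_dd {B b : ℂ} (hB : ‖B‖ < 1) (hb : ‖b‖ < 1) : ‖(b - B) / (1 - conj B * b)‖ < 1 := by
  have h1 := one_sub_conj_ne hB hb
  rw [norm_div, div_lt_one (norm_pos_iff.2 h1)]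
  have h2 := norm_one_sub_conj B b
  have nB := norm_nonneg B
  have nb := norm_nonneg b
  have h3 : 0 < (1 - ‖B‖ ^ 2) * (1 - ‖b‖ ^ 2) := mul_pos (by nlinarith) (by nlinarith)
  have h4 : ‖b - B‖ ^ 2 < ‖1 - conj B * b‖ ^ 2 := by
    rw [norm_sub_rev]
    linarith
  exact lt_of_pow_lt_pow_left₀ 2 (norm_nonneg _) h4

theorem tau_Tm (g : SL(2, ℤ)) {B b : ℂ} (hB : ‖B‖ < 1) (hb : ‖b‖ < 1) :
    tau g b = Tm (tau g B).re (tau g B).im (kap g B) B b := by
  have h1 := norm_dd hB hb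
  have h2 := tau_mobius g hB h1
  have h3 : (B + (b - B) / (1 - conj B * b)) / (1 + conj B * ((b - B) / (1 - conj B * b))) = b :=
    mob_sub hB hb
  rw [h3] at h2
  rw [h2]
  unfold Tm
  set d := (b - B) / (1 - conj B * b) with hd
  have h4 : 1 - kap g B * d ≠ 0 := by
    refine one_sub_ne ?_
    rw [norm_mul, norm_kap g hB, one_mul]
    exact h1
  have e1 : tau g B = ((tau g B).re : ℂ) + (tau g B).im * I := (Complex.re_add_im _).symm
  have e2 : conj (tau g B) = ((tau g B).re : ℂ) - (tau g B).im * I := by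
    apply Complex.ext <;> simp
  rw [e2]
  nth_rewrite 1 [e1]
  field_simp
  ring

theorem kap_eps {B : ℂ} {Z : ℂ → ℂ} {g : SL(2, ℤ)} (hB : ‖B‖ < 1)
    (hZ : ∀ v : ℂ, ‖v‖ < 1 → Z v = (16 * cexp (π * I * tau g v) * MM (cexp (π * I * tau g v)))⁻¹)
    (hh : rexp (-(π * (tau g B).im)) ≤ 1 / 100) :
    ∃ ε : ℂ, ‖ε‖ ≤ 20 * rexp (-(π * (tau g B).im)) ∧
      ((1 - ‖B‖ ^ 2 : ℝ) : ℂ) * deriv Z B / Z B = 2 * π * (tau g B).im * kap g B * (1 + ε) := by
  set q := cexp (π * I * tau g B) with hq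
  have hqn : ‖q‖ = rexp (-(π * (tau g B).im)) := by
    rw [hq, Complex.norm_exp]
    congr 1
    simp
  have hq1 : ‖q‖ ≤ 1 / 100 := by rw [hqn]; exact hh
  have hq2 : ‖q‖ < 1 := by linarith
  have hb := (MM_bounds hq1).2
  refine ⟨q * deriv MM q / MM q, by rw [hqn] at hb; exact hb, ?_⟩
  have hq0 : q ≠ 0 := Complex.exp_ne_zero _
  have hM0 : MM q ≠ 0 := MM_ne hq2
  have d1 : HasDerivAt (fun v => cexp (π * I * tau g v)) (q * (π * I * deriv (tau g) B)) B := by
    have h1 := (hasDerivAt_tau g hB).differentiableAt.hasDerivAt.const_mul (π * I : ℂ)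
    exact h1.cexp
  have d2' : HasDerivAt (MM ∘ fun v => cexp (π * I * tau g v))
      (deriv MM q * (q * (π * I * deriv (tau g) B))) B :=
    HasDerivAt.comp B (diff_MM hq2).hasDerivAt d1
  have d2 : HasDerivAt (fun v => MM (cexp (π * I * tau g v)))
      (deriv MM q * (q * (π * I * deriv (tau g) B))) B := d2'
  have d3 : HasDerivAt (fun v => (16 * cexp (π * I * tau g v) * MM (cexp (π * I * tau g v)))⁻¹)
      (-(16 * (q * (π * I * deriv (tau g) B)) * MM (cexp (π * I * tau g B)) +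
      16 * cexp (π * I * tau g B) * (deriv MM q * (q * (π * I * deriv (tau g) B)))) /
      (16 * cexp (π * I * tau g B) * MM (cexp (π * I * tau g B))) ^ 2) B :=
    ((d1.const_mul 16).mul d2).inv (mul_ne_zero (mul_ne_zero (by norm_num) hq0) hM0)
  have d4 : HasDerivAt Z (-(16 * (q * (π * I * deriv (tau g) B)) * MM (cexp (π * I * tau g B)) +
      16 * cexp (π * I * tau g B) * (deriv MM q * (q * (π * I * deriv (tau g) B)))) /
      (16 * cexp (π * I * tau g B) * MM (cexp (π * I * tau g B))) ^ 2) B := by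
    refine d3.congr_of_eventuallyEq ?_
    filter_upwards [Metric.isOpen_ball.mem_nhds (ball_norm.2 hB)] with v hv
    exact hZ v (ball_norm.1 hv)
  have d5 := deriv_tau_eq g hB
  rw [d4.deriv, hZ B hB]
  have e : ((1 - ‖B‖ ^ 2 : ℝ) : ℂ) * (-(16 * (q * (π * I * deriv (tau g) B)) * MM (cexp (π * I * tau g B)) +
      16 * cexp (π * I * tau g B) * (deriv MM q * (q * (π * I * deriv (tau g) B)))) /
      (16 * cexp (π * I * tau g B) * MM (cexp (π * I * tau g B))) ^ 2) /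
      (16 * cexp (π * I * tau g B) * MM (cexp (π * I * tau g B)))⁻¹ =
      -(π * I) * (deriv (tau g) B * ((1 - ‖B‖ ^ 2 : ℝ) : ℂ)) * (1 + q * deriv MM q / MM q) := by
    rw [← hq]
    field_simp
  refine e.trans ?_
  rw [d5]
  linear_combination (-2 * π * (tau g B).im * kap g B * (1 + q * deriv MM q / MM q)) * I_sq

/-- **(L5)** -/
theorem L5 {Z : ℂ → ℂ} (hZ : Z = lamD ∨ Z = (fun w => (1 - lamD w)⁻¹) ∨ Z = (fun w => (lamD w)⁻¹))
    {B : ℂ} (hB : ‖B‖ < 1) (h10 : rexp 10 ≤ ‖Z B‖) :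
    ∃ (x h : ℝ) (s : ℂ), 10 / π ≤ h ∧ ‖s‖ = 1 ∧ Real.log ‖Z B‖ ≤ π * h ∧
      (∀ b : ℂ, ‖b‖ < 1 → 0 < (Tm x h s B b).im ∧
        Z b = (16 * cexp (π * I * Tm x h s B b) * MM (cexp (π * I * Tm x h s B b)))⁻¹) ∧
      (∀ b : ℂ, ‖b‖ < 1 → 2 ≤ (Tm x h s B b).im →
        |Real.log ‖Z b‖ - π * (Tm x h s B b).im + Real.log 16| ≤ 20 * rexp (-(π * (Tm x h s B b).im))) ∧
      ∃ ε : ℂ, ‖ε‖ ≤ 20 * rexp (-(π * h)) ∧
        ((1 - ‖B‖ ^ 2 : ℝ) : ℂ) * deriv Z B / Z B = 2 * π * h * s * (1 + ε) := by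
  have hbig : (10 : ℝ) ≤ rexp 10 := by linarith [Real.add_one_le_exp (10 : ℝ)]
  have key : ∃ g : SL(2, ℤ), (∀ v : ℂ, ‖v‖ < 1 → Z v =
      (16 * cexp (π * I * tau g v) * MM (cexp (π * I * tau g v)))⁻¹) ∧
      Real.log ‖Z B‖ ≤ π * (tau g B).im := by
    rcases hZ with rfl | rfl | rfl
    · obtain ⟨g, g1, _, g3⟩ := cuspD_infty hB (hbig.trans h10)
      refine ⟨g, fun v hv => ?_, g3⟩
      rw [← g1 v hv, inv_inv]
    · have h1 : ‖1 - lamD B‖ ≤ 1 / 10 := by
        have h2 := hbig.trans h10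
        rw [norm_inv, le_inv_comm₀ (by norm_num)
          (norm_pos_iff.2 (sub_ne_zero.2 (lamD_ne_one hB).symm))] at h2
        linarith
      obtain ⟨g, g1, _, g3⟩ := cuspD_one hB h1
      refine ⟨g, fun v hv => ?_, ?_⟩
      · simp only
        rw [← g1 v hv]
      · simp only
        rw [norm_inv, Real.log_inv]
        exact g3
    · have h1 : ‖lamD B‖ ≤ 1 / 10 := by
        have h2 := hbig.trans h10
        rw [norm_inv, le_inv_comm₀ (by norm_num) (norm_pos_iff.2 (lamD_ne_zero hB))] at h2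
        linarith
      obtain ⟨g, g1, _, g3⟩ := cuspD_zero hB h1
      refine ⟨g, fun v hv => ?_, ?_⟩
      · simp only
        rw [← g1 v hv]
      · simp only
        rw [norm_inv, Real.log_inv]
        exact g3
  obtain ⟨g, g1, g2⟩ := key
  have hlog : 10 ≤ Real.log ‖Z B‖ := by
    have h1 := Real.log_le_log (Real.exp_pos 10) h10
    rwa [Real.log_exp] at h1
  have hh : 10 ≤ π * (tau g B).im := hlog.trans g2
  have hsmall : ∀ y : ℝ, 2 ≤ y → rexp (-(π * y)) ≤ 1 / 100 := by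
    intro y hy
    have h1 : (6.28 : ℝ) ≤ π * y := by
      have := Real.pi_gt_d2
      nlinarith
    have h2 : (100 : ℝ) ≤ rexp 6.28 := by
      have e : rexp 6.28 = rexp 1 ^ 4 * rexp 2.28 := by
        rw [← Real.exp_nat_mul, ← Real.exp_add]
        norm_num
      have h3 := Real.quadratic_le_exp_of_nonneg (by norm_num : (0 : ℝ) ≤ 2.28)
      have h4 := Real.exp_one_gt_d9
      have h5 : (54 : ℝ) ≤ rexp 1 ^ 4 := by
        have h6 : (2.718 : ℝ) ^ 4 ≤ rexp 1 ^ 4 := pow_le_pow_left₀ (by norm_num) (by linarith) 4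
        norm_num at h6 ⊢
        linarith
      rw [e]
      nlinarith [Real.exp_pos 2.28]
    rw [Real.exp_neg, one_div]
    exact inv_anti₀ (by norm_num) (h2.trans (Real.exp_le_exp.2 h1))
  have hh100 : rexp (-(π * (tau g B).im)) ≤ 1 / 100 := by
    refine hsmall _ ?_
    have := Real.pi_lt_d2
    by_contra hc
    push Not at hc
    have h3 := tau_im_pos g hB
    nlinarith [Real.pi_pos]
  refine ⟨(tau g B).re, (tau g B).im, kap g B, ?_, norm_kap g hB, g2, ?_, ?_, ?_⟩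
  · rw [div_le_iff₀ Real.pi_pos]
    linarith
  · intro b hb
    rw [← tau_Tm g hB hb]
    exact ⟨tau_im_pos g hb, g1 b hb⟩
  · intro b hb h2
    rw [← tau_Tm g hB hb] at h2 ⊢
    rw [g1 b hb]
    set q := cexp (π * I * tau g b) with hq
    have hqn : ‖q‖ = rexp (-(π * (tau g b).im)) := by
      rw [hq, Complex.norm_exp]
      congr 1
      simp
    have hq1 : ‖q‖ ≤ 1 / 100 := by rw [hqn]; exact hsmall _ h2
    have hb1 := (MM_bounds hq1).1
    have hM0 : MM q ≠ 0 := MM_ne (by linarith)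
    rw [norm_inv, norm_mul, norm_mul, Real.log_inv, Real.log_mul (by
      rw [hqn]
      have : ‖(16 : ℂ)‖ = 16 := by norm_num
      rw [this]
      positivity) (norm_ne_zero_iff.2 hM0), Real.log_mul (by norm_num) (by
      rw [hqn]
      exact (Real.exp_pos _).ne'), hqn, Real.log_exp]
    have h16 : ‖(16 : ℂ)‖ = 16 := by norm_num
    rw [h16]
    rw [hqn] at hb1
    have e : -(Real.log 16 + -(π * (tau g b).im) + Real.log ‖MM q‖) - π * (tau g b).im + Real.log 16 =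
        -Real.log ‖MM q‖ := by ring
    rw [e, abs_neg]
    exact hb1
  · exact kap_eps hB g1 hh100

/-- `λ(0) = 1/2` -/
theorem lamD_zero : lamD 0 = 1 / 2 := by
  have h1 : cy 0 = I := by
    unfold cy
    simp
  have h2 : (-1 / I : ℂ) = I := by
    rw [div_eq_iff Complex.I_ne_zero, Complex.I_mul_I]
  have h3 := lam_neg_inv (τ := I) (by simp)
  rw [h2] at h3
  unfold lamD
  rw [h1]
  linear_combination h3 / 2

end Pool.Agent.Helper84.Lam
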