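import Pool.Agent.Helper84.Lam.Asym

/-!
# The derivative of the elliptic modular function

`λ = θ₂⁴/θ₃⁴`, `λ' = π i λ (1 - λ) θ₃⁴`.
-/

set_option autoImplicit false

namespace Pool.Agent.Helper84.Lam

open Complex Real Filter Topology

theorem tend_deriv {F : ℂ → ℂ} {c : ℂ} (hF : ∀ τ : ℂ, 0 < τ.im → DifferentiableAt ℂ F τ)
    (h : Tendsto F (comap Complex.im atTop) (𝓝 c)) :
    Tendsto (deriv F) (comap Complex.im atTop) (𝓝 0) := by
  rw [Metric.tendsto_nhds] at h ⊢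
  intro ε hε
  have h1 := h (ε / 2) (half_pos hε)
  rw [eventually_comap, eventually_atTop] at h1 ⊢
  obtain ⟨a, ha⟩ := h1
  refine ⟨max a 0 + 2, fun b hb w hw => ?_⟩
  have him : ∀ z : ℂ, dist z w ≤ 1 → max a 0 < z.im := by
    intro z hz
    have h2 : |(z - w).im| ≤ 1 := by
      refine (Complex.abs_im_le_norm _).trans ?_
      rwa [dist_eq_norm] at hz
    rw [Complex.sub_im, abs_le] at h2
    linarith [h2.1]
  have hd : DiffContOnCl ℂ (fun z => F z - c) (Metric.ball w 1) := by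
    refine DifferentiableOn.diffContOnCl fun z hz => ?_
    rw [closure_ball w one_ne_zero, Metric.mem_closedBall] at hz
    have h3 := him z hz
    have h4 : 0 < z.im := lt_of_le_of_lt (le_max_right _ _) h3
    exact ((hF z h4).sub_const c).differentiableWithinAt
  have h5 := Complex.norm_deriv_le_of_forall_mem_sphere_norm_le (C := ε / 2) one_pos hd
    (fun z hz => by
      have h6 := him z (le_of_eq hz)
      have h7 := ha z.im ((le_max_left _ _).trans h6.le) z rfl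
      rw [dist_eq_norm] at h7
      exact h7.le)
  rw [deriv_sub_const, div_one] at h5
  rw [dist_zero_right]
  linarith

/-- the logarithmic derivatives -/
noncomputable def lA (τ : ℂ) : ℂ := deriv th3 τ / th3 τ
noncomputable def lB (τ : ℂ) : ℂ := deriv th4 τ / th4 τ
noncomputable def lG (τ : ℂ) : ℂ := deriv th2 τ / th2 τ

theorem deriv_th2 {τ : ℂ} (h : 0 < τ.im) :
    deriv th2 τ = π * I / 4 * th2 τ + 2 * cexp (π * I * τ / 4) * deriv gg τ := by
  have e : th2 = fun t : ℂ => 2 * cexp (π * I * t / 4) * gg t := funext th2_gg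
  have h1 : HasDerivAt (fun t : ℂ => π * I * t / 4) (π * I / 4) τ := by
    have := ((hasDerivAt_id τ).const_mul (π * I : ℂ)).div_const 4
    simpa using this
  have h2 := (h1.cexp.const_mul 2).mul (diff_gg h).hasDerivAt
  have h3 : HasDerivAt th2 (2 * (cexp (π * I * τ / 4) * (π * I / 4)) * gg τ +
      2 * cexp (π * I * τ / 4) * deriv gg τ) τ := by
    rw [e]
    exact h2
  rw [h3.deriv, th2_gg]
  ring

theorem gg_ne {τ : ℂ} (h : 0 < τ.im) : gg τ ≠ 0 := by
  intro h0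
  have := th2_ne h
  rw [th2_gg, h0, mul_zero] at this
  exact this rfl

theorem lG_eq {τ : ℂ} (h : 0 < τ.im) : lG τ = π * I / 4 + deriv gg τ / gg τ := by
  unfold lG
  rw [deriv_th2 h]
  have h1 := gg_ne h
  have h2 := Complex.exp_ne_zero (π * I * τ / 4)
  rw [th2_gg]
  field_simp

theorem jac_deriv {τ : ℂ} (h : 0 < τ.im) :
    th3 τ ^ 4 * lA τ = th2 τ ^ 4 * lG τ + th4 τ ^ 4 * lB τ := by
  have h3 := (diff_th3 h).hasDerivAt.pow 4
  have h2 := (diff_th2 h).hasDerivAt.pow 4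
  have h4 := (diff_th4 h).hasDerivAt.pow 4
  have h5 := h2.add h4
  have h6 : th3 ^ 4 =ᶠ[𝓝 τ] th2 ^ 4 + th4 ^ 4 := by
    have : ∀ᶠ z : ℂ in 𝓝 τ, 0 < z.im :=
      Complex.continuous_im.continuousAt.eventually (lt_mem_nhds h)
    exact this.mono fun z hz => by
      simp only [Pi.pow_apply, Pi.add_apply]
      exact jacobi hz
  have h7 := (h5.congr_of_eventuallyEq h6).unique h3
  unfold lA lB lG
  have n2 := th2_ne h
  have n3 := th3_ne h
  have n4 := th4_ne h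
  have e3 : th3 τ ^ 4 * (deriv th3 τ / th3 τ) = th3 τ ^ 3 * deriv th3 τ := by
    field_simp
  have e2 : th2 τ ^ 4 * (deriv th2 τ / th2 τ) = th2 τ ^ 3 * deriv th2 τ := by
    field_simp
  have e4 : th4 τ ^ 4 * (deriv th4 τ / th4 τ) = th4 τ ^ 3 * deriv th4 τ := by
    field_simp
  rw [e2, e3, e4]
  have h8 : (4 : ℂ) * (th3 τ ^ 3 * deriv th3 τ) =
      4 * (th2 τ ^ 3 * deriv th2 τ + th4 τ ^ 3 * deriv th4 τ) := by
    have := h7
    norm_num at this
    linear_combination -this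
  exact mul_left_cancel₀ (by norm_num) h8

/-- `h = (θ₃'/θ₃ - θ₄'/θ₄)/θ₂⁴` -/
noncomputable def hh (τ : ℂ) : ℂ := (lA τ - lB τ) / th2 τ ^ 4

theorem GA {τ : ℂ} (h : 0 < τ.im) : lG τ - lA τ = th4 τ ^ 4 * hh τ := by
  have h1 := jac_deriv h
  have h2 := jacobi h
  have n2 := th2_ne h
  unfold hh
  rw [h2] at h1
  field_simp
  linear_combination -h1

theorem GB {τ : ℂ} (h : 0 < τ.im) : lG τ - lB τ = th3 τ ^ 4 * hh τ := by
  have h1 := GA h
  have n2 := th2_ne h
  have h3 : lA τ - lB τ = th2 τ ^ 4 * hh τ := by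
    unfold hh
    field_simp
  rw [jacobi h]
  linear_combination h1 + h3

theorem deriv_two {F : ℂ → ℂ} {τ : ℂ} (hF : DifferentiableAt ℂ F (2 * τ)) :
    HasDerivAt (fun t => F (2 * t)) (2 * deriv F (2 * τ)) τ := by
  have h1 : HasDerivAt (fun t : ℂ => 2 * t) 2 τ := by
    simpa using (hasDerivAt_id τ).const_mul (2 : ℂ)
  have h2 := hF.hasDerivAt.comp τ h1
  rw [mul_comm]
  exact h2

theorem agm1_deriv {τ : ℂ} (h : 0 < τ.im) : th3 τ * deriv th3 τ =
    2 * th3 (2 * τ) * deriv th3 (2 * τ) + 2 * th2 (2 * τ) * deriv th2 (2 * τ) := by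
  have h1 := (diff_th3 h).hasDerivAt.pow 2
  have h2 := ((deriv_two (diff_th3 (two_im h))).pow 2).add
    ((deriv_two (diff_th2 (two_im h))).pow 2)
  have h6 : th3 ^ 2 =ᶠ[𝓝 τ] (fun t => th3 (2 * t)) ^ 2 + (fun t => th2 (2 * t)) ^ 2 := by
    have : ∀ᶠ z : ℂ in 𝓝 τ, 0 < z.im :=
      Complex.continuous_im.continuousAt.eventually (lt_mem_nhds h)
    exact this.mono fun z hz => by
      simp only [Pi.pow_apply, Pi.add_apply]
      exact agm1 hz
  have h7 := (h2.congr_of_eventuallyEq h6).unique h1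
  norm_num at h7
  linear_combination -h7 / 2

theorem agm2_deriv {τ : ℂ} (h : 0 < τ.im) : th4 τ * deriv th4 τ =
    2 * th3 (2 * τ) * deriv th3 (2 * τ) - 2 * th2 (2 * τ) * deriv th2 (2 * τ) := by
  have h1 := (diff_th4 h).hasDerivAt.pow 2
  have h2 := ((deriv_two (diff_th3 (two_im h))).pow 2).sub
    ((deriv_two (diff_th2 (two_im h))).pow 2)
  have h6 : th4 ^ 2 =ᶠ[𝓝 τ] (fun t => th3 (2 * t)) ^ 2 - (fun t => th2 (2 * t)) ^ 2 := by
    have : ∀ᶠ z : ℂ in 𝓝 τ, 0 < z.im :=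
      Complex.continuous_im.continuousAt.eventually (lt_mem_nhds h)
    exact this.mono fun z hz => by
      simp only [Pi.pow_apply, Pi.sub_apply]
      exact agm2 hz
  have h7 := (h2.congr_of_eventuallyEq h6).unique h1
  norm_num at h7
  linear_combination -h7 / 2

theorem hh_two {τ : ℂ} (h : 0 < τ.im) : hh (2 * τ) = hh τ := by
  have him := two_im h
  have a1 := agm1 h
  have a2 := agm2 h
  have a4 := agm4 h
  have d1 := agm1_deriv h
  have d2 := agm2_deriv h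
  have ga := GA him
  have jj := jacobi him
  have nx := th3_ne h
  have ny := th4_ne h
  have nX := th3_ne him
  have nY := th4_ne him
  have nZ := th2_ne him
  have n2 := th2_ne h
  -- `(lA - lB) x² y² = (x x') y² - (y y') x²`
  have e1 : (lA τ - lB τ) * (th3 τ ^ 2 * th4 τ ^ 2) =
      (th3 τ * deriv th3 τ) * th4 τ ^ 2 - (th4 τ * deriv th4 τ) * th3 τ ^ 2 := by
    unfold lA lB
    field_simp
  have e2 : (lG (2 * τ) - lA (2 * τ)) * (th2 (2 * τ) * th3 (2 * τ)) =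
      deriv th2 (2 * τ) * th3 (2 * τ) - deriv th3 (2 * τ) * th2 (2 * τ) := by
    unfold lA lG
    field_simp
  have e3 : th3 τ ^ 2 * th4 τ ^ 2 = th4 (2 * τ) ^ 4 := by
    rw [a1, a2]
    linear_combination jj
  have e4 : th2 τ ^ 4 = 4 * (th2 (2 * τ) * th3 (2 * τ)) ^ 2 := by
    have : th2 τ ^ 4 = (th2 τ ^ 2) ^ 2 := by ring
    rw [this, a4]
    ring
  have l5 : (lA τ - lB τ) * th4 (2 * τ) ^ 4 =
      (2 * th3 (2 * τ) * deriv th3 (2 * τ) + 2 * th2 (2 * τ) * deriv th2 (2 * τ)) *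
        (th3 (2 * τ) ^ 2 - th2 (2 * τ) ^ 2) -
      (2 * th3 (2 * τ) * deriv th3 (2 * τ) - 2 * th2 (2 * τ) * deriv th2 (2 * τ)) *
        (th3 (2 * τ) ^ 2 + th2 (2 * τ) ^ 2) := by
    rw [← e3, e1, d1, d2, a1, a2]
  have e5 : (lA τ - lB τ) * th4 (2 * τ) ^ 4 =
      th4 (2 * τ) ^ 4 * hh (2 * τ) * th2 τ ^ 4 := by
    rw [l5, e4, ← ga]
    linear_combination (4 * (th2 (2 * τ) * th3 (2 * τ))) * (-e2)
  have e6 : (lA τ - lB τ) = hh (2 * τ) * th2 τ ^ 4 := by
    have n4 : th4 (2 * τ) ^ 4 ≠ 0 := pow_ne_zero 4 nY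
    refine mul_right_cancel₀ n4 ?_
    rw [e5]
    ring
  have n24 : th2 τ ^ 4 ≠ 0 := pow_ne_zero 4 n2
  unfold hh at e6 ⊢
  rw [e6]
  field_simp

theorem hh_eq {τ : ℂ} (h : 0 < τ.im) : hh τ = π * I / 4 := by
  have key : ∀ n : ℕ, hh ((2 : ℂ) ^ n * τ) = hh τ := by
    intro n
    induction n with
    | zero => simp
    | succ n ih =>
      have him : 0 < ((2 : ℂ) ^ n * τ).im := by rw [pow_im]; positivity
      have e : (2 : ℂ) ^ (n + 1) * τ = 2 * ((2 : ℂ) ^ n * τ) := by ring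
      rw [e, hh_two him, ih]
  have t1 := (tend_deriv (fun _ => diff_gg) tend_gg).div tend_gg one_ne_zero
  have t2 := (tend_deriv (fun _ => diff_th3) tend_th3).div tend_th3 one_ne_zero
  have t3 := ((t1.const_add (π * I / 4 : ℂ)).sub t2).div (tend_th4.pow 4)
    (by norm_num)
  have t4 := t3.comp (tend_pow h)
  have t5 : Tendsto (fun _ : ℕ => hh τ) atTop (𝓝 (π * I / 4)) := by
    have e : (π * I / 4 + 0 / 1 - 0 / 1) / 1 ^ 4 = (π * I / 4 : ℂ) := by norm_num
    rw [e] at t4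
    refine t4.congr fun n => ?_
    have him : 0 < ((2 : ℂ) ^ n * τ).im := by rw [pow_im]; positivity
    have g1 := GA him
    rw [lG_eq him, key n] at g1
    simp only [Function.comp, Pi.div_apply]
    have n4 : th4 ((2 : ℂ) ^ n * τ) ^ 4 ≠ 0 := pow_ne_zero 4 (th4_ne him)
    rw [div_eq_iff n4, mul_comm (hh τ), ← g1]
    rfl
  exact tendsto_nhds_unique tendsto_const_nhds t5

/-! ### the modular function -/

noncomputable def lam (τ : ℂ) : ℂ := th2 τ ^ 4 / th3 τ ^ 4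

theorem one_sub_lam {τ : ℂ} (h : 0 < τ.im) : 1 - lam τ = th4 τ ^ 4 / th3 τ ^ 4 := by
  have n3 := th3_ne h
  unfold lam
  have := jacobi h
  field_simp
  linear_combination this

theorem lam_ne_zero {τ : ℂ} (h : 0 < τ.im) : lam τ ≠ 0 :=
  div_ne_zero (pow_ne_zero 4 (th2_ne h)) (pow_ne_zero 4 (th3_ne h))

theorem lam_ne_one {τ : ℂ} (h : 0 < τ.im) : lam τ ≠ 1 := by
  intro h0
  have h1 := one_sub_lam h
  rw [h0, sub_self] at h1
  exact div_ne_zero (pow_ne_zero 4 (th4_ne h)) (pow_ne_zero 4 (th3_ne h)) h1.symm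

theorem hasDerivAt_lam {τ : ℂ} (h : 0 < τ.im) :
    HasDerivAt lam (π * I * lam τ * (1 - lam τ) * th3 τ ^ 4) τ := by
  have n2 := th2_ne h
  have n3 := th3_ne h
  have h1 := ((diff_th2 h).hasDerivAt.pow 4).div ((diff_th3 h).hasDerivAt.pow 4)
    (pow_ne_zero 4 n3)
  have e : π * I * lam τ * (1 - lam τ) * th3 τ ^ 4 = 4 * lam τ * (lG τ - lA τ) := by
    rw [GA h, hh_eq h, one_sub_lam h]
    field_simp
  rw [e]
  refine h1.congr_deriv ?_
  unfold lam lG lA
  simp only [Pi.pow_apply]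
  field_simp
  norm_num
  ring

theorem lam_add_one {τ : ℂ} (h : 0 < τ.im) : lam (τ + 1) = lam τ / (lam τ - 1) := by
  have h1 := one_sub_lam h
  have n3 := th3_ne h
  have n4 := th4_ne h
  have e : lam τ - 1 = -(th4 τ ^ 4 / th3 τ ^ 4) := by rw [← h1]; ring
  rw [e]
  unfold lam
  rw [th2_T4 h, th3_add_one h]
  field_simp

theorem lam_neg_inv {τ : ℂ} (h : 0 < τ.im) : lam (-1 / τ) = 1 - lam τ := by
  have n3 := th3_ne h
  have n0 := ne_zero_of_im h
  rw [one_sub_lam h]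
  unfold lam
  rw [th2_S4 h, th3_S4 h]
  field_simp

end Pool.Agent.Helper84.Lam
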