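import Pool.Agent.Helper84.Lam.Lip

/-!
# Disc forms of the facts about `λ`
-/

set_option autoImplicit false

namespace Pool.Agent.Helper84.Lam

open Complex Real Filter Topology ComplexConjugate MatrixGroups

/-- the Cayley map -/
noncomputable def cy (w : ℂ) : ℂ := I * (1 + w) / (1 - w)

theorem one_sub_ne {w : ℂ} (h : ‖w‖ < 1) : 1 - w ≠ 0 := by
  intro h0
  have : w = 1 := by linear_combination -h0
  rw [this, norm_one] at h
  exact lt_irrefl _ h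

theorem cy_im {w : ℂ} (h : ‖w‖ < 1) : (cy w).im = (1 - ‖w‖ ^ 2) / ‖1 - w‖ ^ 2 := by
  have h1 := one_sub_ne h
  have h2 : ‖1 - w‖ ^ 2 ≠ 0 := pow_ne_zero 2 (norm_ne_zero_iff.2 h1)
  have e : cy w = ((1 / ‖1 - w‖ ^ 2 : ℝ) : ℂ) * (I * (1 + w) * conj (1 - w)) := by
    unfold cy
    have h3 : (1 - w) * conj (1 - w) = ((‖1 - w‖ ^ 2 : ℝ) : ℂ) := by
      rw [Complex.mul_conj, Complex.normSq_eq_norm_sq]
    have h4 : conj (1 - w) ≠ 0 := by
      rwa [Ne, map_eq_zero]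
    rw [Complex.ofReal_div, Complex.ofReal_one, ← h3]
    field_simp
  rw [e, Complex.im_ofReal_mul]
  have e2 : (I * (1 + w) * conj (1 - w)).im = 1 - ‖w‖ ^ 2 := by
    rw [← Complex.normSq_eq_norm_sq, Complex.normSq_apply]
    simp
    ring
  rw [e2]
  field_simp

theorem cy_im_pos {w : ℂ} (h : ‖w‖ < 1) : 0 < (cy w).im := by
  rw [cy_im h]
  have h1 := norm_pos_iff.2 (one_sub_ne h)
  have h2 : ‖w‖ ^ 2 < 1 := by
    have := norm_nonneg w
    nlinarith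
  exact div_pos (by linarith) (by positivity)

theorem hasDerivAt_cy {w : ℂ} (h : ‖w‖ < 1) : HasDerivAt cy (2 * I / (1 - w) ^ 2) w := by
  have h1 := one_sub_ne h
  have h2 : HasDerivAt (fun w : ℂ => I * (1 + w)) I w := by
    simpa using ((hasDerivAt_id w).const_add 1).const_mul I
  have h3 : HasDerivAt (fun w : ℂ => 1 - w) (-1) w := by
    simpa using (hasDerivAt_id w).const_sub 1
  refine (h2.div h3 h1).congr_deriv ?_
  field_simp
  ring

/-- `λ` on the disc -/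
noncomputable def lamD (w : ℂ) : ℂ := lam (cy w)

/-- the height on the disc -/
noncomputable def YD (w : ℂ) : ℝ := Yf (cy w)

theorem lamD_ne_zero {w : ℂ} (h : ‖w‖ < 1) : lamD w ≠ 0 := lam_ne_zero (cy_im_pos h)
theorem lamD_ne_one {w : ℂ} (h : ‖w‖ < 1) : lamD w ≠ 1 := lam_ne_one (cy_im_pos h)

theorem hasDerivAt_lamD {w : ℂ} (h : ‖w‖ < 1) :
    HasDerivAt lamD (π * I * lamD w * (1 - lamD w) * th3 (cy w) ^ 4 * (2 * I / (1 - w) ^ 2)) w :=
  (hasDerivAt_lam (cy_im_pos h)).comp w (hasDerivAt_cy h)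

theorem diff_lamD {w : ℂ} (h : ‖w‖ < 1) : DifferentiableAt ℂ lamD w :=
  (hasDerivAt_lamD h).differentiableAt

theorem deriv_lamD_ne {w : ℂ} (h : ‖w‖ < 1) : deriv lamD w ≠ 0 := by
  rw [(hasDerivAt_lamD h).deriv]
  have h1 := lamD_ne_zero h
  have h2 : 1 - lamD w ≠ 0 := sub_ne_zero.2 (lamD_ne_one h).symm
  have h3 := th3_ne (cy_im_pos h)
  have h4 := one_sub_ne h
  have h5 : (π : ℂ) ≠ 0 := Complex.ofReal_ne_zero.2 Real.pi_ne_zero
  have h6 := Complex.I_ne_zero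
  have h7 : (2 : ℂ) * I / (1 - w) ^ 2 ≠ 0 :=
    div_ne_zero (mul_ne_zero two_ne_zero h6) (pow_ne_zero 2 h4)
  exact mul_ne_zero (mul_ne_zero (mul_ne_zero (mul_ne_zero (mul_ne_zero h5 h6) h1) h2)
    (pow_ne_zero 4 h3)) h7

/-- `Y` through `λ` on the disc -/
theorem YD_eq {w : ℂ} (h : ‖w‖ < 1) :
    (1 - ‖w‖ ^ 2) * ‖deriv lamD w‖ * (1 + ‖lamD w‖ + ‖1 - lamD w‖) / (‖lamD w‖ * ‖1 - lamD w‖) =
      2 * π * YD w := by
  have h1 := Yf_eq (cy_im_pos h)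
  have h2 : ‖deriv lamD w‖ = ‖deriv lam (cy w)‖ * (2 / ‖1 - w‖ ^ 2) := by
    rw [(hasDerivAt_lamD h).deriv, (hasDerivAt_lam (cy_im_pos h)).deriv, norm_mul]
    congr 1
    rw [norm_div, norm_mul, Complex.norm_I, norm_pow]
    norm_num
  have h3 : (1 - ‖w‖ ^ 2) * ‖deriv lamD w‖ = 2 * ((cy w).im * ‖deriv lam (cy w)‖) := by
    rw [h2, cy_im h]
    have := norm_ne_zero_iff.2 (one_sub_ne h)
    field_simp
  have e : 2 * π * YD w = 2 * (π * Yf (cy w)) := by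
    unfold YD
    ring
  rw [e, ← h1, h3]
  unfold lamD
  ring

theorem YD_lower {w : ℂ} (h : ‖w‖ < 1) : 0.8 ≤ YD w := Yf_lower ⟨cy w, cy_im_pos h⟩

theorem YD_le_log {w : ℂ} (h : ‖w‖ < 1) :
    YD w ≤ 2 * (|Real.log ‖lamD w‖| + |Real.log ‖1 - lamD w‖|) + 8 :=
  Yf_le_log ⟨cy w, cy_im_pos h⟩

theorem log_le_YD {w : ℂ} (h : ‖w‖ < 1) :
    |Real.log ‖lamD w‖| ≤ 7 * YD w ∧ |Real.log ‖1 - lamD w‖| ≤ 7 * YD w :=
  ⟨(abs_log_lam (cy_im_pos h)).trans (Df_le_Yf ⟨cy w, cy_im_pos h⟩),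
    (abs_log_one_sub_lam (cy_im_pos h)).trans (Df_le_Yf ⟨cy w, cy_im_pos h⟩)⟩

/-- `min(|λ|, |1 - λ|, 1/|λ|)` is exponentially small in the height. -/
theorem min_le_YD {w : ℂ} (h : ‖w‖ < 1) :
    ‖lamD w‖ ≤ 2 * rexp (4 - YD w / 2) ∨ ‖1 - lamD w‖ ≤ 2 * rexp (4 - YD w / 2) ∨
      ‖lamD w‖⁻¹ ≤ 2 * rexp (4 - YD w / 2) := by
  have h1 := Yf_le_Df ⟨cy w, cy_im_pos h⟩
  have h2 : 2 * rexp (-Df (cy w)) ≤ 2 * rexp (4 - YD w / 2) := by
    refine mul_le_mul_of_nonneg_left (Real.exp_le_exp.2 ?_) (by norm_num)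
    have h3 : Yf (cy w) ≤ 2 * Df (cy w) + 8 := h1
    unfold YD
    linarith
  rcases min_le_exp (cy_im_pos h) with h3 | h3 | h3
  · exact Or.inl (h3.trans h2)
  · exact Or.inr (Or.inl (h3.trans h2))
  · exact Or.inr (Or.inr (h3.trans h2))

theorem Qd_cy {w v : ℂ} (hw : ‖w‖ < 1) (hv : ‖v‖ < 1) :
    Qd (cy w) (cy v) = 4 * ‖w - v‖ ^ 2 / ((1 - ‖w‖ ^ 2) * (1 - ‖v‖ ^ 2)) := by
  have h1 := one_sub_ne hw
  have h2 := one_sub_ne hv
  have e : cy w - cy v = 2 * I * (w - v) / ((1 - w) * (1 - v)) := by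
    unfold cy
    field_simp
    ring
  have n1 := norm_ne_zero_iff.2 h1
  have n2 := norm_ne_zero_iff.2 h2
  have p1 : 1 - ‖w‖ ^ 2 ≠ 0 := by
    have := norm_nonneg w
    nlinarith
  have p2 : 1 - ‖v‖ ^ 2 ≠ 0 := by
    have := norm_nonneg v
    nlinarith
  unfold Qd
  rw [e, cy_im hw, cy_im hv, norm_div, norm_mul, norm_mul, norm_mul, Complex.norm_I]
  norm_num
  field_simp
  norm_num
  ring

/-- `|1 - conj w v|² = |w - v|² + (1 - |w|²)(1 - |v|²)` -/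
theorem norm_one_sub_conj (w v : ℂ) :
    ‖1 - conj w * v‖ ^ 2 = ‖w - v‖ ^ 2 + (1 - ‖w‖ ^ 2) * (1 - ‖v‖ ^ 2) := by
  simp only [← Complex.normSq_eq_norm_sq, Complex.normSq_apply]
  simp
  ring

/-- **The height is Lipschitz for the pseudo-hyperbolic distance.** -/
theorem YD_lip {w v : ℂ} (hw : ‖w‖ < 1) (hv : ‖v‖ < 1) {ρ : ℝ} (h0 : 0 ≤ ρ) (h1 : ρ ≤ 1 / 32)
    (h : ‖w - v‖ ≤ ρ * ‖1 - conj w * v‖) : |YD v - YD w| ≤ 3240 * ρ * YD w := by
  have nw := norm_nonneg w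
  have nv := norm_nonneg v
  have p1 : 0 < 1 - ‖w‖ ^ 2 := by nlinarith
  have p2 : 0 < 1 - ‖v‖ ^ 2 := by nlinarith
  have q1 : ‖w - v‖ ^ 2 ≤ ρ ^ 2 * ‖1 - conj w * v‖ ^ 2 := by
    have := pow_le_pow_left₀ (norm_nonneg _) h 2
    rwa [mul_pow] at this
  rw [norm_one_sub_conj] at q1
  have q2 : ρ ^ 2 ≤ 1 / 1024 := by nlinarith
  have q3 : Qd (cy w) (cy v) ≤ (9 / 4) ^ 2 * ρ ^ 2 := by
    rw [Qd_cy hw hv, div_le_iff₀ (mul_pos p1 p2)]
    have : 0 < (1 - ‖w‖ ^ 2) * (1 - ‖v‖ ^ 2) := mul_pos p1 p2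
    nlinarith [norm_nonneg (w - v), sq_nonneg ‖w - v‖]
  set u := cy w with hu
  set u' := cy v with hu'
  have i1 : 0 < u.im := cy_im_pos hw
  have i2 : 0 < u'.im := cy_im_pos hv
  have i3 : |(u - u').im| ≤ ‖u - u'‖ := Complex.abs_im_le_norm _
  rw [Complex.sub_im] at i3
  have q4 : ‖u - u'‖ ^ 2 = Qd u u' * (u.im * u'.im) := by
    unfold Qd
    have := (mul_pos i1 i2).ne'
    field_simp
  have q5 : ‖u - u'‖ ^ 2 ≤ (9 / 4) ^ 2 * ρ ^ 2 * (u.im * u'.im) := by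
    rw [q4]
    exact mul_le_mul_of_nonneg_right q3 (mul_pos i1 i2).le
  have q6 : (u.im - u'.im) ^ 2 ≤ ‖u - u'‖ ^ 2 := by
    rw [← sq_abs (u.im - u'.im)]
    exact pow_le_pow_left₀ (abs_nonneg _) i3 2
  have q7 : u'.im ≤ 9 / 8 * u.im := by
    by_contra hc
    push Not at hc
    have h5 : (u.im - u'.im) ^ 2 ≤ 81 / 16 / 1024 * (u.im * u'.im) := by
      have := mul_pos i1 i2
      nlinarith
    nlinarith
  have q8 : ‖u - u'‖ ^ 2 ≤ (4 * ρ * u.im) ^ 2 := by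
    refine q5.trans ?_
    have h3 : 0 ≤ ρ ^ 2 * u.im := by positivity
    nlinarith
  have q9 : ‖u - u'‖ ≤ (4 * ρ) * u.im :=
    (pow_le_pow_iff_left₀ (norm_nonneg _) (by positivity) two_ne_zero).1 q8
  have h6 := Yf_lip ⟨u, i1⟩ ⟨u', i2⟩ (δ := 4 * ρ) (by positivity) (by linarith) q9
  have e : 810 * (4 * ρ) * Yf u = 3240 * ρ * YD w := by
    unfold YD
    rw [← hu]
    ring
  have h7 : |Yf u' - Yf u| ≤ 810 * (4 * ρ) * Yf u := h6
  rw [e] at h7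
  exact h7

/-! ### Möbius maps `D → H` of the modular group -/

noncomputable def nA (g : SL(2, ℤ)) : ℂ := (g 0 0 : ℂ) * I - (g 0 1 : ℂ)
noncomputable def nC (g : SL(2, ℤ)) : ℂ := (g 1 0 : ℂ) * I - (g 1 1 : ℂ)

/-- `g ∘ cy` -/
noncomputable def tau (g : SL(2, ℤ)) (w : ℂ) : ℂ :=
  (nA g * w - conj (nA g)) / (nC g * w - conj (nC g))

theorem nC_ne (g : SL(2, ℤ)) : nC g ≠ 0 := by
  intro h
  have h1 := congrArg Complex.re h
  have h2 := congrArg Complex.im h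
  unfold nC at h1 h2
  simp at h1 h2
  have h3 := g.det_coe
  rw [Matrix.det_fin_two, h1, h2] at h3
  simp at h3

theorem den_ne (g : SL(2, ℤ)) {w : ℂ} (h : ‖w‖ < 1) : nC g * w - conj (nC g) ≠ 0 := by
  intro h0
  have h1 : nC g * w = conj (nC g) := sub_eq_zero.1 h0
  have h2 := congrArg norm h1
  rw [norm_mul, Complex.norm_conj] at h2
  have h3 := norm_pos_iff.2 (nC_ne g)
  nlinarith

theorem tau_eq (g : SL(2, ℤ)) {w : ℂ} (h : ‖w‖ < 1) :
    ((g • (⟨cy w, cy_im_pos h⟩ : UpperHalfPlane) : UpperHalfPlane) : ℂ) = tau g w := by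
  rw [UpperHalfPlane.coe_specialLinearGroup_apply]
  have h1 := one_sub_ne h
  have h2 := den_ne g h
  have e1 : (g 1 0 : ℂ) * cy w + (g 1 1 : ℂ) = (nC g * w - conj (nC g)) / (1 - w) := by
    unfold cy nC
    simp
    field_simp
    ring
  have e2 : (g 0 0 : ℂ) * cy w + (g 0 1 : ℂ) = (nA g * w - conj (nA g)) / (1 - w) := by
    unfold cy nA
    simp
    field_simp
    ring
  have e3 : ((g 0 0 : ℂ) * cy w + (g 0 1 : ℂ)) / ((g 1 0 : ℂ) * cy w + (g 1 1 : ℂ)) = tau g w := by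
    rw [e1, e2]
    unfold tau
    field_simp
  simpa using e3

theorem det_AC (g : SL(2, ℤ)) : nA g * conj (nC g) - conj (nA g) * nC g = -2 * I := by
  have h3 := g.det_coe
  rw [Matrix.det_fin_two] at h3
  have h4 : (g 0 0 : ℂ) * (g 1 1 : ℂ) - (g 0 1 : ℂ) * (g 1 0 : ℂ) = 1 := by exact_mod_cast h3
  unfold nA nC
  simp
  linear_combination (-2 * I) * h4 + 0 * I_sq

theorem tau_im_pos (g : SL(2, ℤ)) {w : ℂ} (h : ‖w‖ < 1) : 0 < (tau g w).im := by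
  rw [← tau_eq g h]
  exact UpperHalfPlane.im_pos _

theorem hasDerivAt_tau (g : SL(2, ℤ)) {w : ℂ} (h : ‖w‖ < 1) :
    HasDerivAt (tau g) (2 * I / (nC g * w - conj (nC g)) ^ 2) w := by
  have h2 := den_ne g h
  have h3 : HasDerivAt (fun w : ℂ => nA g * w - conj (nA g)) (nA g) w := by
    simpa using ((hasDerivAt_id w).const_mul (nA g)).sub_const (conj (nA g))
  have h4 : HasDerivAt (fun w : ℂ => nC g * w - conj (nC g)) (nC g) w := by
    simpa using ((hasDerivAt_id w).const_mul (nC g)).sub_const (conj (nC g))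
  refine (h3.div h4 h2).congr_deriv ?_
  congr 1
  linear_combination -det_AC g

/-- The unimodular number of the map at `B`. -/
noncomputable def kap (g : SL(2, ℤ)) (B : ℂ) : ℂ :=
  conj (nC g * B - conj (nC g)) / (nC g * B - conj (nC g))

theorem norm_kap (g : SL(2, ℤ)) {B : ℂ} (h : ‖B‖ < 1) : ‖kap g B‖ = 1 := by
  unfold kap
  rw [norm_div, Complex.norm_conj, div_self (norm_ne_zero_iff.2 (den_ne g h))]

/-- **The map in the coordinate centred at `B`.** -/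
theorem tau_mobius (g : SL(2, ℤ)) {B ω : ℂ} (h : ‖B‖ < 1) (hω : ‖ω‖ < 1) :
    tau g ((B + ω) / (1 + conj B * ω)) =
      (tau g B - conj (tau g B) * kap g B * ω) / (1 - kap g B * ω) := by
  have h1 := den_ne g h
  have h2 : (1 : ℂ) + conj B * ω ≠ 0 := by
    intro h0
    have h3 : conj B * ω = -1 := by linear_combination h0
    have h4 := congrArg norm h3
    rw [norm_mul, Complex.norm_conj, norm_neg, norm_one] at h4
    have := norm_nonneg B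
    have := norm_nonneg ω
    nlinarith
  have h3 : (1 : ℂ) - kap g B * ω ≠ 0 := by
    refine one_sub_ne ?_
    rw [norm_mul, norm_kap g h, one_mul]
    exact hω
  have h1c : conj (nC g * B - conj (nC g)) ≠ 0 := by rwa [Ne, map_eq_zero]
  have h4 : (nC g * B - conj (nC g)) - conj (nC g * B - conj (nC g)) * ω ≠ 0 := by
    intro h0
    apply h3
    unfold kap
    field_simp
    linear_combination h0
  have h56 : ∀ a : ℂ, a * ((B + ω) / (1 + conj B * ω)) - conj a =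
      ((a * B - conj a) - conj (a * B - conj a) * ω) / (1 + conj B * ω) := by
    intro a
    rw [eq_div_iff h2]
    simp only [map_sub, map_mul, Complex.conj_conj]
    have e0 : (B + ω) / (1 + conj B * ω) * (1 + conj B * ω) = B + ω := div_mul_cancel₀ _ h2
    linear_combination a * e0
  have h5 := h56 (nC g)
  have h6 := h56 (nA g)
  have h7 : conj (tau g B) = conj (nA g * B - conj (nA g)) / conj (nC g * B - conj (nC g)) := by
    unfold tau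
    rw [map_div₀]
  have e1 : tau g ((B + ω) / (1 + conj B * ω)) =
      ((nA g * B - conj (nA g)) - conj (nA g * B - conj (nA g)) * ω) /
        ((nC g * B - conj (nC g)) - conj (nC g * B - conj (nC g)) * ω) := by
    unfold tau
    rw [h5, h6, div_div_div_cancel_right₀ h2]
  rw [e1, h7]
  unfold tau kap
  set P := nA g * B - conj (nA g)
  set R := nC g * B - conj (nC g)
  set P' := conj P
  set R' := conj R
  have h8 : (1 : ℂ) - R' / R * ω ≠ 0 := h3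
  rw [div_eq_div_iff h4 h8]
  field_simp

theorem deriv_tau_eq (g : SL(2, ℤ)) {B : ℂ} (h : ‖B‖ < 1) :
    deriv (tau g) B * ((1 - ‖B‖ ^ 2 : ℝ) : ℂ) = 2 * I * ((tau g B).im : ℂ) * kap g B := by
  have h1 := den_ne g h
  have h1c : conj (nC g * B - conj (nC g)) ≠ 0 := by rwa [Ne, map_eq_zero]
  rw [(hasDerivAt_tau g h).deriv]
  have h7 : conj (tau g B) = conj (nA g * B - conj (nA g)) / conj (nC g * B - conj (nC g)) := by
    unfold tau
    rw [map_div₀]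
  have h8 : 2 * I * ((tau g B).im : ℂ) = tau g B - conj (tau g B) := by
    rw [Complex.sub_conj]
    push_cast
    ring
  have h9 : (((1 - ‖B‖ ^ 2 : ℝ)) : ℂ) = 1 - B * conj B := by
    rw [Complex.mul_conj, Complex.normSq_eq_norm_sq]
    push_cast
    ring
  rw [h8, h7, h9]
  unfold tau kap
  have h10 := det_AC g
  simp only [map_sub, map_mul, Complex.conj_conj] at h1c ⊢
  field_simp
  linear_combination (1 - B * conj B) * h10

/-- Im of the map in the coordinate centred at `B`. -/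
theorem im_mobius (t κ : ℂ) (hκ : ‖κ‖ = 1) {ω : ℂ} (hω : ‖ω‖ < 1) :
    ((t - conj t * κ * ω) / (1 - κ * ω)).im = t.im * (1 - ‖ω‖ ^ 2) / ‖1 - κ * ω‖ ^ 2 := by
  have h3 : (1 : ℂ) - κ * ω ≠ 0 := by
    refine one_sub_ne ?_
    rw [norm_mul, hκ, one_mul]
    exact hω
  have h2 : ‖1 - κ * ω‖ ^ 2 ≠ 0 := pow_ne_zero 2 (norm_ne_zero_iff.2 h3)
  have e : (t - conj t * κ * ω) / (1 - κ * ω) = ((1 / ‖1 - κ * ω‖ ^ 2 : ℝ) : ℂ) *
      ((t - conj t * κ * ω) * conj (1 - κ * ω)) := by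
    have h3' : (1 - κ * ω) * conj (1 - κ * ω) = ((‖1 - κ * ω‖ ^ 2 : ℝ) : ℂ) := by
      rw [Complex.mul_conj, Complex.normSq_eq_norm_sq]
    have h4 : conj (1 - κ * ω) ≠ 0 := by
      rwa [Ne, map_eq_zero]
    rw [Complex.ofReal_div, Complex.ofReal_one, ← h3']
    field_simp
  rw [e, Complex.im_ofReal_mul]
  have k2 : κ.re * κ.re + κ.im * κ.im = 1 := by
    have : Complex.normSq κ = 1 := by rw [Complex.normSq_eq_norm_sq, hκ]; norm_num
    rwa [Complex.normSq_apply] at this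
  have e2 : ((t - conj t * κ * ω) * conj (1 - κ * ω)).im = t.im * (1 - ‖ω‖ ^ 2) := by
    rw [← Complex.normSq_eq_norm_sq ω, Complex.normSq_apply]
    simp
    linear_combination (-t.im * (ω.re * ω.re + ω.im * ω.im)) * k2
  rw [e2]
  field_simp

/-- **Cusps on the disc**: `λ(w) = 16 q MM(q)`, `q = exp(i π τ(w))`. -/
theorem cuspD_zero {w : ℂ} (hw : ‖w‖ < 1) (h : ‖lamD w‖ ≤ 1 / 10) :
    ∃ g : SL(2, ℤ), (∀ v : ℂ, ‖v‖ < 1 → lamD v = 16 * cexp (π * I * tau g v) *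
      MM (cexp (π * I * tau g v))) ∧ 0.86 ≤ (tau g w).im ∧
      -Real.log ‖lamD w‖ ≤ π * (tau g w).im := by
  obtain ⟨g, g1, g2, g3⟩ := cusp_zero ⟨cy w, cy_im_pos hw⟩ h
  rw [tau_eq g hw] at g2 g3
  refine ⟨g, fun v hv => ?_, g2, g3⟩
  have h1 := g1 ⟨cy v, cy_im_pos hv⟩
  rw [tau_eq g hv, lam_q (tau_im_pos g hv)] at h1
  exact h1.symm

theorem cuspD_one {w : ℂ} (hw : ‖w‖ < 1) (h : ‖1 - lamD w‖ ≤ 1 / 10) :
    ∃ g : SL(2, ℤ), (∀ v : ℂ, ‖v‖ < 1 → 1 - lamD v = 16 * cexp (π * I * tau g v) *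
      MM (cexp (π * I * tau g v))) ∧ 0.86 ≤ (tau g w).im ∧
      -Real.log ‖1 - lamD w‖ ≤ π * (tau g w).im := by
  obtain ⟨g, g1, g2, g3⟩ := cusp_one ⟨cy w, cy_im_pos hw⟩ h
  rw [tau_eq g hw] at g2 g3
  refine ⟨g, fun v hv => ?_, g2, g3⟩
  have h1 := g1 ⟨cy v, cy_im_pos hv⟩
  rw [tau_eq g hv, lam_q (tau_im_pos g hv)] at h1
  exact h1.symm

theorem cuspD_infty {w : ℂ} (hw : ‖w‖ < 1) (h : 10 ≤ ‖lamD w‖) :
    ∃ g : SL(2, ℤ), (∀ v : ℂ, ‖v‖ < 1 → (lamD v)⁻¹ = 16 * cexp (π * I * tau g v) *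
      MM (cexp (π * I * tau g v))) ∧ 0.86 ≤ (tau g w).im ∧
      Real.log ‖lamD w‖ ≤ π * (tau g w).im := by
  obtain ⟨g, g1, g2, g3⟩ := cusp_infty ⟨cy w, cy_im_pos hw⟩ h
  rw [tau_eq g hw] at g2 g3
  refine ⟨g, fun v hv => ?_, g2, g3⟩
  have h1 := g1 ⟨cy v, cy_im_pos hv⟩
  rw [tau_eq g hv, lam_q (tau_im_pos g hv)] at h1
  exact h1.symm

end Pool.Agent.Helper84.Lam
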