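import Pool.Agent.Helper84.Lam.Deriv

/-!
# The action of `SL(2, ℤ)` on `λ`, the height and the cusps
-/

set_option autoImplicit false

namespace Pool.Agent.Helper84.Lam

open Complex Real Filter Topology UpperHalfPlane ModularGroup MatrixGroups

theorem coe_S (v : ℍ) : ((ModularGroup.S • v : ℍ) : ℂ) = -1 / (v : ℂ) := by
  rw [UpperHalfPlane.modular_S_smul]
  show (-(v : ℂ))⁻¹ = _
  rw [inv_neg, neg_div, one_div]

theorem coe_T (v : ℍ) : ((ModularGroup.T • v : ℍ) : ℂ) = (v : ℂ) + 1 := by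
  have := ModularGroup.coe_T_zpow_smul_eq (z := v) (n := 1)
  simpa using this

theorem inv_of_gen {α : Type*} {F : ℍ → α} (hS : ∀ v, F (ModularGroup.S • v) = F v)
    (hT : ∀ v, F (ModularGroup.T • v) = F v) (g : SL(2, ℤ)) (v : ℍ) : F (g • v) = F v := by
  have hg : g ∈ Subgroup.closure {ModularGroup.S, ModularGroup.T} := by
    simp [SpecialLinearGroup.SL2Z_generators]
  induction hg using Subgroup.closure_induction generalizing v with
  | mem x hx =>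
    rcases hx with rfl | rfl
    · exact hS v
    · exact hT v
  | one => simp
  | mul x y _ _ ihx ihy => rw [mul_smul, ihx, ihy]
  | inv x _ ih =>
    have := ih (x⁻¹ • v)
    rw [smul_inv_smul] at this
    exact this.symm

/-! ### the height -/

/-- `Y(u) = Im u (|θ₂|⁴ + |θ₃|⁴ + |θ₄|⁴)` -/
noncomputable def Yf (u : ℂ) : ℝ := u.im * (‖th2 u‖ ^ 4 + ‖th3 u‖ ^ 4 + ‖th4 u‖ ^ 4)

noncomputable def la (u : ℂ) : ℝ := Real.log (‖th2 u‖ ^ 4)
noncomputable def lb (u : ℂ) : ℝ := Real.log (‖th3 u‖ ^ 4)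
noncomputable def lc (u : ℂ) : ℝ := Real.log (‖th4 u‖ ^ 4)

/-- the spread of `log |θ_j|⁴` -/
noncomputable def Df (u : ℂ) : ℝ :=
  max (max (la u) (lc u)) (lb u) - min (min (la u) (lc u)) (lb u)

theorem im_neg_inv (u : ℂ) : (-1 / u).im = u.im / ‖u‖ ^ 2 := by
  rw [neg_div, one_div, Complex.neg_im, Complex.inv_im, neg_div, neg_neg,
    Complex.normSq_eq_norm_sq]

theorem nS2 {u : ℂ} (h : 0 < u.im) : ‖th2 (-1 / u)‖ ^ 4 = ‖u‖ ^ 2 * ‖th4 u‖ ^ 4 := by
  rw [← norm_pow, th2_S4 h, norm_mul, norm_neg, norm_pow, norm_pow]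

theorem nS3 {u : ℂ} (h : 0 < u.im) : ‖th3 (-1 / u)‖ ^ 4 = ‖u‖ ^ 2 * ‖th3 u‖ ^ 4 := by
  rw [← norm_pow, th3_S4 h, norm_mul, norm_neg, norm_pow, norm_pow]

theorem nS4 {u : ℂ} (h : 0 < u.im) : ‖th4 (-1 / u)‖ ^ 4 = ‖u‖ ^ 2 * ‖th2 u‖ ^ 4 := by
  rw [← norm_pow, th4_S4 h, norm_mul, norm_neg, norm_pow, norm_pow]

theorem nT2 {u : ℂ} (h : 0 < u.im) : ‖th2 (u + 1)‖ ^ 4 = ‖th2 u‖ ^ 4 := by
  rw [← norm_pow, th2_T4 h, norm_neg, norm_pow]

theorem n2 {u : ℂ} (h : 0 < u.im) : 0 < ‖th2 u‖ ^ 4 := pow_pos (norm_pos_iff.2 (th2_ne h)) 4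
theorem n3 {u : ℂ} (h : 0 < u.im) : 0 < ‖th3 u‖ ^ 4 := pow_pos (norm_pos_iff.2 (th3_ne h)) 4
theorem n4 {u : ℂ} (h : 0 < u.im) : 0 < ‖th4 u‖ ^ 4 := pow_pos (norm_pos_iff.2 (th4_ne h)) 4

theorem Yf_S {u : ℂ} (h : 0 < u.im) : Yf (-1 / u) = Yf u := by
  unfold Yf
  rw [im_neg_inv, nS2 h, nS3 h, nS4 h]
  have : ‖u‖ ≠ 0 := norm_ne_zero_iff.2 (ne_zero_of_im h)
  field_simp
  ring

theorem Yf_T {u : ℂ} (h : 0 < u.im) : Yf (u + 1) = Yf u := by
  unfold Yf
  rw [nT2 h, th3_add_one h, th4_add_one h]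
  simp
  ring_nf
  simp

theorem Df_S {u : ℂ} (h : 0 < u.im) : Df (-1 / u) = Df u := by
  have hu : 0 < ‖u‖ ^ 2 := pow_pos (norm_pos_iff.2 (ne_zero_of_im h)) 2
  have e1 : la (-1 / u) = Real.log (‖u‖ ^ 2) + lc u := by
    unfold la lc
    rw [nS2 h, Real.log_mul hu.ne' (n4 h).ne']
  have e2 : lb (-1 / u) = Real.log (‖u‖ ^ 2) + lb u := by
    unfold lb
    rw [nS3 h, Real.log_mul hu.ne' (n3 h).ne']
  have e3 : lc (-1 / u) = Real.log (‖u‖ ^ 2) + la u := by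
    unfold la lc
    rw [nS4 h, Real.log_mul hu.ne' (n2 h).ne']
  unfold Df
  rw [e1, e2, e3, max_add_add_left, max_add_add_left, min_add_add_left, min_add_add_left,
    max_comm (lc u), min_comm (lc u)]
  ring

theorem Df_T {u : ℂ} (h : 0 < u.im) : Df (u + 1) = Df u := by
  have e1 : la (u + 1) = la u := by
    unfold la
    rw [nT2 h]
  have e2 : lb (u + 1) = lc u := by
    unfold lb lc
    rw [th3_add_one h]
  have e3 : lc (u + 1) = lb u := by
    unfold lb lc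
    rw [th4_add_one h]
  unfold Df
  rw [e1, e2, e3, max_right_comm, min_right_comm]

theorem Yf_inv (g : SL(2, ℤ)) (v : ℍ) : Yf ((g • v : ℍ) : ℂ) = Yf (v : ℂ) := by
  refine inv_of_gen (F := fun v : ℍ => Yf (v : ℂ)) (fun v => ?_) (fun v => ?_) g v
  · simp only [coe_S]
    exact Yf_S v.im_pos
  · simp only [coe_T]
    exact Yf_T v.im_pos

theorem Df_inv (g : SL(2, ℤ)) (v : ℍ) : Df ((g • v : ℍ) : ℂ) = Df (v : ℂ) := by
  refine inv_of_gen (F := fun v : ℍ => Df (v : ℂ)) (fun v => ?_) (fun v => ?_) g v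
  · simp only [coe_S]
    exact Df_S v.im_pos
  · simp only [coe_T]
    exact Df_T v.im_pos

/-! ### the fundamental domain -/

theorem exp_small {y : ℝ} (h : 0.86 ≤ y) : rexp (-π * y) ≤ 0.07 := by
  have h1 : (2.7 : ℝ) ≤ π * y := by
    have := Real.pi_gt_d2
    nlinarith
  have h2 : (14.3 : ℝ) ≤ rexp 2.7 := by
    have e : rexp 2.7 = rexp 1 ^ 2 * rexp 0.7 := by
      rw [← Real.exp_nat_mul, ← Real.exp_add]
      norm_num
    have h3 := Real.quadratic_le_exp_of_nonneg (by norm_num : (0 : ℝ) ≤ 0.7)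
    have h4 := Real.exp_one_gt_d9
    rw [e]
    nlinarith [Real.exp_pos 1, Real.exp_pos 0.7]
  have h3 : rexp (-π * y) ≤ rexp (-2.7) := Real.exp_le_exp.2 (by linarith)
  have h4 : rexp (-2.7) ≤ 14.3⁻¹ := by
    rw [Real.exp_neg]
    exact inv_anti₀ (by norm_num) h2
  refine h3.trans (h4.trans ?_)
  norm_num

theorem fd3 {u : ℂ} (h : 0.86 ≤ u.im) : 0.849 ≤ ‖th3 u‖ ∧ ‖th3 u‖ ≤ 1.151 := by
  have hp : 0 < u.im := by linarith
  have h1 := norm_th3 hp
  have h2 := exp_small h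
  have h3 := Real.exp_pos (-π * u.im)
  have h4 : 2 / (1 - rexp (-π * u.im)) * rexp (-π * u.im) ≤ 0.151 := by
    rw [div_mul_eq_mul_div, div_le_iff₀ (by linarith)]
    linarith
  have h5 := h1.trans h4
  have h6 := norm_sub_norm_le (1 : ℂ) (1 - th3 u)
  have h7 := norm_add_le (1 : ℂ) (th3 u - 1)
  rw [norm_sub_rev] at h6
  have e1 : (1 : ℂ) - (1 - th3 u) = th3 u := by ring
  have e2 : (1 : ℂ) + (th3 u - 1) = th3 u := by ring
  rw [norm_sub_rev, e1, norm_one, norm_sub_rev] at h6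
  rw [e2, norm_one] at h7
  constructor <;> linarith

theorem fd4 {u : ℂ} (h : 0.86 ≤ u.im) : 0.849 ≤ ‖th4 u‖ ∧ ‖th4 u‖ ≤ 1.151 := by
  have hp : 0 < u.im := by linarith
  rw [th4_eq hp]
  refine fd3 ?_
  simpa using h

theorem fdg {u : ℂ} (h : 0.86 ≤ u.im) : 0.995 ≤ ‖gg u‖ ∧ ‖gg u‖ ≤ 1.005 := by
  have hp : 0 < u.im := by linarith
  have h1 := norm_gg hp
  have h2 := exp_small h
  have h3 := Real.exp_pos (-π * u.im)
  have e : rexp (-(2 * π) * u.im) = rexp (-π * u.im) ^ 2 := by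
    rw [← Real.exp_nat_mul]
    congr 1
    push_cast
    ring
  have h8 : rexp (-(2 * π) * u.im) ≤ 0.0049 := by
    rw [e]
    nlinarith
  have h9 := Real.exp_pos (-(2 * π) * u.im)
  have h4 : (1 - rexp (-(2 * π) * u.im))⁻¹ * rexp (-(2 * π) * u.im) ≤ 0.005 := by
    rw [inv_mul_le_iff₀ (by linarith)]
    linarith
  have h5 := h1.trans h4
  have h6 := norm_sub_norm_le (1 : ℂ) (1 - gg u)
  have h7 := norm_add_le (1 : ℂ) (gg u - 1)
  have e1 : (1 : ℂ) - (1 - gg u) = gg u := by ring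
  have e2 : (1 : ℂ) + (gg u - 1) = gg u := by ring
  rw [e1, norm_one, norm_sub_rev] at h6
  rw [e2, norm_one] at h7
  constructor <;> linarith

theorem norm_th2 (u : ℂ) : ‖th2 u‖ ^ 4 = 16 * rexp (-π * u.im) * ‖gg u‖ ^ 4 := by
  rw [th2_gg, norm_mul, norm_mul, mul_pow, mul_pow, Complex.norm_exp, ← Real.exp_nat_mul]
  have e1 : ‖(2 : ℂ)‖ ^ 4 = 16 := by norm_num
  have e2 : ((4 : ℕ) : ℝ) * (π * Complex.I * u / 4).re = -π * u.im := by
    have e : π * Complex.I * u / 4 = ((π / 4 : ℝ) : ℂ) * (Complex.I * u) := by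
      push_cast
      ring
    rw [e, Complex.re_ofReal_mul]
    simp
    ring
  rw [e1, e2]

theorem pow4_bd {x a b : ℝ} (ha : 0 ≤ a) (h1 : a ≤ x) (h2 : x ≤ b) :
    a ^ 4 ≤ x ^ 4 ∧ x ^ 4 ≤ b ^ 4 :=
  ⟨pow_le_pow_left₀ ha h1 4, pow_le_pow_left₀ (ha.trans h1) h2 4⟩

theorem fd_im {v : ℍ} (h : v ∈ ModularGroup.fd) : 0.86 ≤ (v : ℂ).im := by
  have h1 := ModularGroup.three_le_four_mul_im_sq_of_mem_fd h
  have h2 : 0 < v.im := v.im_pos
  show (0.86 : ℝ) ≤ v.im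
  nlinarith

theorem Yf_lower_fd {u : ℂ} (h : 0.86 ≤ u.im) : 0.8 ≤ Yf u := by
  obtain ⟨a1, a2⟩ := fd3 h
  obtain ⟨b1, b2⟩ := fd4 h
  have a := (pow4_bd (by norm_num) a1 a2).1
  have b := (pow4_bd (by norm_num) b1 b2).1
  have c : 0 ≤ ‖th2 u‖ ^ 4 := by positivity
  unfold Yf
  norm_num at a b
  nlinarith

theorem Yf_upper_fd {u : ℂ} (h : 0.86 ≤ u.im) : Yf u ≤ 5 * u.im := by
  obtain ⟨a1, a2⟩ := fd3 h
  obtain ⟨b1, b2⟩ := fd4 h
  obtain ⟨c1, c2⟩ := fdg h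
  have a := (pow4_bd (by norm_num) a1 a2).2
  have b := (pow4_bd (by norm_num) b1 b2).2
  have c := (pow4_bd (by norm_num) c1 c2).2
  have d := exp_small h
  have e := Real.exp_pos (-π * u.im)
  unfold Yf
  rw [norm_th2]
  norm_num at a b c
  have f : 16 * rexp (-π * u.im) * ‖gg u‖ ^ 4 ≤ 1.2 := by
    have : 0 ≤ ‖gg u‖ ^ 4 := by positivity
    nlinarith
  have hp : 0 < u.im := by linarith
  nlinarith

theorem Df_nonneg (u : ℂ) : 0 ≤ Df u := by
  unfold Df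
  have h1 : lb u ≤ max (max (la u) (lc u)) (lb u) := le_max_right _ _
  have h2 : min (min (la u) (lc u)) (lb u) ≤ lb u := min_le_right _ _
  linarith

theorem log_lo {x c : ℝ} (hc : 0 < c) (h : c ≤ x) : Real.log c ≤ Real.log x :=
  Real.log_le_log hc h

theorem la_eq {u : ℂ} (h : 0 < u.im) :
    la u = Real.log 16 - π * u.im + Real.log (‖gg u‖ ^ 4) := by
  unfold la
  have h1 : 0 < ‖gg u‖ ^ 4 := pow_pos (norm_pos_iff.2 (gg_ne h)) 4
  rw [norm_th2, Real.log_mul (by positivity) h1.ne', Real.log_mul (by norm_num)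
    (Real.exp_pos _).ne', Real.log_exp]
  ring

theorem log16 : 2.77 ≤ Real.log 16 ∧ Real.log 16 ≤ 2.78 := by
  have e : Real.log 16 = 4 * Real.log 2 := by
    have : (16 : ℝ) = 2 ^ 4 := by norm_num
    rw [this, Real.log_pow]
    norm_num
  rw [e]
  have h1 := Real.log_two_gt_d9
  have h2 := Real.log_two_lt_d9
  constructor <;> linarith

/-- for `1/2 ≤ x ≤ 2` -/
theorem log_bd {x : ℝ} (h1 : 0.5 ≤ x) (h2 : x ≤ 2) : -0.7 ≤ Real.log x ∧ Real.log x ≤ 0.7 := by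
  have h3 := Real.log_two_lt_d9
  have h4 := Real.log_le_log (by norm_num) h1
  have h5 := Real.log_le_log (by linarith) h2
  have e : Real.log 0.5 = -Real.log 2 := by
    rw [← Real.log_inv]
    norm_num
  rw [e] at h4
  constructor <;> linarith

theorem lbc_bd {u : ℂ} (h : 0.86 ≤ u.im) :
    (-0.7 ≤ lb u ∧ lb u ≤ 0.7) ∧ (-0.7 ≤ lc u ∧ lc u ≤ 0.7) := by
  obtain ⟨a1, a2⟩ := fd3 h
  obtain ⟨b1, b2⟩ := fd4 h
  obtain ⟨a3, a4⟩ := pow4_bd (by norm_num) a1 a2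
  obtain ⟨b3, b4⟩ := pow4_bd (by norm_num) b1 b2
  norm_num at a3 a4 b3 b4
  exact ⟨log_bd (by linarith) (by linarith), log_bd (by linarith) (by linarith)⟩

theorem la_bd {u : ℂ} (h : 0.86 ≤ u.im) :
    2 - π * u.im ≤ la u ∧ la u ≤ 3.5 - π * u.im := by
  obtain ⟨c1, c2⟩ := fdg h
  obtain ⟨c3, c4⟩ := pow4_bd (by norm_num) c1 c2
  norm_num at c3 c4
  obtain ⟨c5, c6⟩ := log_bd (x := ‖gg u‖ ^ 4) (by linarith) (by linarith)
  rw [la_eq (by linarith)]
  obtain ⟨d1, d2⟩ := log16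
  constructor <;> linarith

theorem Df_lower_fd {u : ℂ} (h : 0.86 ≤ u.im) : π * u.im - 4.2 ≤ Df u := by
  obtain ⟨⟨b1, b2⟩, ⟨c1, c2⟩⟩ := lbc_bd h
  obtain ⟨a1, a2⟩ := la_bd h
  have h1 : lb u ≤ max (max (la u) (lc u)) (lb u) := le_max_right _ _
  have h2 : min (min (la u) (lc u)) (lb u) ≤ la u := (min_le_left _ _).trans (min_le_left _ _)
  unfold Df
  linarith

theorem Df_upper_fd {u : ℂ} (h : 0.86 ≤ u.im) : Df u ≤ π * u.im + 1.5 := by
  obtain ⟨⟨b1, b2⟩, ⟨c1, c2⟩⟩ := lbc_bd h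
  obtain ⟨a1, a2⟩ := la_bd h
  have hp : 2.7 ≤ π * u.im := by
    have := Real.pi_gt_d2
    nlinarith
  have h1 : max (max (la u) (lc u)) (lb u) ≤ 0.8 :=
    max_le (max_le (by linarith) (by linarith)) (by linarith)
  have h2 : min 2 0.8 - π * u.im ≤ min (min (la u) (lc u)) (lb u) := by
    have : min (2 : ℝ) 0.8 = 0.8 := by norm_num
    rw [this]
    exact le_min (le_min (by linarith) (by linarith)) (by linarith)
  have h3 : min (2 : ℝ) 0.8 = 0.8 := by norm_num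
  rw [h3] at h2
  unfold Df
  linarith

/-! ### the global bounds -/

theorem Yf_lower (v : ℍ) : 0.8 ≤ Yf (v : ℂ) := by
  obtain ⟨g, hg⟩ := ModularGroup.exists_smul_mem_fd v
  rw [← Yf_inv g v]
  exact Yf_lower_fd (fd_im hg)

theorem Yf_le_Df (v : ℍ) : Yf (v : ℂ) ≤ 2 * Df (v : ℂ) + 8 := by
  obtain ⟨g, hg⟩ := ModularGroup.exists_smul_mem_fd v
  rw [← Yf_inv g v, ← Df_inv g v]
  have h1 := Yf_upper_fd (fd_im hg)
  have h2 := Df_lower_fd (fd_im hg)
  have h3 := Real.pi_gt_d2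
  have h4 := fd_im hg
  nlinarith

theorem Df_le_Yf (v : ℍ) : Df (v : ℂ) ≤ 7 * Yf (v : ℂ) := by
  obtain ⟨g, hg⟩ := ModularGroup.exists_smul_mem_fd v
  rw [← Yf_inv g v, ← Df_inv g v]
  have h2 := Df_upper_fd (fd_im hg)
  have h3 := Real.pi_lt_d2
  have h4 := fd_im hg
  set u : ℂ := ((g • v : ℍ) : ℂ)
  obtain ⟨a1, a2⟩ := fd3 h4
  obtain ⟨b1, b2⟩ := fd4 h4
  have a := (pow4_bd (by norm_num) a1 a2).1
  have b := (pow4_bd (by norm_num) b1 b2).1
  norm_num at a b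
  have c : 0 ≤ ‖th2 u‖ ^ 4 := by positivity
  have d : u.im ≤ Yf u := by
    unfold Yf
    nlinarith
  nlinarith

theorem log_lam {u : ℂ} (h : 0 < u.im) : Real.log ‖lam u‖ = la u - lb u := by
  unfold lam la lb
  rw [norm_div, norm_pow, norm_pow, Real.log_div (n2 h).ne' (n3 h).ne']

theorem log_one_sub_lam {u : ℂ} (h : 0 < u.im) : Real.log ‖1 - lam u‖ = lc u - lb u := by
  rw [one_sub_lam h]
  unfold lc lb
  rw [norm_div, norm_pow, norm_pow, Real.log_div (n4 h).ne' (n3 h).ne']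

theorem abs_log_lam {u : ℂ} (h : 0 < u.im) : |Real.log ‖lam u‖| ≤ Df u := by
  rw [log_lam h, abs_le]
  have h1 : lb u ≤ max (max (la u) (lc u)) (lb u) := le_max_right _ _
  have h2 : min (min (la u) (lc u)) (lb u) ≤ lb u := min_le_right _ _
  have h3 : la u ≤ max (max (la u) (lc u)) (lb u) := (le_max_left _ _).trans (le_max_left _ _)
  have h4 : min (min (la u) (lc u)) (lb u) ≤ la u := (min_le_left _ _).trans (min_le_left _ _)
  unfold Df
  constructor <;> linarith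

theorem abs_log_one_sub_lam {u : ℂ} (h : 0 < u.im) : |Real.log ‖1 - lam u‖| ≤ Df u := by
  rw [log_one_sub_lam h, abs_le]
  have h1 : lb u ≤ max (max (la u) (lc u)) (lb u) := le_max_right _ _
  have h2 : min (min (la u) (lc u)) (lb u) ≤ lb u := min_le_right _ _
  have h3 : lc u ≤ max (max (la u) (lc u)) (lb u) := (le_max_right _ _).trans (le_max_left _ _)
  have h4 : min (min (la u) (lc u)) (lb u) ≤ lc u := (min_le_left _ _).trans (min_le_right _ _)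
  unfold Df
  constructor <;> linarith

theorem Df_le {u : ℂ} (h : 0 < u.im) :
    Df u ≤ |Real.log ‖lam u‖| + |Real.log ‖1 - lam u‖| := by
  rw [log_lam h, log_one_sub_lam h]
  have h1 := le_abs_self (la u - lb u)
  have h2 := neg_abs_le (la u - lb u)
  have h3 := le_abs_self (lc u - lb u)
  have h4 := neg_abs_le (lc u - lb u)
  have h5 := abs_nonneg (la u - lb u)
  have h6 := abs_nonneg (lc u - lb u)
  unfold Df
  have key : ∀ x, (x = la u ∨ x = lc u ∨ x = lb u) →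
      x - (|la u - lb u| + |lc u - lb u|) ≤ min (min (la u) (lc u)) (lb u) := by
    rintro x (rfl | rfl | rfl)
    · exact le_min (le_min (by linarith) (by linarith)) (by linarith)
    · exact le_min (le_min (by linarith) (by linarith)) (by linarith)
    · exact le_min (le_min (by linarith) (by linarith)) (by linarith)
  have k1 := key _ (Or.inl rfl)
  have k2 := key _ (Or.inr (Or.inl rfl))
  have k3 := key _ (Or.inr (Or.inr rfl))
  have k4 : max (max (la u) (lc u)) (lb u) ≤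
      min (min (la u) (lc u)) (lb u) + (|la u - lb u| + |lc u - lb u|) :=
    max_le (max_le (by linarith) (by linarith)) (by linarith)
  linarith

theorem log_two_add {x y z : ℝ} (hx : 0 < x) (hy : 0 < y) (h : x ≤ y + z) (hz : z ≤ y) :
    Real.log x ≤ Real.log 2 + Real.log y := by
  rw [← Real.log_mul two_ne_zero hy.ne']
  exact Real.log_le_log hx (by linarith)

theorem le_two_exp {x D : ℝ} (hx : 0 < x) (h : Real.log x ≤ Real.log 2 - D) :
    x ≤ 2 * rexp (-D) := by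
  have h1 := Real.exp_le_exp.2 h
  rw [Real.exp_log hx, sub_eq_add_neg, Real.exp_add, Real.exp_log two_pos] at h1
  exact h1

/-- `min(|λ|, |1 - λ|, 1/|λ|) ≤ 2 e^{-D}` -/
theorem min_le_exp {u : ℂ} (h : 0 < u.im) :
    ‖lam u‖ ≤ 2 * rexp (-Df u) ∨ ‖1 - lam u‖ ≤ 2 * rexp (-Df u) ∨
      ‖lam u‖⁻¹ ≤ 2 * rexp (-Df u) := by
  have j := jacobi h
  have a0 := n2 h
  have b0 := n3 h
  have c0 := n4 h
  have t3 : ‖th3 u‖ ^ 4 ≤ ‖th2 u‖ ^ 4 + ‖th4 u‖ ^ 4 := by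
    rw [← norm_pow, ← norm_pow, ← norm_pow, j]
    exact norm_add_le _ _
  have t2 : ‖th2 u‖ ^ 4 ≤ ‖th3 u‖ ^ 4 + ‖th4 u‖ ^ 4 := by
    rw [← norm_pow, ← norm_pow, ← norm_pow]
    have : th2 u ^ 4 = th3 u ^ 4 - th4 u ^ 4 := by rw [j]; ring
    rw [this]
    exact norm_sub_le _ _
  have t4 : ‖th4 u‖ ^ 4 ≤ ‖th3 u‖ ^ 4 + ‖th2 u‖ ^ 4 := by
    rw [← norm_pow, ← norm_pow, ← norm_pow]
    have : th4 u ^ 4 = th3 u ^ 4 - th2 u ^ 4 := by rw [j]; ring
    rw [this]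
    exact norm_sub_le _ _
  have l2 : 0 ≤ Real.log 2 := Real.log_nonneg one_le_two
  have p1 : 0 < ‖lam u‖ := norm_pos_iff.2 (lam_ne_zero h)
  have p2 : 0 < ‖1 - lam u‖ := norm_pos_iff.2 (sub_ne_zero.2 (lam_ne_one h).symm)
  have le_a : ∀ {x y : ℝ}, 0 < x → Real.log x ≤ Real.log y → 0 < y → x ≤ y := by
    intro x y hx hxy hy
    exact (Real.log_le_log_iff hx hy).1 hxy
  by_cases ha : la u ≤ lb u ∧ la u ≤ lc u
  · left
    refine le_two_exp p1 ?_
    rw [log_lam h]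
    have m1 : min (min (la u) (lc u)) (lb u) = la u := by
      rw [min_eq_left ha.2, min_eq_left ha.1]
    have hz : ‖th2 u‖ ^ 4 ≤ ‖th3 u‖ ^ 4 := le_a a0 ha.1 b0
    have q1 : lc u ≤ Real.log 2 + lb u := log_two_add c0 b0 t4 hz
    have m2 : max (max (la u) (lc u)) (lb u) ≤ Real.log 2 + lb u :=
      max_le (max_le (by linarith [ha.1]) q1) (by linarith)
    unfold Df
    rw [m1]
    linarith
  · by_cases hc : lc u ≤ lb u ∧ lc u ≤ la u
    · right; left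
      refine le_two_exp p2 ?_
      rw [log_one_sub_lam h]
      have m1 : min (min (la u) (lc u)) (lb u) = lc u := by
        rw [min_eq_right hc.2, min_eq_left hc.1]
      have hz : ‖th4 u‖ ^ 4 ≤ ‖th3 u‖ ^ 4 := le_a c0 hc.1 b0
      have q1 : la u ≤ Real.log 2 + lb u := log_two_add a0 b0 t2 hz
      have m2 : max (max (la u) (lc u)) (lb u) ≤ Real.log 2 + lb u :=
        max_le (max_le q1 (by linarith [hc.1])) (by linarith)
      unfold Df
      rw [m1]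
      linarith
    · right; right
      refine le_two_exp (inv_pos.2 p1) ?_
      rw [Real.log_inv, log_lam h]
      have hb : lb u ≤ la u ∧ lb u ≤ lc u := by
        rcases le_total (la u) (lb u) with h1 | h1
        · rcases le_total (la u) (lc u) with h2 | h2
          · exact absurd ⟨h1, h2⟩ ha
          · exact absurd ⟨h2.trans h1, h2⟩ hc
        · rcases le_total (lc u) (lb u) with h2 | h2
          · exact absurd ⟨h2, h2.trans h1⟩ hc
          · exact ⟨h1, h2⟩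
      have m1 : min (min (la u) (lc u)) (lb u) = lb u :=
        min_eq_right (le_min hb.1 hb.2)
      have hz : ‖th3 u‖ ^ 4 ≤ ‖th2 u‖ ^ 4 := le_a b0 hb.1 a0
      have q1 : lc u ≤ Real.log 2 + la u := by
        refine log_two_add c0 a0 ?_ hz
        linarith
      have m2 : max (max (la u) (lc u)) (lb u) ≤ Real.log 2 + la u :=
        max_le (max_le (by linarith) q1) (by linarith [hb.1])
      unfold Df
      rw [m1]
      linarith

/-- `Y` through `λ` -/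
theorem Yf_eq {u : ℂ} (h : 0 < u.im) :
    u.im * ‖deriv lam u‖ * (1 + ‖lam u‖ + ‖1 - lam u‖) / (‖lam u‖ * ‖1 - lam u‖) = π * Yf u := by
  rw [(hasDerivAt_lam h).deriv]
  have h1 : ‖lam u‖ ≠ 0 := norm_ne_zero_iff.2 (lam_ne_zero h)
  have h2 : ‖1 - lam u‖ ≠ 0 := norm_ne_zero_iff.2 (sub_ne_zero.2 (lam_ne_one h).symm)
  have h3 : ‖π * Complex.I * lam u * (1 - lam u) * th3 u ^ 4‖ =
      π * ‖lam u‖ * ‖1 - lam u‖ * ‖th3 u‖ ^ 4 := by
    rw [norm_mul, norm_mul, norm_mul, norm_mul, norm_pow, Complex.norm_real, Complex.norm_I,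
      Real.norm_of_nonneg Real.pi_pos.le, mul_one]
  rw [h3]
  have h4 : ‖th3 u‖ ^ 4 * ‖lam u‖ = ‖th2 u‖ ^ 4 := by
    unfold lam
    rw [norm_div, norm_pow, norm_pow]
    have := norm_ne_zero_iff.2 (th3_ne h)
    field_simp
  have h5 : ‖th3 u‖ ^ 4 * ‖1 - lam u‖ = ‖th4 u‖ ^ 4 := by
    rw [one_sub_lam h, norm_div, norm_pow, norm_pow]
    have := norm_ne_zero_iff.2 (th3_ne h)
    field_simp
  unfold Yf
  rw [← h4, ← h5]
  field_simp
  ring

/-- the two-sided bound for the height -/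
theorem Yf_le_log (v : ℍ) :
    Yf (v : ℂ) ≤ 2 * (|Real.log ‖lam v‖| + |Real.log ‖1 - lam v‖|) + 8 := by
  have h1 := Yf_le_Df v
  have h2 := Df_le v.im_pos
  exact h1.trans (by
    have : Df (v : ℂ) ≤ |Real.log ‖lam v‖| + |Real.log ‖1 - lam v‖| := h2
    linarith)

end Pool.Agent.Helper84.Lam
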