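import Pool.Agent.Helper84.Lam.Disc

/-!
# Lifting through `λ`
-/

set_option autoImplicit false

namespace Pool.Agent.Helper84.Lam

open Complex Real Filter Topology Set UpperHalfPlane

theorem strict_lam {u : ℂ} (h : 0 < u.im) : HasStrictDerivAt lam (deriv lam u) u := by
  have h1 : AnalyticAt ℂ lam u := by
    have h2 : DifferentiableOn ℂ lam {z : ℂ | 0 < z.im} := fun z hz =>
      (hasDerivAt_lam hz).differentiableAt.differentiableWithinAt
    exact h2.analyticAt ((isOpen_lt continuous_const Complex.continuous_im).mem_nhds h)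
  exact h1.hasStrictDerivAt

theorem deriv_lam_ne {u : ℂ} (h : 0 < u.im) : deriv lam u ≠ 0 := by
  rw [(hasDerivAt_lam h).deriv]
  have h1 := lam_ne_zero h
  have h2 : 1 - lam u ≠ 0 := sub_ne_zero.2 (lam_ne_one h).symm
  have h3 := th3_ne h
  have h5 : (π : ℂ) ≠ 0 := Complex.ofReal_ne_zero.2 Real.pi_ne_zero
  exact mul_ne_zero (mul_ne_zero (mul_ne_zero (mul_ne_zero h5 Complex.I_ne_zero) h1) h2)
    (pow_ne_zero 4 h3)

theorem exists_homeo {u : ℂ} (h : 0 < u.im) : ∃ e : OpenPartialHomeomorph ℂ ℂ,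
    u ∈ e.source ∧ (∀ x ∈ e.source, e x = lam x) ∧ (∀ x ∈ e.source, 0 < x.im) := by
  have h1 := (strict_lam h).hasStrictFDerivAt_equiv (deriv_lam_ne h)
  have ho : IsOpen {z : ℂ | 0 < z.im} := isOpen_lt continuous_const Complex.continuous_im
  refine ⟨(h1.toOpenPartialHomeomorph lam).restrOpen {z : ℂ | 0 < z.im} ho, ?_, ?_, ?_⟩
  · rw [OpenPartialHomeomorph.restrOpen_source]
    exact ⟨h1.mem_toOpenPartialHomeomorph_source, h⟩
  · intro x _
    rfl
  · intro x hx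
    rw [OpenPartialHomeomorph.restrOpen_source] at hx
    exact hx.2

/-- the speed bound -/
theorem speed {u : ℂ} (h : 0 < u.im) (d : ℂ) :
    ‖d / deriv lam u‖ ≤ (‖d‖ * (1 + ‖lam u‖ + ‖1 - lam u‖) / (‖lam u‖ * ‖1 - lam u‖)) * u.im := by
  have h1 := Yf_eq h
  have h2 : 1 ≤ π * Yf u := by
    have h3 : 0.8 ≤ Yf u := Yf_lower ⟨u, h⟩
    have := Real.pi_gt_d2
    nlinarith
  have h3 : 0 < ‖deriv lam u‖ := norm_pos_iff.2 (deriv_lam_ne h)
  have h4 : 0 < ‖lam u‖ := norm_pos_iff.2 (lam_ne_zero h)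
  have h5 : 0 < ‖1 - lam u‖ := norm_pos_iff.2 (sub_ne_zero.2 (lam_ne_one h).symm)
  rw [norm_div, div_le_iff₀ h3]
  have e : (‖d‖ * (1 + ‖lam u‖ + ‖1 - lam u‖) / (‖lam u‖ * ‖1 - lam u‖)) * u.im * ‖deriv lam u‖ =
      ‖d‖ * (π * Yf u) := by
    rw [← h1]
    ring
  rw [e]
  have := norm_nonneg d
  nlinarith

/-- A continuous lift is differentiable. -/
theorem lift_deriv {γ γ' u : ℝ → ℂ} {s : ℝ} (hγ : ∀ t ∈ Icc 0 s, HasDerivWithinAt γ (γ' t) (Icc 0 s) t)
    (hu : ContinuousOn u (Icc 0 s)) (him : ∀ t ∈ Icc 0 s, 0 < (u t).im)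
    (hl : ∀ t ∈ Icc 0 s, lam (u t) = γ t) {t : ℝ} (ht : t ∈ Icc 0 s) :
    HasDerivWithinAt u (γ' t / deriv lam (u t)) (Icc 0 s) t := by
  have h1 := strict_lam (him t ht)
  have h2 := deriv_lam_ne (him t ht)
  have h3 := (h1.to_localInverse h2).hasDerivAt
  have h4 := h1.eventually_left_inverse h2
  rw [hl t ht] at h3
  have h5 := h3.scomp_hasDerivWithinAt t (hγ t ht)
  have h6 : ∀ᶠ t' in 𝓝[Icc 0 s] t, h1.localInverse lam _ _ h2 (lam (u t')) = u t' :=
    (hu t ht).eventually h4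
  have h7 : u =ᶠ[𝓝[Icc 0 s] t] (h1.localInverse lam _ _ h2) ∘ γ := by
    filter_upwards [h6, self_mem_nhdsWithin] with t' ht' hts
    rw [Function.comp_apply, ← hl t' hts, ht']
  have h8 := h5.congr_of_eventuallyEq h7 (by
    have := h7.self_of_nhdsWithin ht
    exact this)
  refine h8.congr_deriv ?_
  rw [smul_eq_mul, div_eq_mul_inv]

/-- the a-priori region -/
def Reg (u0 : ℂ) (M : ℝ) : Set ℂ :=
  {u : ℂ | u0.im * rexp (-M) ≤ u.im ∧ ‖u - u0‖ ≤ M * (u0.im * rexp M)}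

theorem reg_compact (u0 : ℂ) (M : ℝ) : IsCompact (Reg u0 M) := by
  have h1 : IsClosed (Reg u0 M) := by
    have a : IsClosed {u : ℂ | u0.im * rexp (-M) ≤ u.im} :=
      isClosed_le continuous_const Complex.continuous_im
    have b : IsClosed {u : ℂ | ‖u - u0‖ ≤ M * (u0.im * rexp M)} :=
      isClosed_le (by fun_prop) continuous_const
    exact a.inter b
  refine (isCompact_closedBall u0 (M * (u0.im * rexp M))).of_isClosed_subset h1 fun u hu => ?_
  rw [Metric.mem_closedBall, dist_eq_norm]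
  exact hu.2

theorem reg_im {u0 : ℂ} (h : 0 < u0.im) {M : ℝ} {u : ℂ} (hu : u ∈ Reg u0 M) : 0 < u.im :=
  lt_of_lt_of_le (mul_pos h (Real.exp_pos _)) hu.1

theorem in_reg {γ γ' u : ℝ → ℂ} {s M : ℝ} (hs1 : s ≤ 1) (hM : 0 ≤ M)
    (hγ : ∀ t ∈ Icc 0 s, HasDerivWithinAt γ (γ' t) (Icc 0 s) t)
    (hB : ∀ t ∈ Icc 0 s, ‖γ' t‖ * (1 + ‖γ t‖ + ‖1 - γ t‖) / (‖γ t‖ * ‖1 - γ t‖) ≤ M)
    (hu : ContinuousOn u (Icc 0 s)) (him : ∀ t ∈ Icc 0 s, 0 < (u t).im)
    (hl : ∀ t ∈ Icc 0 s, lam (u t) = γ t) {t : ℝ} (ht : t ∈ Icc 0 s) : u t ∈ Reg (u 0) M := by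
  have hd : ∀ t ∈ Icc 0 s, HasDerivWithinAt u (γ' t / deriv lam (u t)) (Icc 0 s) t :=
    fun t ht => lift_deriv hγ hu him hl ht
  have hsp : ∀ t ∈ Icc 0 s, ‖γ' t / deriv lam (u t)‖ ≤ M * (u t).im := by
    intro t ht
    refine (speed (him t ht) _).trans ?_
    rw [hl t ht]
    exact mul_le_mul_of_nonneg_right (hB t ht) (him t ht).le
  have h0s : (0 : ℝ) ∈ Icc 0 s := ⟨le_refl _, ht.1.trans ht.2⟩
  have hre : ∀ t ∈ Icc 0 s, HasDerivWithinAt (fun t => Real.log (u t).im)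
      ((γ' t / deriv lam (u t)).im / (u t).im) (Icc 0 s) t := by
    intro t ht
    have h1 : HasDerivWithinAt (fun t => (u t).im) (γ' t / deriv lam (u t)).im (Icc 0 s) t := by
      have := (Complex.imCLM.hasFDerivAt (x := u t)).comp_hasDerivWithinAt t (hd t ht)
      exact this
    exact h1.log (him t ht).ne'
  have hlog : ∀ t ∈ Icc 0 s, |Real.log (u t).im - Real.log (u 0).im| ≤ M := by
    intro t ht
    have h3 := Convex.norm_image_sub_le_of_norm_hasDerivWithin_le (C := M) hre (fun t ht => by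
      rw [Real.norm_eq_abs, abs_div, abs_of_pos (him t ht), div_le_iff₀ (him t ht)]
      exact (Complex.abs_im_le_norm _).trans (hsp t ht)) (convex_Icc 0 s) h0s ht
    rw [Real.norm_eq_abs, Real.norm_eq_abs, sub_zero, abs_of_nonneg ht.1] at h3
    refine h3.trans ?_
    have : t ≤ 1 := ht.2.trans hs1
    nlinarith [ht.1]
  have hup : ∀ t ∈ Icc 0 s, (u t).im ≤ (u 0).im * rexp M := by
    intro t ht
    have h3 := (abs_le.1 (hlog t ht)).2
    have h4 : Real.log (u t).im ≤ Real.log (u 0).im + M := by linarith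
    have h5 := Real.exp_le_exp.2 h4
    rwa [Real.exp_add, Real.exp_log (him t ht), Real.exp_log (him 0 h0s)] at h5
  have hlo : (u 0).im * rexp (-M) ≤ (u t).im := by
    have h3 := (abs_le.1 (hlog t ht)).1
    have h4 : Real.log (u 0).im + -M ≤ Real.log (u t).im := by linarith
    have h5 := Real.exp_le_exp.2 h4
    rwa [Real.exp_add, Real.exp_log (him t ht), Real.exp_log (him 0 h0s)] at h5
  refine ⟨hlo, ?_⟩
  have h6 := Convex.norm_image_sub_le_of_norm_hasDerivWithin_le (C := M * ((u 0).im * rexp M)) hd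
    (fun t ht => (hsp t ht).trans (mul_le_mul_of_nonneg_left (hup t ht) hM)) (convex_Icc 0 s)
    h0s ht
  refine h6.trans ?_
  rw [Real.norm_eq_abs, sub_zero, abs_of_nonneg ht.1]
  have h7 : 0 ≤ M * ((u 0).im * rexp M) := by
    have := him 0 h0s
    positivity
  have : t ≤ 1 := ht.2.trans hs1
  nlinarith [ht.1]

/-- Uniform local lifting. -/
theorem local_uniform {γ : ℝ → ℂ} (hγ : ContinuousOn γ (Icc 0 1)) {K : Set ℂ} (hK : IsCompact K)
    (hKim : ∀ u ∈ K, 0 < u.im) : ∃ ε > 0, ∀ s ∈ Icc (0 : ℝ) 1, ∀ u ∈ K, lam u = γ s →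
      ∃ v : ℝ → ℂ, ContinuousOn v (Icc s (s + ε) ∩ Icc 0 1) ∧ v s = u ∧
        ∀ t ∈ Icc s (s + ε) ∩ Icc 0 1, 0 < (v t).im ∧ lam (v t) = γ t := by
  have hc : IsCompact (Icc (0 : ℝ) 1 ×ˢ K) := isCompact_Icc.prod hK
  set P : Set (ℝ × ℂ) → Prop := fun T => ∃ ε > 0, ∀ x ∈ T, x.1 ∈ Icc (0 : ℝ) 1 → x.2 ∈ K →
    lam x.2 = γ x.1 → ∃ v : ℝ → ℂ, ContinuousOn v (Icc x.1 (x.1 + ε) ∩ Icc 0 1) ∧ v x.1 = x.2 ∧
        ∀ t ∈ Icc x.1 (x.1 + ε) ∩ Icc 0 1, 0 < (v t).im ∧ lam (v t) = γ t with hP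
  have key : P (Icc (0 : ℝ) 1 ×ˢ K) := by
    refine hc.induction_on ?_ ?_ ?_ ?_
    · exact ⟨1, one_pos, fun x hx => absurd hx (notMem_empty x)⟩
    · rintro T T' hTT' ⟨ε, h1, h2⟩
      exact ⟨ε, h1, fun x hx => h2 x (hTT' hx)⟩
    · rintro T T' ⟨ε, h1, h2⟩ ⟨ε', h1', h2'⟩
      refine ⟨min ε ε', lt_min h1 h1', fun x hx hx1 hx2 hx3 => ?_⟩
      rcases hx with hx | hx
      · obtain ⟨v, v1, v2, v3⟩ := h2 x hx hx1 hx2 hx3
        have hs : Icc x.1 (x.1 + min ε ε') ∩ Icc 0 1 ⊆ Icc x.1 (x.1 + ε) ∩ Icc 0 1 :=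
          inter_subset_inter_left _ (Icc_subset_Icc_right (by
            have := min_le_left ε ε'
            linarith))
        exact ⟨v, v1.mono hs, v2, fun t ht => v3 t (hs ht)⟩
      · obtain ⟨v, v1, v2, v3⟩ := h2' x hx hx1 hx2 hx3
        have hs : Icc x.1 (x.1 + min ε ε') ∩ Icc 0 1 ⊆ Icc x.1 (x.1 + ε') ∩ Icc 0 1 :=
          inter_subset_inter_left _ (Icc_subset_Icc_right (by
            have := min_le_right ε ε'
            linarith))
        exact ⟨v, v1.mono hs, v2, fun t ht => v3 t (hs ht)⟩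
    · rintro ⟨s0, u1⟩ ⟨hs0, hu1⟩
      simp only at hs0 hu1
      obtain ⟨e, e1, e2, e3⟩ := exists_homeo (hKim u1 hu1)
      by_cases hne : lam u1 = γ s0
      · -- `γ s0 ∈ e.target`
        have ht0 : γ s0 ∈ e.target := by
          rw [← hne, ← e2 u1 e1]
          exact e.map_source e1
        have hnb : e.target ∈ 𝓝 (γ s0) := e.open_target.mem_nhds ht0
        have h3 : ∀ᶠ t in 𝓝[Icc 0 1] s0, γ t ∈ e.target := (hγ s0 hs0).eventually hnb
        rw [eventually_nhdsWithin_iff, Metric.eventually_nhds_iff] at h3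
        obtain ⟨δ, hδ, h4⟩ := h3
        refine ⟨(Metric.ball s0 (δ / 2) ×ˢ e.source) ∩ (Icc (0 : ℝ) 1 ×ˢ K), ?_, δ / 2,
          half_pos hδ, ?_⟩
        · refine inter_mem (mem_nhdsWithin_of_mem_nhds ?_) self_mem_nhdsWithin
          exact prod_mem_nhds (Metric.ball_mem_nhds _ (half_pos hδ)) (e.open_source.mem_nhds e1)
        · rintro ⟨s, u⟩ ⟨⟨hs, hu⟩, -⟩ hs1 huK hlu
          simp only at hs hu hs1 huK hlu ⊢
          have hin : ∀ t ∈ Icc s (s + δ / 2) ∩ Icc 0 1, γ t ∈ e.target := by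
            rintro t ⟨ht1, ht2⟩
            refine h4 ?_ ht2
            rw [Metric.mem_ball, Real.dist_eq, abs_lt] at hs
            rw [Real.dist_eq, abs_lt]
            constructor <;> linarith [ht1.1, ht1.2, hs.1, hs.2]
          refine ⟨fun t => e.symm (γ t), ?_, ?_, ?_⟩
          · refine e.continuousOn_symm.comp (hγ.mono inter_subset_right) hin
          · simp only
            rw [← hlu, ← e2 u hu]
            exact e.left_inv hu
          · intro t ht
            have h5 := e.map_target (hin t ht)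
            refine ⟨e3 _ h5, ?_⟩
            rw [← e2 _ h5]
            exact e.right_inv (hin t ht)
      · -- not equal nearby
        have hl : ContinuousAt lam u1 := (hasDerivAt_lam (hKim u1 hu1)).continuousAt
        have h3 : ContinuousWithinAt (fun x : ℝ × ℂ => lam x.2 - γ x.1) (Icc (0 : ℝ) 1 ×ˢ K) (s0, u1) := by
          refine ContinuousWithinAt.sub ?_ ?_
          · exact (ContinuousAt.comp (f := fun x : ℝ × ℂ => x.2) (x := (s0, u1)) hl
              continuousAt_snd).continuousWithinAt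
          · exact ContinuousWithinAt.comp (f := fun x : ℝ × ℂ => x.1) (hγ s0 hs0)
              continuousWithinAt_fst (fun x hx => hx.1)
        have h4 := h3.preimage_mem_nhdsWithin (isOpen_ne.mem_nhds (sub_ne_zero.2 hne))
        refine ⟨_, h4, 1, one_pos, ?_⟩
        intro x hx _ _ hx3
        exact absurd (sub_eq_zero.2 hx3) hx
  obtain ⟨ε, h1, h2⟩ := key
  exact ⟨ε, h1, fun s hs u hu hlu => h2 (s, u) ⟨hs, hu⟩ hs hu hlu⟩

/-- **Path lifting.** -/
theorem path_lift {γ γ' : ℝ → ℂ} (hγ : ∀ t ∈ Icc (0 : ℝ) 1, HasDerivWithinAt γ (γ' t) (Icc 0 1) t)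
    {M : ℝ} (hM : 0 ≤ M)
    (hB : ∀ t ∈ Icc (0 : ℝ) 1, ‖γ' t‖ * (1 + ‖γ t‖ + ‖1 - γ t‖) / (‖γ t‖ * ‖1 - γ t‖) ≤ M)
    {u0 : ℂ} (hu0 : 0 < u0.im) (he : lam u0 = γ 0) :
    ∃ u : ℝ → ℂ, ContinuousOn u (Icc 0 1) ∧ u 0 = u0 ∧
      ∀ t ∈ Icc (0 : ℝ) 1, 0 < (u t).im ∧ lam (u t) = γ t := by
  have hγc : ContinuousOn γ (Icc 0 1) := fun t ht => (hγ t ht).continuousWithinAt
  obtain ⟨ε, hε, hloc⟩ := local_uniform hγc (reg_compact u0 M) (fun u hu => reg_im hu0 hu)
  have step : ∀ n : ℕ, ∃ u : ℝ → ℂ, ContinuousOn u (Icc 0 (min (n * ε) 1)) ∧ u 0 = u0 ∧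
      ∀ t ∈ Icc (0 : ℝ) (min (n * ε) 1), 0 < (u t).im ∧ lam (u t) = γ t := by
    intro n
    induction n with
    | zero =>
      have e : min (((0 : ℕ) : ℝ) * ε) 1 = 0 := by simp
      rw [e]
      refine ⟨fun _ => u0, continuousOn_const, rfl, fun t ht => ?_⟩
      have : t = 0 := le_antisymm ht.2 ht.1
      rw [this]
      exact ⟨hu0, he⟩
    | succ n ih =>
      obtain ⟨u, u1, u2, u3⟩ := ih
      set s := min ((n : ℝ) * ε) 1 with hs
      have hs0 : 0 ≤ s := le_min (by positivity) zero_le_one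
      have hs1 : s ≤ 1 := min_le_right _ _
      have hsub : Icc 0 s ⊆ Icc (0 : ℝ) 1 := Icc_subset_Icc_right hs1
      have hsm : s ∈ Icc (0 : ℝ) s := ⟨hs0, le_refl _⟩
      have hreg : u s ∈ Reg u0 M := by
        have := in_reg hs1 hM (fun t ht => (hγ t (hsub ht)).mono hsub) (fun t ht => hB t (hsub ht)) u1
          (fun t ht => (u3 t ht).1) (fun t ht => (u3 t ht).2) hsm
        rwa [u2] at this
      obtain ⟨v, v1, v2, v3⟩ := hloc s (hsub hsm) (u s) hreg (u3 s hsm).2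
      set s' := min (((n + 1 : ℕ) : ℝ) * ε) 1 with hs'
      have hss' : s' ≤ s + ε := by
        rcases min_choice ((n : ℝ) * ε) 1 with h | h
        · rw [hs, h]
          refine (min_le_left _ _).trans ?_
          push_cast
          linarith
        · rw [hs, h]
          refine (min_le_right _ _).trans ?_
          linarith
      have hs'1 : s' ≤ 1 := min_le_right _ _
      have hle : s ≤ s' := by
        rw [hs, hs']
        refine min_le_min ?_ (le_refl _)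
        push_cast
        nlinarith
      have hv : Icc s s' ⊆ Icc s (s + ε) ∩ Icc 0 1 := fun t ht =>
        ⟨⟨ht.1, ht.2.trans hss'⟩, ⟨hs0.trans ht.1, ht.2.trans hs'1⟩⟩
      set w : ℝ → ℂ := fun t => if t ≤ s then u t else v t with hw
      have hw1 : ∀ t ∈ Icc 0 s, w t = u t := fun t ht => if_pos ht.2
      have hw2 : ∀ t ∈ Icc s s', w t = v t := by
        intro t ht
        rcases eq_or_lt_of_le ht.1 with h | h
        · rw [← h, v2]
          exact if_pos (le_refl _)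
        · exact if_neg (not_le.2 h)
      have hun : Icc 0 s ∪ Icc s s' = Icc 0 s' := Icc_union_Icc_eq_Icc hs0 hle
      refine ⟨w, ?_, ?_, ?_⟩
      · rw [← hun]
        exact (u1.congr hw1).union_of_isClosed ((v1.mono hv).congr hw2) isClosed_Icc isClosed_Icc
      · rw [hw1 0 ⟨le_refl _, hs0⟩, u2]
      · intro t ht
        rw [← hun] at ht
        rcases ht with ht | ht
        · rw [hw1 t ht]
          exact u3 t ht
        · rw [hw2 t ht]
          exact v3 t (hv ht)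
  obtain ⟨n, hn⟩ := exists_nat_ge (1 / ε)
  obtain ⟨u, u1, u2, u3⟩ := step n
  have e : min ((n : ℝ) * ε) 1 = 1 := by
    refine min_eq_right ?_
    rwa [div_le_iff₀ hε] at hn
  rw [e] at u1 u3
  exact ⟨u, u1, u2, u3⟩

theorem lam_localHomeo : IsLocalHomeomorph (fun v : ℍ => lam (v : ℂ)) := by
  refine IsLocalHomeomorph.mk _ fun v => ?_
  obtain ⟨e, e1, e2, e3⟩ := exists_homeo v.im_pos
  have hne : Nonempty ℍ := ⟨v⟩
  refine ⟨(UpperHalfPlane.isOpenEmbedding_coe.toOpenPartialHomeomorph _).trans e, ?_, ?_⟩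
  · rw [OpenPartialHomeomorph.trans_source]
    exact ⟨mem_univ _, e1⟩
  · intro x hx
    rw [OpenPartialHomeomorph.trans_source] at hx
    exact (e2 _ hx.2).symm

/-- **Lifting of analytic functions through `λ`.** -/
theorem lift_lam {R : ℝ} {L : ℂ → ℂ} (hL : DifferentiableOn ℂ L (Metric.ball 0 R))
    (h0 : ∀ z ∈ Metric.ball (0 : ℂ) R, L z ≠ 0) (h1 : ∀ z ∈ Metric.ball (0 : ℂ) R, L z ≠ 1)
    {u0 : ℂ} (hu0 : 0 < u0.im) (he : lam u0 = L 0) :
    ∃ u : ℂ → ℂ, DifferentiableOn ℂ u (Metric.ball 0 R) ∧ u 0 = u0 ∧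
      ∀ z ∈ Metric.ball (0 : ℂ) R, 0 < (u z).im ∧ lam (u z) = L z := by
  have hmem : ∀ z ∈ Metric.ball (0 : ℂ) R, ∀ t ∈ Icc (0 : ℝ) 1, (t : ℂ) * z ∈ Metric.ball (0 : ℂ) R := by
    intro z hz t ht
    rw [Metric.mem_ball, dist_zero_right] at hz ⊢
    rw [norm_mul, Complex.norm_real, Real.norm_of_nonneg ht.1]
    exact lt_of_le_of_lt (mul_le_of_le_one_left (norm_nonneg z) ht.2) hz
  -- path lifts
  have hpath : ∀ z : Metric.ball (0 : ℂ) R, ∃ u : ℝ → ℂ, ContinuousOn u (Icc 0 1) ∧ u 0 = u0 ∧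
      ∀ t ∈ Icc (0 : ℝ) 1, 0 < (u t).im ∧ lam (u t) = L (t * z) := by
    rintro ⟨z, hz⟩
    have hd : ∀ t ∈ Icc (0 : ℝ) 1, HasDerivWithinAt (fun t : ℝ => L (t * z))
        (deriv L (t * z) * z) (Icc 0 1) t := by
      intro t ht
      have h2 : DifferentiableAt ℂ L (t * z) :=
        hL.differentiableAt (Metric.isOpen_ball.mem_nhds (hmem z hz t ht))
      have h3 : HasDerivAt (fun t : ℝ => (t : ℂ) * z) z t := by
        simpa using (hasDerivAt_id t).ofReal_comp.mul_const z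
      have h4 := h2.hasDerivAt.scomp t h3
      refine HasDerivAt.hasDerivWithinAt (h4.congr_deriv ?_)
      rw [smul_eq_mul, mul_comm]
    have hLc : ContinuousOn (fun t : ℝ => L (t * z)) (Icc 0 1) := fun t ht =>
      (hd t ht).continuousWithinAt
    have hL'c : ContinuousOn (fun t : ℝ => deriv L (t * z) * z) (Icc 0 1) := by
      have h5 : ContinuousOn (deriv L) (Metric.ball 0 R) := (hL.deriv Metric.isOpen_ball).continuousOn
      have h6 : ContinuousOn (fun t : ℝ => (t : ℂ) * z) (Icc 0 1) := by fun_prop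
      exact (h5.comp h6 (fun t ht => hmem z hz t ht)).mul continuousOn_const
    have hBc : ContinuousOn (fun t : ℝ => ‖deriv L (t * z) * z‖ * (1 + ‖L (t * z)‖ + ‖1 - L (t * z)‖) /
        (‖L (t * z)‖ * ‖1 - L (t * z)‖)) (Icc 0 1) := by
      refine ContinuousOn.div ?_ ?_ ?_
      · exact hL'c.norm.mul ((continuousOn_const.add hLc.norm).add (continuousOn_const.sub hLc).norm)
      · exact hLc.norm.mul (continuousOn_const.sub hLc).norm
      · intro t ht
        have h7 := h0 _ (hmem z hz t ht)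
        have h8 := h1 _ (hmem z hz t ht)
        exact mul_ne_zero (norm_ne_zero_iff.2 h7) (norm_ne_zero_iff.2 (sub_ne_zero.2 h8.symm))
    obtain ⟨M, hM⟩ := isCompact_Icc.bddAbove_image hBc
    have hM' : ∀ t ∈ Icc (0 : ℝ) 1, ‖deriv L (t * z) * z‖ * (1 + ‖L (t * z)‖ + ‖1 - L (t * z)‖) /
        (‖L (t * z)‖ * ‖1 - L (t * z)‖) ≤ max M 0 := fun t ht =>
      (hM (mem_image_of_mem _ ht)).trans (le_max_left _ _)
    have he' : lam u0 = L (((0 : ℝ) : ℂ) * z) := by rw [he]; simp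
    exact path_lift (γ := fun t : ℝ => L (t * z)) hd (le_max_right M 0) hM' hu0 he'
  choose U U1 U2 U3 using hpath
  -- joint continuity
  set f : C(unitInterval × Metric.ball (0 : ℂ) R, ℂ) :=
    ⟨fun x => L ((x.1 : ℝ) * (x.2 : ℂ)), by
      have h5 : Continuous (fun x : unitInterval × Metric.ball (0 : ℂ) R =>
          (((x.1 : ℝ) : ℂ) * (x.2 : ℂ))) := by fun_prop
      exact hL.continuousOn.comp_continuous h5 (fun x => hmem _ x.2.2 _ x.1.2)⟩ with hf
  set g : unitInterval × Metric.ball (0 : ℂ) R → ℍ := fun x =>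
    ⟨U x.2 (x.1 : ℝ), (U3 x.2 _ x.1.2).1⟩ with hg
  have hlift : (fun v : ℍ => lam (v : ℂ)) ∘ g = f := by
    funext x
    exact (U3 x.2 _ x.1.2).2
  have hc0 : Continuous (g ⟨0, ·⟩) := by
    have e : (fun a => g ⟨0, a⟩) = fun _ => (⟨u0, hu0⟩ : ℍ) := by
      funext a
      apply UpperHalfPlane.ext
      exact U2 a
    exact e ▸ continuous_const
  have hcA : ∀ a, Continuous (g ⟨·, a⟩) := by
    intro a
    rw [UpperHalfPlane.isOpenEmbedding_coe.toIsEmbedding.continuous_iff]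
    exact (U1 a).comp_continuous continuous_subtype_val (fun t => t.2)
  have hcont : Continuous g := lam_localHomeo.continuous_lift (T2Space.isSeparatedMap _) f hlift hc0 hcA
  classical
  set u : ℂ → ℂ := fun z => if h : z ∈ Metric.ball (0 : ℂ) R then ((g ⟨1, ⟨z, h⟩⟩ : ℍ) : ℂ) else u0
    with hu
  have huz : ∀ z (h : z ∈ Metric.ball (0 : ℂ) R), u z = ((g ⟨1, ⟨z, h⟩⟩ : ℍ) : ℂ) := fun z h =>
    dif_pos h
  have hprop : ∀ z ∈ Metric.ball (0 : ℂ) R, 0 < (u z).im ∧ lam (u z) = L z := by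
    intro z hz
    rw [huz z hz]
    refine ⟨UpperHalfPlane.im_pos _, ?_⟩
    have h5 := congrFun hlift ⟨1, ⟨z, hz⟩⟩
    rw [Function.comp_apply] at h5
    rw [h5, hf]
    simp
  have hucont : ContinuousOn u (Metric.ball 0 R) := by
    rw [continuousOn_iff_continuous_restrict]
    have e : (Metric.ball (0 : ℂ) R).domRestrict u = fun z => ((g ⟨1, z⟩ : ℍ) : ℂ) := by
      funext z
      exact huz z z.2
    rw [e]
    exact UpperHalfPlane.continuous_coe.comp (hcont.comp (by fun_prop))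
  refine ⟨u, ?_, ?_, hprop⟩
  · intro z hz
    have h5 := strict_lam (hprop z hz).1
    have h6 := deriv_lam_ne (hprop z hz).1
    have h7 := (h5.to_localInverse h6).hasDerivAt.differentiableAt
    have h8 := h5.eventually_left_inverse h6
    rw [(hprop z hz).2] at h7
    have h9 : ContinuousAt u z := hucont.continuousAt (Metric.isOpen_ball.mem_nhds hz)
    have h10 := h9.eventually h8
    have h11 : u =ᶠ[𝓝 z] (h5.localInverse lam _ _ h6) ∘ L := by
      filter_upwards [h10, Metric.isOpen_ball.mem_nhds hz] with w hw hwb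
      rw [Function.comp_apply, ← (hprop w hwb).2, hw]
    have h12 : DifferentiableAt ℂ ((h5.localInverse lam _ _ h6) ∘ L) z :=
      DifferentiableAt.comp z h7 (hL.differentiableAt (Metric.isOpen_ball.mem_nhds hz))
    exact (h12.congr_of_eventuallyEq h11).differentiableWithinAt
  · by_cases hR : (0 : ℂ) ∈ Metric.ball (0 : ℂ) R
    · rw [huz 0 hR]
      have h5 : ∀ t ∈ Icc (0 : ℝ) 1, U ⟨0, hR⟩ t = u0 := by
        -- the path is constant
        have hcst : Continuous (g ⟨·, ⟨0, hR⟩⟩) := hcA ⟨0, hR⟩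
        have h6 := (T2Space.isSeparatedMap (fun v : ℍ => lam (v : ℂ))).const_of_comp
          lam_localHomeo.isLocallyInjective hcst (by
            intro t t'
            have h7 := congrFun hlift ⟨t, ⟨0, hR⟩⟩
            have h8 := congrFun hlift ⟨t', ⟨0, hR⟩⟩
            rw [Function.comp_apply] at h7 h8
            rw [h7, h8, hf]
            simp)
        intro t ht
        have h9 := h6 ⟨t, ht⟩ 0
        have h10 := congrArg (fun v : ℍ => (v : ℂ)) h9
        have h11 : U ⟨0, hR⟩ t = U ⟨0, hR⟩ 0 := h10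
        rw [h11, U2]
      exact h5 1 ⟨zero_le_one, le_refl _⟩
    · exact dif_neg hR

/-- the inverse Cayley map -/
noncomputable def yc (u : ℂ) : ℂ := (u - Complex.I) / (u + Complex.I)

theorem add_I_ne {u : ℂ} (h : 0 < u.im) : u + Complex.I ≠ 0 := by
  intro h0
  have := congrArg Complex.im h0
  simp at this
  linarith

theorem norm_yc {u : ℂ} (h : 0 < u.im) : ‖yc u‖ < 1 := by
  unfold yc
  rw [norm_div, div_lt_one (norm_pos_iff.2 (add_I_ne h))]
  have h1 : ‖u - Complex.I‖ ^ 2 < ‖u + Complex.I‖ ^ 2 := by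
    rw [← Complex.normSq_eq_norm_sq, ← Complex.normSq_eq_norm_sq, Complex.normSq_apply,
      Complex.normSq_apply]
    simp
    nlinarith
  exact lt_of_pow_lt_pow_left₀ 2 (norm_nonneg _) h1

theorem cy_yc {u : ℂ} (h : 0 < u.im) : cy (yc u) = u := by
  have h1 := add_I_ne h
  have e1 : 1 - yc u = 2 * Complex.I / (u + Complex.I) := by
    unfold yc
    field_simp
    ring
  have e2 : 1 + yc u = 2 * u / (u + Complex.I) := by
    unfold yc
    field_simp
    ring
  unfold cy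
  rw [e1, e2]
  have := Complex.I_ne_zero
  field_simp

theorem yc_cy {w : ℂ} (h : ‖w‖ < 1) : yc (cy w) = w := by
  have h1 := one_sub_ne h
  have e1 : cy w - Complex.I = 2 * Complex.I * w / (1 - w) := by
    unfold cy
    field_simp
    ring
  have e2 : cy w + Complex.I = 2 * Complex.I / (1 - w) := by
    unfold cy
    field_simp
    ring
  unfold yc
  rw [e1, e2]
  have := Complex.I_ne_zero
  field_simp

/-- **Lifting of analytic functions through `lamD`.** -/
theorem lift_lamD {R : ℝ} {L : ℂ → ℂ} (hL : DifferentiableOn ℂ L (Metric.ball 0 R))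
    (h0 : ∀ z ∈ Metric.ball (0 : ℂ) R, L z ≠ 0) (h1 : ∀ z ∈ Metric.ball (0 : ℂ) R, L z ≠ 1)
    {b0 : ℂ} (hb0 : ‖b0‖ < 1) (he : lamD b0 = L 0) :
    ∃ b : ℂ → ℂ, DifferentiableOn ℂ b (Metric.ball 0 R) ∧ b 0 = b0 ∧
      ∀ z ∈ Metric.ball (0 : ℂ) R, ‖b z‖ < 1 ∧ lamD (b z) = L z := by
  obtain ⟨u, u1, u2, u3⟩ := lift_lam hL h0 h1 (cy_im_pos hb0) he
  refine ⟨fun z => yc (u z), ?_, ?_, ?_⟩
  · intro z hz
    have h2 := add_I_ne (u3 z hz).1
    have h3 := u1 z hz
    unfold yc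
    exact (h3.sub_const _).div (h3.add_const _) h2
  · show yc (u 0) = b0
    rw [u2, yc_cy hb0]
  · intro z hz
    refine ⟨norm_yc (u3 z hz).1, ?_⟩
    unfold lamD
    rw [cy_yc (u3 z hz).1]
    exact (u3 z hz).2

end Pool.Agent.Helper84.Lam
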