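import Pool.Agent.Helper84.Lam.QExp

/-!
# The height is hyperbolically Lipschitz
-/

set_option autoImplicit false

namespace Pool.Agent.Helper84.Lam

open Complex Real Filter Topology UpperHalfPlane ModularGroup MatrixGroups

/-- `|u - v|² / (Im u Im v)` -/
noncomputable def Qd (u v : ℂ) : ℝ := ‖u - v‖ ^ 2 / (u.im * v.im)

theorem Qd_S {u v : ℂ} (hu : 0 < u.im) (hv : 0 < v.im) : Qd (-1 / u) (-1 / v) = Qd u v := by
  have u0 := ne_zero_of_im hu
  have v0 := ne_zero_of_im hv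
  have e : -1 / u - -1 / v = (u - v) / (u * v) := by
    field_simp
    ring
  unfold Qd
  rw [e, im_neg_inv, im_neg_inv, norm_div, norm_mul]
  have u1 : ‖u‖ ≠ 0 := norm_ne_zero_iff.2 u0
  have v1 : ‖v‖ ≠ 0 := norm_ne_zero_iff.2 v0
  field_simp

theorem Qd_T (u v : ℂ) : Qd (u + 1) (v + 1) = Qd u v := by
  unfold Qd
  have e : u + 1 - (v + 1) = u - v := by ring
  rw [e]
  simp

theorem Qd_inv (g : SL(2, ℤ)) (u v : ℍ) :
    Qd ((g • u : ℍ) : ℂ) ((g • v : ℍ) : ℂ) = Qd (u : ℂ) (v : ℂ) := by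
  have hg : g ∈ Subgroup.closure {ModularGroup.S, ModularGroup.T} := by
    simp [SpecialLinearGroup.SL2Z_generators]
  induction hg using Subgroup.closure_induction generalizing u v with
  | mem x hx =>
    rcases hx with rfl | rfl
    · rw [coe_S, coe_S]
      exact Qd_S u.im_pos v.im_pos
    · rw [coe_T, coe_T]
      exact Qd_T _ _
  | one => simp
  | mul x y _ _ ihx ihy => rw [mul_smul, mul_smul, ihx, ihy]
  | inv x _ ih =>
    have := ih (x⁻¹ • u) (x⁻¹ • v)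
    rw [smul_inv_smul, smul_inv_smul] at this
    exact this.symm

/-- small hyperbolic distances, seen at another place -/
theorem near {u v u' v' : ℂ} {δ : ℝ} (hu : 0 < u.im) (hu' : 0 < u'.im)
    (hv' : 0 < v'.im) (hQ : Qd u' v' = Qd u v) (h0 : 0 ≤ δ) (h1 : δ ≤ 1 / 8)
    (h : ‖u - v‖ ≤ δ * u.im) : ‖u' - v'‖ ≤ 2 * δ * u'.im := by
  have i1 : |(u - v).im| ≤ ‖u - v‖ := Complex.abs_im_le_norm _
  rw [Complex.sub_im, abs_le] at i1
  have i2 : |(u' - v').im| ≤ ‖u' - v'‖ := Complex.abs_im_le_norm _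
  rw [Complex.sub_im] at i2
  have hvl : 7 / 8 * u.im ≤ v.im := by nlinarith
  have hv : 0 < v.im := by linarith
  have n0 : 0 ≤ ‖u - v‖ := norm_nonneg _
  have q1 : Qd u v ≤ 8 / 7 * δ ^ 2 := by
    unfold Qd
    rw [div_le_iff₀ (mul_pos hu hv)]
    have : ‖u - v‖ ^ 2 ≤ (δ * u.im) ^ 2 := pow_le_pow_left₀ n0 h 2
    have h3 : 0 ≤ δ ^ 2 * u.im := by positivity
    nlinarith
  have q2 : ‖u' - v'‖ ^ 2 = Qd u v * (u'.im * v'.im) := by
    rw [← hQ]
    unfold Qd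
    have := (mul_pos hu' hv').ne'
    field_simp
  have q3 : ‖u' - v'‖ ^ 2 ≤ 8 / 7 * δ ^ 2 * (u'.im * v'.im) := by
    rw [q2]
    exact mul_le_mul_of_nonneg_right q1 (mul_pos hu' hv').le
  have q4 : (u'.im - v'.im) ^ 2 ≤ ‖u' - v'‖ ^ 2 := by
    rw [← sq_abs (u'.im - v'.im)]
    exact pow_le_pow_left₀ (abs_nonneg _) i2 2
  have q5 : δ ^ 2 ≤ 1 / 64 := by nlinarith
  have q6 : v'.im ≤ 2 * u'.im := by
    by_contra hc
    push Not at hc
    have : (u'.im - v'.im) ^ 2 ≤ 1 / 56 * (u'.im * v'.im) := by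
      have := mul_pos hu' hv'
      nlinarith
    nlinarith
  have q7 : ‖u' - v'‖ ^ 2 ≤ (2 * δ * u'.im) ^ 2 := by
    refine q3.trans ?_
    have h3 : 0 ≤ δ ^ 2 * u'.im := by positivity
    nlinarith
  exact (pow_le_pow_iff_left₀ (norm_nonneg _) (by positivity) two_ne_zero).1 q7

/-! ### derivative bounds high up -/

theorem exp54 {y : ℝ} (h : 0.54 ≤ y) : rexp (-π * y) ≤ 0.19 := by
  have h1 : (1.695 : ℝ) ≤ π * y := by
    have := Real.pi_gt_d2
    nlinarith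
  have h2 : (5.3 : ℝ) ≤ rexp 1.695 := by
    have e : rexp 1.695 = rexp 1 * rexp 0.695 := by
      rw [← Real.exp_add]
      norm_num
    have h3 := Real.quadratic_le_exp_of_nonneg (by norm_num : (0 : ℝ) ≤ 0.695)
    have h5 : (1.95 : ℝ) ≤ rexp 0.695 := by
      have e6 : rexp 0.695 = rexp 0.3475 ^ 2 := by
        rw [← Real.exp_nat_mul]
        norm_num
      have h7 := Real.quadratic_le_exp_of_nonneg (by norm_num : (0 : ℝ) ≤ 0.3475)
      rw [e6]
      nlinarith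
    have h4 := Real.exp_one_gt_d9
    rw [e]
    nlinarith [Real.exp_pos 1, Real.exp_pos 0.695]
  have h3 : rexp (-π * y) ≤ rexp (-1.695) := Real.exp_le_exp.2 (by linarith)
  have h4 : rexp (-1.695) ≤ 5.3⁻¹ := by
    rw [Real.exp_neg]
    exact inv_anti₀ (by norm_num) h2
  refine h3.trans (h4.trans ?_)
  norm_num

theorem pow4_sub_one (z : ℂ) {r : ℝ} (h : ‖z - 1‖ ≤ 2.5 * r) (h2 : ‖z‖ ≤ 1.5) :
    ‖z ^ 4 - 1‖ ≤ 21 * r := by
  have e : z ^ 4 - 1 = (z - 1) * (1 + z + z ^ 2 + z ^ 3) := by ring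
  have n0 : 0 ≤ ‖z‖ := norm_nonneg z
  have h3 : ‖1 + z + z ^ 2 + z ^ 3‖ ≤ 8.2 := by
    calc ‖1 + z + z ^ 2 + z ^ 3‖ ≤ ‖(1 : ℂ)‖ + ‖z‖ + ‖z ^ 2‖ + ‖z ^ 3‖ := by
          refine (norm_add_le _ _).trans ?_
          gcongr
          refine (norm_add_le _ _).trans ?_
          gcongr
          exact norm_add_le _ _
      _ = 1 + ‖z‖ + ‖z‖ ^ 2 + ‖z‖ ^ 3 := by rw [norm_one, norm_pow, norm_pow]
      _ ≤ 1 + 1.5 + 1.5 ^ 2 + 1.5 ^ 3 := by gcongr
      _ ≤ 8.2 := by norm_num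
  rw [e, norm_mul]
  calc ‖z - 1‖ * ‖1 + z + z ^ 2 + z ^ 3‖ ≤ (2.5 * r) * 8.2 :=
        mul_le_mul h h3 (norm_nonneg _) ((norm_nonneg _).trans h)
    _ ≤ 21 * r := by
      have : 0 ≤ 2.5 * r := (norm_nonneg _).trans h
      linarith

theorem th3_pow4 {u : ℂ} (h : 0.54 ≤ u.im) : ‖th3 u ^ 4 - 1‖ ≤ 21 * rexp (-π * u.im) := by
  have hp : 0 < u.im := by linarith
  have h1 := norm_th3 hp
  have h2 := exp54 h
  have h3 := Real.exp_pos (-π * u.im)
  have h4 : 2 / (1 - rexp (-π * u.im)) * rexp (-π * u.im) ≤ 2.5 * rexp (-π * u.im) := by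
    refine mul_le_mul_of_nonneg_right ?_ h3.le
    rw [div_le_iff₀ (by linarith)]
    linarith
  refine pow4_sub_one _ (h1.trans h4) ?_
  have h7 := norm_add_le (1 : ℂ) (th3 u - 1)
  have e2 : (1 : ℂ) + (th3 u - 1) = th3 u := by ring
  rw [e2, norm_one] at h7
  linarith [h1.trans h4]

theorem th4_pow4 {u : ℂ} (h : 0.54 ≤ u.im) : ‖th4 u ^ 4 - 1‖ ≤ 21 * rexp (-π * u.im) := by
  have hp : 0 < u.im := by linarith
  rw [th4_eq hp]
  have := th3_pow4 (u := u + 1) (by simpa using h)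
  simpa using this

theorem th2_pow4 {u : ℂ} (h : 0.54 ≤ u.im) : ‖th2 u ^ 4 - 0‖ ≤ 21 * rexp (-π * u.im) := by
  have hp : 0 < u.im := by linarith
  have h1 := norm_gg hp
  have h2 := exp54 h
  have h3 := Real.exp_pos (-π * u.im)
  have e : rexp (-(2 * π) * u.im) = rexp (-π * u.im) ^ 2 := by
    rw [← Real.exp_nat_mul]
    congr 1
    push_cast
    ring
  have h8 : rexp (-(2 * π) * u.im) ≤ 0.0362 := by
    rw [e]
    nlinarith
  have h9 := Real.exp_pos (-(2 * π) * u.im)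
  have h4 : (1 - rexp (-(2 * π) * u.im))⁻¹ * rexp (-(2 * π) * u.im) ≤ 0.04 := by
    rw [inv_mul_le_iff₀ (by linarith)]
    linarith
  have h7 := norm_add_le (1 : ℂ) (gg u - 1)
  have e2 : (1 : ℂ) + (gg u - 1) = gg u := by ring
  rw [e2, norm_one] at h7
  have h10 : ‖gg u‖ ≤ 1.04 := by linarith [h1.trans h4]
  have h11 : ‖gg u‖ ^ 4 ≤ 1.04 ^ 4 := pow_le_pow_left₀ (norm_nonneg _) h10 4
  norm_num at h11
  rw [sub_zero, norm_pow, norm_th2]
  nlinarith

theorem deriv_high {F : ℂ → ℂ} {c : ℂ} (hF : ∀ τ : ℂ, 0 < τ.im → DifferentiableAt ℂ F τ)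
    (h : ∀ u : ℂ, 0.54 ≤ u.im → ‖F u - c‖ ≤ 21 * rexp (-π * u.im)) {w : ℂ} (hw : 0.64 ≤ w.im) :
    ‖deriv F w‖ ≤ 80 / w.im := by
  have him : ∀ z : ℂ, dist z w ≤ 0.1 → w.im - 0.1 ≤ z.im := by
    intro z hz
    have h2 : |(z - w).im| ≤ 0.1 := by
      refine (Complex.abs_im_le_norm _).trans ?_
      rwa [dist_eq_norm] at hz
    rw [Complex.sub_im, abs_le] at h2
    linarith [h2.1]
  have r0 : (0 : ℝ) < 0.1 := by norm_num
  have hd : DiffContOnCl ℂ (fun z => F z - c) (Metric.ball w 0.1) := by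
    refine DifferentiableOn.diffContOnCl fun z hz => ?_
    rw [closure_ball w r0.ne', Metric.mem_closedBall] at hz
    have h3 := him z hz
    have h4 : 0 < z.im := by linarith
    exact ((hF z h4).sub_const c).differentiableWithinAt
  have p0 := Real.pi_gt_d2
  have h5 := Complex.norm_deriv_le_of_forall_mem_sphere_norm_le (C := 21 * rexp (-(π * (w.im - 0.1))))
    r0 hd (fun z hz => by
      have h6 := him z (le_of_eq hz)
      refine (h z (by linarith)).trans ?_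
      refine mul_le_mul_of_nonneg_left (Real.exp_le_exp.2 ?_) (by norm_num)
      nlinarith)
  rw [deriv_sub_const] at h5
  refine h5.trans ?_
  have x0 : 0 < π * (w.im - 0.1) := mul_pos Real.pi_pos (by linarith)
  have h6 : rexp (-(π * (w.im - 0.1))) ≤ 1 / (π * (w.im - 0.1)) := by
    rw [Real.exp_neg, ← one_div]
    refine one_div_le_one_div_of_le x0 ?_
    linarith [Real.add_one_le_exp (π * (w.im - 0.1))]
  have h7 : 1 / (π * (w.im - 0.1)) ≤ 0.38 / w.im := by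
    rw [div_le_div_iff₀ x0 (by linarith)]
    nlinarith
  have h8 : 80 / w.im = 21 * (0.38 / w.im) / 0.1 + 0.2 / w.im := by
    have : w.im ≠ 0 := by linarith
    field_simp
    norm_num
  have h9 : 0 ≤ 0.2 / w.im := by
    have : 0 < w.im := by linarith
    positivity
  rw [h8]
  have h10 : 21 * rexp (-(π * (w.im - 0.1))) / 0.1 ≤ 21 * (0.38 / w.im) / 0.1 := by
    gcongr
    exact h6.trans h7
  linarith

theorem move {F : ℂ → ℂ} {c : ℂ} (hF : ∀ τ : ℂ, 0 < τ.im → DifferentiableAt ℂ F τ)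
    (h : ∀ u : ℂ, 0.54 ≤ u.im → ‖F u - c‖ ≤ 21 * rexp (-π * u.im)) {u v : ℂ} {δ : ℝ}
    (hu : 0.86 ≤ u.im) (h0 : 0 ≤ δ) (h1 : δ ≤ 1 / 4) (huv : ‖u - v‖ ≤ δ * u.im) :
    |‖F v‖ - ‖F u‖| ≤ 107 * δ := by
  have hs : Convex ℝ {w : ℂ | 0.75 * u.im ≤ w.im} := convex_halfSpace_im_ge _
  have i1 : |(u - v).im| ≤ ‖u - v‖ := Complex.abs_im_le_norm _
  rw [Complex.sub_im, abs_le] at i1
  have hu0 : 0 < u.im := by linarith
  have hv : 0.75 * u.im ≤ v.im := by nlinarith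
  have h2 := Convex.norm_image_sub_le_of_norm_deriv_le (𝕜 := ℂ) (f := F)
    (C := 80 / (0.75 * u.im)) (s := {w : ℂ | 0.75 * u.im ≤ w.im}) (x := u) (y := v)
    (fun w hw => hF w (by
      have : 0.75 * u.im ≤ w.im := hw
      linarith))
    (fun w hw => by
      have hw' : 0.75 * u.im ≤ w.im := hw
      refine (deriv_high hF h (by linarith)).trans ?_
      exact div_le_div_of_nonneg_left (by norm_num) (by linarith) hw')
    hs (by
      show 0.75 * u.im ≤ u.im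
      linarith) hv
  refine (abs_norm_sub_norm_le _ _).trans (h2.trans ?_)
  rw [norm_sub_rev] at huv
  calc 80 / (0.75 * u.im) * ‖v - u‖ ≤ 80 / (0.75 * u.im) * (δ * u.im) :=
        mul_le_mul_of_nonneg_left huv (by positivity)
    _ = 80 / 0.75 * δ := by field_simp
    _ ≤ 107 * δ := by
      have : (80 : ℝ) / 0.75 ≤ 107 := by norm_num
      exact mul_le_mul_of_nonneg_right this h0

theorem Yf_move {u v : ℂ} {δ : ℝ} (hu : 0.86 ≤ u.im) (h0 : 0 ≤ δ) (h1 : δ ≤ 1 / 4)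
    (huv : ‖u - v‖ ≤ δ * u.im) : |Yf v - Yf u| ≤ 405 * δ * Yf u := by
  have m2 := move (F := fun w => th2 w ^ 4) (fun τ h => (diff_th2 h).pow 4)
    (fun u h => th2_pow4 h) hu h0 h1 huv
  have m3 := move (F := fun w => th3 w ^ 4) (fun τ h => (diff_th3 h).pow 4)
    (fun u h => th3_pow4 h) hu h0 h1 huv
  have m4 := move (F := fun w => th4 w ^ 4) (fun τ h => (diff_th4 h).pow 4)
    (fun u h => th4_pow4 h) hu h0 h1 huv
  simp only [norm_pow] at m2 m3 m4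
  have i1 : |(u - v).im| ≤ ‖u - v‖ := Complex.abs_im_le_norm _
  rw [Complex.sub_im] at i1
  have i2 := i1.trans huv
  obtain ⟨a1, a2⟩ := fd3 hu
  obtain ⟨b1, b2⟩ := fd4 hu
  have a := (pow4_bd (by norm_num) a1 a2).1
  have b := (pow4_bd (by norm_num) b1 b2).1
  norm_num at a b
  have c : 0 ≤ ‖th2 u‖ ^ 4 := by positivity
  set S := ‖th2 u‖ ^ 4 + ‖th3 u‖ ^ 4 + ‖th4 u‖ ^ 4 with hS
  set S' := ‖th2 v‖ ^ 4 + ‖th3 v‖ ^ 4 + ‖th4 v‖ ^ 4 with hS'
  have hS1 : 1 ≤ S := by linarith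
  have hd : |S' - S| ≤ 321 * δ := by
    rw [abs_le] at m2 m3 m4 ⊢
    constructor <;> linarith [m2.1, m2.2, m3.1, m3.2, m4.1, m4.2]
  have hu0 : 0 < u.im := by linarith
  have e : Yf v - Yf u = v.im * (S' - S) - (u.im - v.im) * S := by
    unfold Yf
    rw [← hS, ← hS']
    ring
  have hv1 : |v.im| ≤ 1.25 * u.im := by
    rw [abs_le] at i2 ⊢
    constructor <;> nlinarith [i2.1, i2.2]
  rw [e]
  calc |v.im * (S' - S) - (u.im - v.im) * S| ≤ |v.im * (S' - S)| + |(u.im - v.im) * S| :=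
        abs_sub _ _
    _ = |v.im| * |S' - S| + |u.im - v.im| * S := by
      rw [abs_mul, abs_mul, abs_of_pos (by linarith : (0 : ℝ) < S)]
    _ ≤ (1.25 * u.im) * (321 * δ) + (δ * u.im) * S := by
      gcongr
    _ ≤ 405 * δ * (u.im * S) := by
      have h5 : 0 ≤ δ * u.im := by positivity
      nlinarith
    _ = 405 * δ * Yf u := by
      unfold Yf
      rw [← hS]

/-- **The height is Lipschitz for the hyperbolic metric.** -/
theorem Yf_lip (u v : ℍ) {δ : ℝ} (h0 : 0 ≤ δ) (h1 : δ ≤ 1 / 8)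
    (h : ‖(u : ℂ) - (v : ℂ)‖ ≤ δ * (u : ℂ).im) : |Yf v - Yf u| ≤ 810 * δ * Yf u := by
  obtain ⟨g, hg⟩ := ModularGroup.exists_smul_mem_fd u
  have him := fd_im hg
  have hn := near u.im_pos (g • u).im_pos (g • v).im_pos (Qd_inv g u v) h0 h1 h
  have h2 := Yf_move him (by positivity : 0 ≤ 2 * δ) (by linarith) hn
  rw [Yf_inv, Yf_inv] at h2
  have e : 405 * (2 * δ) * Yf (u : ℂ) = 810 * δ * Yf u := by ring
  rw [e] at h2
  exact h2

end Pool.Agent.Helper84.Lam
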