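import Pool.Agent.Helper84.Lam.Cusp

/-!
# `λ` as a function of `q = e^{π i τ}`

`lam τ = 16 q MM(q)`, `MM` is analytic and zero-free in the unit disc, `MM 0 = 1`,
`MM'(0) = -8`.
-/

set_option autoImplicit false

namespace Pool.Agent.Helper84.Lam

open Complex Real Filter Topology

/-- power series with gaps -/
noncomputable def gap (e : ℕ → ℕ) (q : ℂ) : ℂ := ∑' n : ℕ, q ^ e n

theorem gap_bound {e : ℕ → ℕ} (he : ∀ n, n ≤ e n) {r : ℝ} (hr1 : r < 1) {q : ℂ}
    (hq : q ∈ Metric.ball (0 : ℂ) r) (n : ℕ) : ‖q ^ e n‖ ≤ r ^ n := by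
  rw [Metric.mem_ball, dist_zero_right] at hq
  have h0 : 0 ≤ ‖q‖ := norm_nonneg q
  rw [norm_pow]
  calc ‖q‖ ^ e n ≤ ‖q‖ ^ n := pow_le_pow_of_le_one h0 (by linarith) (he n)
    _ ≤ r ^ n := pow_le_pow_left₀ h0 hq.le n

theorem gap_diff_r {e : ℕ → ℕ} (he : ∀ n, n ≤ e n) {r : ℝ} (hr0 : 0 ≤ r) (hr1 : r < 1) :
    DifferentiableOn ℂ (gap e) (Metric.ball 0 r) :=
  differentiableOn_tsum_of_summable_norm (summable_geometric_of_lt_one hr0 hr1)
    (fun n => (differentiable_pow (e n)).differentiableOn) Metric.isOpen_ball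
    (fun n _ hq => gap_bound he hr1 hq n)

theorem gap_diffAt {e : ℕ → ℕ} (he : ∀ n, n ≤ e n) {q : ℂ} (hq : ‖q‖ < 1) :
    DifferentiableAt ℂ (gap e) q := by
  obtain ⟨r, h1, h2⟩ := exists_between hq
  have h0 : 0 ≤ r := (norm_nonneg q).trans h1.le
  refine (gap_diff_r he h0 h2).differentiableAt (Metric.isOpen_ball.mem_nhds ?_)
  rwa [Metric.mem_ball, dist_zero_right]

theorem gap_deriv_zero {e : ℕ → ℕ} (he : ∀ n, n ≤ e n) :
    HasSum (fun n => deriv (fun w : ℂ => w ^ e n) 0) (deriv (gap e) 0) :=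
  hasSum_deriv_of_summable_norm (summable_geometric_of_lt_one (by norm_num : (0 : ℝ) ≤ 1 / 2)
    (by norm_num)) (fun n => (differentiable_pow (e n)).differentiableOn) Metric.isOpen_ball
    (fun n _ hq => gap_bound he (by norm_num) hq n) (Metric.mem_ball_self (by norm_num))

noncomputable def P3 (q : ℂ) : ℂ := 1 + 2 * gap (fun n => (n + 1) ^ 2) q
noncomputable def P2 (q : ℂ) : ℂ := gap (fun n => n * (n + 1)) q
noncomputable def MM (q : ℂ) : ℂ := P2 q ^ 4 / P3 q ^ 4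

theorem e3 (n : ℕ) : n ≤ (n + 1) ^ 2 := by nlinarith
theorem e2 (n : ℕ) : n ≤ n * (n + 1) := by nlinarith

theorem diff_P3 {q : ℂ} (hq : ‖q‖ < 1) : DifferentiableAt ℂ P3 q :=
  ((gap_diffAt e3 hq).const_mul 2).const_add 1

theorem diff_P2 {q : ℂ} (hq : ‖q‖ < 1) : DifferentiableAt ℂ P2 q := gap_diffAt e2 hq

theorem th3_q {τ : ℂ} (h : 0 < τ.im) : th3 τ = P3 (cexp (π * I * τ)) := by
  have h1 := hasSum_nat_jacobiTheta h
  rw [jacobiTheta_eq_jacobiTheta₂] at h1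
  have h2 : gap (fun n => (n + 1) ^ 2) (cexp (π * I * τ)) = (th3 τ - 1) / 2 := by
    unfold gap
    refine HasSum.tsum_eq ((hs_congr_nat fun n => ?_).1 h1)
    rw [← Complex.exp_nat_mul]
    congr 1
    push_cast
    ring
  unfold P3
  rw [h2]
  ring

theorem gg_q {τ : ℂ} (h : 0 < τ.im) : gg τ = P2 (cexp (π * I * τ)) := by
  rw [gg_tsum h]
  unfold P2 gap
  refine tsum_congr fun n => ?_
  rw [← Complex.exp_nat_mul]
  congr 1
  push_cast
  ring

theorem exists_tau {q : ℂ} (h0 : q ≠ 0) (h1 : ‖q‖ < 1) :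
    ∃ τ : ℂ, 0 < τ.im ∧ cexp (π * I * τ) = q := by
  refine ⟨Complex.log q / (π * I), ?_, ?_⟩
  · have e : Complex.log q / (π * I) = ((1 / π : ℝ) : ℂ) * (-I * Complex.log q) := by
      have : (π : ℂ) ≠ 0 := Complex.ofReal_ne_zero.2 Real.pi_ne_zero
      push_cast
      field_simp
      rw [I_sq]
      ring
    rw [e, Complex.im_ofReal_mul]
    have e2 : (-I * Complex.log q).im = -Real.log ‖q‖ := by
      simp [Complex.log_re]
    rw [e2]
    have h2 := Real.log_neg (norm_pos_iff.2 h0) h1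
    have := Real.pi_pos
    have h3 : 0 < 1 / π := by positivity
    nlinarith
  · have : (π : ℂ) ≠ 0 := Complex.ofReal_ne_zero.2 Real.pi_ne_zero
    have e : π * I * (Complex.log q / (π * I)) = Complex.log q := by
      field_simp
    rw [e, Complex.exp_log h0]

theorem gap3_zero : gap (fun n => (n + 1) ^ 2) 0 = 0 := by
  unfold gap
  simp

theorem P3_zero : P3 0 = 1 := by
  unfold P3
  rw [gap3_zero]
  norm_num

theorem P2_zero : P2 0 = 1 := by
  unfold P2 gap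
  rw [tsum_eq_single 0]
  · simp
  · intro n hn
    have : n * (n + 1) ≠ 0 := Nat.mul_ne_zero hn (Nat.succ_ne_zero n)
    simp [this]

theorem P3_ne {q : ℂ} (hq : ‖q‖ < 1) : P3 q ≠ 0 := by
  rcases eq_or_ne q 0 with rfl | h0
  · rw [P3_zero]
    exact one_ne_zero
  · obtain ⟨τ, h1, rfl⟩ := exists_tau h0 hq
    rw [← th3_q h1]
    exact th3_ne h1

theorem P2_ne {q : ℂ} (hq : ‖q‖ < 1) : P2 q ≠ 0 := by
  rcases eq_or_ne q 0 with rfl | h0
  · rw [P2_zero]
    exact one_ne_zero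
  · obtain ⟨τ, h1, rfl⟩ := exists_tau h0 hq
    rw [← gg_q h1]
    exact gg_ne h1

theorem MM_ne {q : ℂ} (hq : ‖q‖ < 1) : MM q ≠ 0 :=
  div_ne_zero (pow_ne_zero 4 (P2_ne hq)) (pow_ne_zero 4 (P3_ne hq))

theorem MM_zero : MM 0 = 1 := by
  unfold MM
  rw [P2_zero, P3_zero]
  norm_num

theorem diff_MM {q : ℂ} (hq : ‖q‖ < 1) : DifferentiableAt ℂ MM q :=
  ((diff_P2 hq).pow 4).div ((diff_P3 hq).pow 4) (pow_ne_zero 4 (P3_ne hq))

theorem deriv_P3_zero : deriv P3 0 = 2 := by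
  have h1 := gap_deriv_zero e3
  have h2 : HasSum (fun n : ℕ => deriv (fun w : ℂ => w ^ ((n + 1) ^ 2)) 0) 1 := by
    have h3 := hasSum_single (f := fun n : ℕ => deriv (fun w : ℂ => w ^ ((n + 1) ^ 2)) 0) 0
      (fun n hn => by
        have h4 : (n + 1) ^ 2 - 1 ≠ 0 := by
          have : 1 ≤ n := Nat.one_le_iff_ne_zero.2 hn
          have : 4 ≤ (n + 1) ^ 2 := by nlinarith
          omega
        simp [h4])
    simpa using h3
  have h3 := h1.unique h2
  have h4 : HasDerivAt P3 (2 * deriv (gap fun n => (n + 1) ^ 2) 0) 0 :=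
    ((gap_diffAt e3 (by simp : ‖(0 : ℂ)‖ < 1)).hasDerivAt.const_mul 2).const_add 1
  rw [h4.deriv, h3]
  norm_num

theorem deriv_P2_zero : deriv P2 0 = 0 := by
  have h1 := gap_deriv_zero e2
  have h2 : HasSum (fun n : ℕ => deriv (fun w : ℂ => w ^ (n * (n + 1))) 0) 0 := by
    have : (fun n : ℕ => deriv (fun w : ℂ => w ^ (n * (n + 1))) 0) = fun _ => 0 := by
      funext n
      rcases Nat.eq_zero_or_pos n with rfl | hn
      · simp
      · have h4 : n * (n + 1) - 1 ≠ 0 := by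
          have : 2 ≤ n * (n + 1) := by nlinarith
          omega
        simp [h4]
    rw [this]
    exact _root_.hasSum_zero
  exact h1.unique h2

theorem hasDerivAt_MM_zero : HasDerivAt MM (-8) 0 := by
  have n0 : ‖(0 : ℂ)‖ < 1 := by simp
  have h2 := (diff_P2 n0).hasDerivAt.pow 4
  have h3 := (diff_P3 n0).hasDerivAt.pow 4
  have h4 := h2.div h3 (pow_ne_zero 4 (P3_ne n0))
  refine h4.congr_deriv ?_
  simp only [Pi.pow_apply]
  rw [deriv_P3_zero, deriv_P2_zero, P3_zero, P2_zero]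
  norm_num

/-- `λ(τ) = 16 q MM(q)` -/
theorem lam_q {τ : ℂ} (h : 0 < τ.im) :
    lam τ = 16 * cexp (π * I * τ) * MM (cexp (π * I * τ)) := by
  have h3 := P3_ne (q := cexp (π * I * τ)) (by
    rw [Complex.norm_exp, Real.exp_lt_one_iff]
    have e : (π * I * τ).re = -(π * τ.im) := by simp
    rw [e]
    have := mul_pos Real.pi_pos h
    linarith)
  unfold lam MM
  rw [th2_gg, gg_q h, th3_q h, mul_pow, mul_pow, ← Complex.exp_nat_mul]
  have e : ((4 : ℕ) : ℂ) * (π * I * τ / 4) = π * I * τ := by push_cast; ring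
  rw [e]
  field_simp
  norm_num
  ring

end Pool.Agent.Helper84.Lam
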