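import Mathlib

/-!
# The theta constants and the AGM identities

`th3 = ∑ q^(n^2)`, `th4 = ∑ (-1)^n q^(n^2)`, `th2 = ∑ q^((n+1/2)^2)`, `q = e^(π i τ)`.
-/

set_option autoImplicit false

namespace Pool.Agent.Helper84.Lam

open Complex Real Filter Topology

noncomputable def th3 (τ : ℂ) : ℂ := jacobiTheta₂ 0 τ
noncomputable def th4 (τ : ℂ) : ℂ := jacobiTheta₂ (1 / 2) τ
noncomputable def th2 (τ : ℂ) : ℂ := cexp (π * I * τ / 4) * jacobiTheta₂ (τ / 2) τ

theorem hs_congr {ι : Type} {f g : ι → ℂ} {a : ℂ} (h : ∀ i, f i = g i) :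
    HasSum f a ↔ HasSum g a := by
  rw [funext h]

theorem hasSum_th3 {τ : ℂ} (h : 0 < τ.im) :
    HasSum (fun n : ℤ => cexp (π * I * (n : ℂ) ^ 2 * τ)) (th3 τ) := by
  refine (hs_congr fun n => ?_).1 (hasSum_jacobiTheta₂_term 0 h)
  unfold jacobiTheta₂_term
  congr 1
  ring

theorem hasSum_th4 {τ : ℂ} (h : 0 < τ.im) :
    HasSum (fun n : ℤ => cexp (π * I * (n : ℂ) + π * I * (n : ℂ) ^ 2 * τ)) (th4 τ) := by
  refine (hs_congr fun n => ?_).1 (hasSum_jacobiTheta₂_term (1 / 2) h)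
  unfold jacobiTheta₂_term
  congr 1
  ring

theorem hasSum_th2 {τ : ℂ} (h : 0 < τ.im) :
    HasSum (fun n : ℤ => cexp (π * I * ((n : ℂ) + 1 / 2) ^ 2 * τ)) (th2 τ) := by
  refine (hs_congr fun n => ?_).1
    ((hasSum_jacobiTheta₂_term (τ / 2) h).mul_left (cexp (π * I * τ / 4)))
  unfold jacobiTheta₂_term
  rw [← Complex.exp_add]
  congr 1
  ring

theorem exp_int (n : ℤ) : cexp (2 * π * I * n) = 1 := by
  have := Complex.exp_int_mul_two_pi_mul_I n
  rw [← this]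
  congr 1
  ring

theorem exp_eq (n : ℤ) {a b : ℂ} (h : a = b + 2 * π * I * n) : cexp a = cexp b := by
  rw [h, Complex.exp_add, exp_int, mul_one]

theorem exp_eq_neg (n : ℤ) {a b : ℂ} (h : a = b + π * I + 2 * π * I * n) :
    cexp a = -cexp b := by
  rw [h, Complex.exp_add, Complex.exp_add, exp_int, Complex.exp_pi_mul_I]
  ring

/-- the splitting of `ℤ × ℤ` by parity -/
def par : (ℤ × ℤ) ⊕ (ℤ × ℤ) ≃ ℤ × ℤ where
  toFun := Sum.elim (fun p => (p.1 + p.2, p.1 - p.2)) (fun p => (p.1 + p.2 + 1, p.1 - p.2))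
  invFun p := if (p.1 - p.2) % 2 = 0 then Sum.inl ((p.1 + p.2) / 2, (p.1 - p.2) / 2)
    else Sum.inr ((p.1 + p.2 - 1) / 2, (p.1 - p.2 - 1) / 2)
  left_inv := by
    rintro (⟨a, b⟩ | ⟨a, b⟩)
    · have h : (a + b - (a - b)) % 2 = 0 := by omega
      simp only [Sum.elim_inl, h, if_true, Sum.inl.injEq, Prod.mk.injEq]
      omega
    · have h : ¬ (a + b + 1 - (a - b)) % 2 = 0 := by omega
      simp only [Sum.elim_inr, h, if_false, Sum.inr.injEq, Prod.mk.injEq]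
      omega
  right_inv := by
    rintro ⟨m, n⟩
    by_cases h : (m - n) % 2 = 0
    · simp only [h, if_true, Sum.elim_inl, Prod.mk.injEq]
      omega
    · simp only [h, if_false, Sum.elim_inr, Prod.mk.injEq]
      omega

theorem split {F : ℤ × ℤ → ℂ} {S A B : ℂ} (hF : HasSum F S)
    (hA : HasSum (fun p : ℤ × ℤ => F (p.1 + p.2, p.1 - p.2)) A)
    (hB : HasSum (fun p : ℤ × ℤ => F (p.1 + p.2 + 1, p.1 - p.2)) B) : S = A + B := by
  have h1 : HasSum (F ∘ par) (A + B) := HasSum.sum hA hB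
  exact hF.unique (par.hasSum_iff.1 h1)

theorem hasSum_prod {f g : ℤ → ℂ} {s t : ℂ} (h1 : HasSum f s) (h2 : HasSum g t) :
    HasSum (fun p : ℤ × ℤ => f p.1 * g p.2) (s * t) :=
  h1.mul h2 (summable_mul_of_summable_norm h1.summable.norm h2.summable.norm)

theorem two_im {τ : ℂ} (h : 0 < τ.im) : 0 < (2 * τ).im := by
  simp
  linarith

theorem agm1 {τ : ℂ} (h : 0 < τ.im) : th3 τ ^ 2 = th3 (2 * τ) ^ 2 + th2 (2 * τ) ^ 2 := by
  rw [sq, sq, sq]
  refine split (hasSum_prod (hasSum_th3 h) (hasSum_th3 h))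
    ((hs_congr fun p => ?_).2 (hasSum_prod (hasSum_th3 (two_im h)) (hasSum_th3 (two_im h))))
    ((hs_congr fun p => ?_).2 (hasSum_prod (hasSum_th2 (two_im h)) (hasSum_th2 (two_im h))))
  · rw [← Complex.exp_add, ← Complex.exp_add]
    congr 1
    push_cast
    ring
  · rw [← Complex.exp_add, ← Complex.exp_add]
    congr 1
    push_cast
    ring

theorem agm2 {τ : ℂ} (h : 0 < τ.im) : th4 τ ^ 2 = th3 (2 * τ) ^ 2 - th2 (2 * τ) ^ 2 := by
  rw [sq, sq, sq, sub_eq_add_neg]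
  refine split (hasSum_prod (hasSum_th4 h) (hasSum_th4 h))
    ((hs_congr fun p => ?_).2 (hasSum_prod (hasSum_th3 (two_im h)) (hasSum_th3 (two_im h))))
    ((hs_congr fun p => ?_).2
      (hasSum_prod (hasSum_th2 (two_im h)) (hasSum_th2 (two_im h))).neg)
  · rw [← Complex.exp_add, ← Complex.exp_add]
    apply exp_eq p.1
    push_cast
    ring
  · rw [← Complex.exp_add, ← Complex.exp_add]
    apply exp_eq_neg p.1
    push_cast
    ring

theorem hasSum_zero {τ : ℂ} (h : 0 < τ.im) :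
    HasSum (fun n : ℤ => cexp (π * I * (n : ℂ) + π * I * ((n : ℂ) + 1 / 2) ^ 2 * τ)) 0 := by
  have hs : Summable (fun n : ℤ => cexp (π * I * (n : ℂ) + π * I * ((n : ℂ) + 1 / 2) ^ 2 * τ)) := by
    rw [← summable_norm_iff]
    refine (hasSum_th2 h).summable.norm.congr fun n => ?_
    rw [Complex.exp_add, norm_mul]
    have : ‖cexp (π * I * (n : ℂ))‖ = 1 := by
      rw [Complex.norm_exp]
      simp
    rw [this, one_mul]
  obtain ⟨S, hS⟩ := hs
  have h2 : HasSum (fun n : ℤ => -cexp (π * I * (n : ℂ) + π * I * ((n : ℂ) + 1 / 2) ^ 2 * τ)) S := by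
    let e : ℤ ≃ ℤ := ⟨fun n => -1 - n, fun n => -1 - n, fun n => by simp, fun n => by simp⟩
    have h3 := e.hasSum_iff.2 hS
    refine (hs_congr fun n => ?_).1 h3
    show cexp (π * I * ((-1 - n : ℤ) : ℂ) + π * I * (((-1 - n : ℤ) : ℂ) + 1 / 2) ^ 2 * τ) = _
    apply exp_eq_neg (-1 - n)
    push_cast
    ring
  have h3 := h2.unique hS.neg
  have h4 : S = 0 := by
    have : S + S = 0 := by
      nth_rewrite 1 [h3]
      ring
    have h5 : 2 * S = 0 := by rw [two_mul]; exact this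
    simpa using h5
  rw [h4] at hS
  exact hS

theorem agm3 {τ : ℂ} (h : 0 < τ.im) : th3 τ * th4 τ = th4 (2 * τ) ^ 2 := by
  have h0 : th4 (2 * τ) ^ 2 = th4 (2 * τ) * th4 (2 * τ) + 0 * 0 := by ring
  rw [h0]
  refine split (hasSum_prod (hasSum_th3 h) (hasSum_th4 h))
    ((hs_congr fun p => ?_).2 (hasSum_prod (hasSum_th4 (two_im h)) (hasSum_th4 (two_im h))))
    ((hs_congr fun p => ?_).2 (hasSum_prod (hasSum_zero (two_im h)) (hasSum_zero (two_im h))))
  · rw [← Complex.exp_add, ← Complex.exp_add]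
    apply exp_eq (-p.2)
    push_cast
    ring
  · rw [← Complex.exp_add, ← Complex.exp_add]
    apply exp_eq (-p.2)
    push_cast
    ring

theorem agm4 {τ : ℂ} (h : 0 < τ.im) : th2 τ ^ 2 = 2 * th2 (2 * τ) * th3 (2 * τ) := by
  have h0 : 2 * th2 (2 * τ) * th3 (2 * τ) =
      th2 (2 * τ) * th3 (2 * τ) + th3 (2 * τ) * th2 (2 * τ) := by ring
  rw [h0, sq]
  have h1 := (Equiv.addRight (1 : ℤ)).hasSum_iff.2 (hasSum_th3 (two_im h))
  refine split (hasSum_prod (hasSum_th2 h) (hasSum_th2 h))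
    ((hs_congr fun p => ?_).2 (hasSum_prod (hasSum_th2 (two_im h)) (hasSum_th3 (two_im h))))
    ((hs_congr fun p => ?_).2 (hasSum_prod h1 (hasSum_th2 (two_im h))))
  · rw [← Complex.exp_add, ← Complex.exp_add]
    congr 1
    push_cast
    ring
  · show _ = cexp (π * I * ((p.1 + 1 : ℤ) : ℂ) ^ 2 * (2 * τ)) * _
    rw [← Complex.exp_add, ← Complex.exp_add]
    congr 1
    push_cast
    ring

/-- Jacobi's identity -/
theorem jacobi {τ : ℂ} (h : 0 < τ.im) : th3 τ ^ 4 = th2 τ ^ 4 + th4 τ ^ 4 := by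
  have h1 := agm1 h
  have h2 := agm2 h
  have h4 := agm4 h
  have e3 : th3 τ ^ 4 = (th3 (2 * τ) ^ 2 + th2 (2 * τ) ^ 2) ^ 2 := by rw [← h1]; ring
  have e4 : th4 τ ^ 4 = (th3 (2 * τ) ^ 2 - th2 (2 * τ) ^ 2) ^ 2 := by rw [← h2]; ring
  have e2 : th2 τ ^ 4 = (2 * th2 (2 * τ) * th3 (2 * τ)) ^ 2 := by rw [← h4]; ring
  rw [e2, e3, e4]
  ring

end Pool.Agent.Helper84.Lam
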