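import Pool.Agent.Helper84.Lam.Cusp5

/-!
# Section 1.1 of the text of helper61 (MP_78803a): (L0), (L2) for `i = 3`, (L4), (L5), (L6)
-/

set_option autoImplicit false

namespace Pool.Agent.Helper84.Lam

open Complex Real Filter Topology ComplexConjugate MatrixGroups

/-- `th = λ'/(λ(1-λ))` on the disc -/
noncomputable def thD (w : ℂ) : ℂ := deriv lamD w / (lamD w * (1 - lamD w))

/-- `H = log(1 + |λ| + |1-λ|)` -/
noncomputable def Hl (w : ℂ) : ℝ := Real.log (1 + ‖lamD w‖ + ‖1 - lamD w‖)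

theorem thD_ne {w : ℂ} (h : ‖w‖ < 1) : thD w ≠ 0 :=
  div_ne_zero (deriv_lamD_ne h) (mul_ne_zero (lamD_ne_zero h) (sub_ne_zero.2 (lamD_ne_one h).symm))

theorem diff_thD {w : ℂ} (h : ‖w‖ < 1) : DifferentiableAt ℂ thD w := by
  have h1 : DifferentiableOn ℂ lamD (Metric.ball 0 1) := fun z hz =>
    (diff_lamD (ball_norm.1 hz)).differentiableWithinAt
  have h2 := (h1.deriv Metric.isOpen_ball).differentiableAt
    (Metric.isOpen_ball.mem_nhds (ball_norm.2 h))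
  exact h2.div ((diff_lamD h).mul ((diff_lamD h).const_sub 1))
    (mul_ne_zero (lamD_ne_zero h) (sub_ne_zero.2 (lamD_ne_one h).symm))

/-- `th = -2π θ₃⁴/(1-w)²` -/
theorem thD_eq {w : ℂ} (h : ‖w‖ < 1) : thD w = -2 * π * th3 (cy w) ^ 4 / (1 - w) ^ 2 := by
  have h0 := lamD_ne_zero h
  have h1 : 1 - lamD w ≠ 0 := sub_ne_zero.2 (lamD_ne_one h).symm
  have h2 := one_sub_ne h
  unfold thD
  rw [(hasDerivAt_lamD h).deriv]
  field_simp
  linear_combination (th3 (cy w) ^ 4) * I_sq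

/-- **(L0)** -/
theorem T_L0 {w : ℂ} (h : ‖w‖ < 1) :
    2 * π * YD w = (1 - ‖w‖ ^ 2) * ‖thD w‖ * rexp (Hl w) := by
  rw [← YD_eq h]
  unfold thD Hl
  rw [Real.exp_log (by positivity), norm_div, norm_mul]
  ring

theorem one_sub_sq_pos {w : ℂ} (h : ‖w‖ < 1) : 0 < 1 - ‖w‖ ^ 2 := by
  have := norm_nonneg w
  nlinarith

theorem log_thD {w : ℂ} (h : ‖w‖ < 1) :
    Real.log ‖thD w‖ = Real.log (2 * π * YD w) - Real.log (1 - ‖w‖ ^ 2) - Hl w := by
  have h1 := one_sub_sq_pos h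
  have h2 := norm_pos_iff.2 (thD_ne h)
  rw [T_L0 h, Real.log_mul (mul_pos h1 h2).ne' (Real.exp_pos _).ne', Real.log_mul h1.ne' h2.ne',
    Real.log_exp]
  ring

/-- `log th` on the disc -/
noncomputable def F3 : ℂ → ℂ :=
  Classical.choose (log_spec (F := thD) (fun _ h => diff_thD h) (fun _ h => thD_ne h))

theorem F3_spec : (∀ w, ‖w‖ < 1 → DifferentiableAt ℂ F3 w) ∧
      F3 0 = Complex.log (thD 0) ∧ ∀ w, ‖w‖ < 1 → cexp (F3 w) = thD w :=
  Classical.choose_spec (log_spec (F := thD) (fun _ h => diff_thD h) (fun _ h => thD_ne h))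

theorem exp_F3 {w : ℂ} (h : ‖w‖ < 1) : cexp (F3 w) = thD w := F3_spec.2.2 w h

theorem re_F3 {w : ℂ} (h : ‖w‖ < 1) : (F3 w).re = Real.log ‖thD w‖ :=
  (log_props (F := thD) (fun _ h => diff_thD h) F3_spec.1 F3_spec.2.2 h).2

theorem mob_zero (B : ℂ) : mob B 0 = B := by
  unfold mob
  simp

theorem ps_zero_left (ω : ℂ) : ps 0 ω = ‖ω‖ := by
  unfold ps
  simp

theorem ps_mob_zero {B ω : ℂ} (hB : ‖B‖ < 1) (hω : ‖ω‖ < 1) : ps B (mob B ω) = ‖ω‖ := by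
  have h := ps_mob hB (ω := 0) (ω' := ω) (by simp) hω
  rw [mob_zero, ps_zero_left] at h
  exact h

theorem hasDerivAt_mob {B : ℂ} (_hB : ‖B‖ < 1) : HasDerivAt (mob B) ((1 - ‖B‖ ^ 2 : ℝ) : ℂ) 0 := by
  have h1 : HasDerivAt (fun ω : ℂ => B + ω) 1 0 := by
    simpa using (hasDerivAt_id (0 : ℂ)).const_add B
  have h2 : HasDerivAt (fun ω : ℂ => 1 + conj B * ω) (conj B) 0 := by
    simpa using ((hasDerivAt_id (0 : ℂ)).const_mul (conj B)).const_add 1
  have h3 := h1.div h2 (by simp)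
  refine h3.congr_deriv ?_
  have h4 : (((1 - ‖B‖ ^ 2 : ℝ)) : ℂ) = 1 - B * conj B := by
    rw [Complex.mul_conj, Complex.normSq_eq_norm_sq]
    push_cast
    ring
  rw [h4]
  simp

theorem small_ev : ∀ᶠ ω : ℂ in 𝓝 0, ‖ω‖ < 1 / 10 := by
  have := Metric.ball_mem_nhds (0 : ℂ) (by norm_num : (0 : ℝ) < 1 / 10)
  filter_upwards [this] with ω hω
  rwa [Metric.mem_ball, dist_zero_right] at hω

/-- A local Lipschitz bound of the real part bounds the derivative. -/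
theorem grad0 {g : ℂ → ℂ} {D : ℂ} (h1 : HasDerivAt g D 0) {K : ℝ} (hK : 0 ≤ K)
    (h : ∀ᶠ ω : ℂ in 𝓝 0, |(g ω).re - (g 0).re| ≤ K * ‖ω‖) : ‖D‖ ≤ K := by
  by_cases hD0 : D = 0
  · rw [hD0, norm_zero]
    exact hK
  · have hn : ‖D‖ ≠ 0 := norm_ne_zero_iff.2 hD0
    set e : ℂ := conj D / ‖D‖ with he
    have hen : ‖e‖ = 1 := by
      rw [he, norm_div, Complex.norm_conj, Complex.norm_real, Real.norm_of_nonneg (norm_nonneg _),
        div_self hn]
    have h2 : HasDerivAt (fun t : ℝ => (t : ℂ) * e) e 0 := by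
      simpa using (hasDerivAt_id (0 : ℝ)).ofReal_comp.mul_const e
    have h3 : HasDerivAt (fun t : ℝ => g ((t : ℂ) * e)) (D * e) 0 := by
      have h4 : HasDerivAt g D (((0 : ℝ) : ℂ) * e) := by
        simpa using h1
      exact HasDerivAt.comp (h₂ := g) (h := fun t : ℝ => (t : ℂ) * e) (0 : ℝ) h4 h2
    have h5 : HasDerivAt (fun t : ℝ => (g ((t : ℂ) * e)).re) (D * e).re 0 := by
      have a : HasFDerivAt (fun z : ℂ => Complex.reCLM z) Complex.reCLM (g (((0 : ℝ) : ℂ) * e)) :=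
        Complex.reCLM.hasFDerivAt
      have b := HasFDerivAt.comp_hasDerivAt (0 : ℝ) a h3
      exact b
    have h6 : (D * e).re = ‖D‖ := by
      have : D * e = ((‖D‖ : ℝ) : ℂ) := by
        rw [he, mul_div_assoc', Complex.mul_conj, Complex.normSq_eq_norm_sq, sq]
        push_cast
        field_simp
      rw [this, Complex.ofReal_re]
    rw [h6] at h5
    have h7 : Tendsto (fun t : ℝ => (t : ℂ) * e) (𝓝 0) (𝓝 0) := by
      have : Tendsto (fun t : ℝ => (t : ℂ) * e) (𝓝 0) (𝓝 (((0 : ℝ) : ℂ) * e)) :=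
        (by fun_prop : Continuous fun t : ℝ => (t : ℂ) * e).continuousAt
      simpa using this
    have h8 := h5.le_of_lip' hK (by
      filter_upwards [h7.eventually h] with t ht
      rw [norm_mul, hen, mul_one, Complex.norm_real] at ht
      rw [Real.norm_eq_abs, sub_zero]
      simpa using ht)
    rwa [Real.norm_of_nonneg (norm_nonneg _)] at h8

theorem grad {G : ℂ → ℂ} {w : ℂ} (hG : DifferentiableAt ℂ G w) (hw : ‖w‖ < 1) {K : ℝ} (hK : 0 ≤ K)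
    (h : ∀ᶠ ω : ℂ in 𝓝 0, |(G (mob w ω)).re - (G w).re| ≤ K * ‖ω‖) :
    (1 - ‖w‖ ^ 2) * ‖deriv G w‖ ≤ K := by
  have h1 : HasDerivAt (fun ω : ℂ => G (mob w ω)) (deriv G w * ((1 - ‖w‖ ^ 2 : ℝ) : ℂ)) 0 := by
    refine HasDerivAt.comp (h₂ := G) (0 : ℂ) ?_ (hasDerivAt_mob hw)
    rw [mob_zero]
    exact hG.hasDerivAt
  have h2 := grad0 h1 hK (by
    filter_upwards [h] with ω hω
    rw [mob_zero]
    exact hω)
  rwa [norm_mul, Complex.norm_real, Real.norm_of_nonneg (one_sub_sq_pos hw).le, mul_comm] at h2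

theorem log_one_sub_mob {w ω : ℂ} (hw : ‖w‖ < 1) (hω : ‖ω‖ < 1 / 10) :
    |Real.log (1 - ‖mob w ω‖ ^ 2) - Real.log (1 - ‖w‖ ^ 2)| ≤ 3 * ‖ω‖ := by
  have hω1 : ‖ω‖ < 1 := by linarith
  have h1 := mob_den hw hω1
  have h2 := norm_one_sub_conj w (-ω)
  have e : 1 - conj w * -ω = 1 + conj w * ω := by ring
  rw [e, sub_neg_eq_add, norm_neg] at h2
  have n0 := norm_nonneg ω
  have h3 : 1 - ‖mob w ω‖ ^ 2 = (1 - ‖w‖ ^ 2) * (1 - ‖ω‖ ^ 2) / ‖1 + conj w * ω‖ ^ 2 := by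
    unfold mob
    have := norm_ne_zero_iff.2 h1
    rw [norm_div, div_pow, eq_div_iff (pow_ne_zero 2 this), sub_mul, one_mul,
      div_mul_cancel₀ _ (pow_ne_zero 2 this)]
    linarith
  have p1 := one_sub_sq_pos hw
  have p2 := one_sub_sq_pos hω1
  have p3 := norm_pos_iff.2 h1
  rw [h3, Real.log_div (mul_pos p1 p2).ne' (pow_pos p3 2).ne', Real.log_mul p1.ne' p2.ne',
    Real.log_pow]
  have e2 : Real.log (1 - ‖w‖ ^ 2) + Real.log (1 - ‖ω‖ ^ 2) -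
      ((2 : ℕ) : ℝ) * Real.log ‖1 + conj w * ω‖ - Real.log (1 - ‖w‖ ^ 2) =
      Real.log (1 - ‖ω‖ ^ 2) - 2 * Real.log ‖1 + conj w * ω‖ := by
    push_cast
    ring
  rw [e2]
  have a1 : |Real.log (1 - ‖ω‖ ^ 2)| ≤ 1.2 * ‖ω‖ ^ 2 := by
    refine abs_log_near (by nlinarith) ?_
    rw [abs_le]
    constructor <;> nlinarith
  have a2 : |Real.log ‖1 + conj w * ω‖| ≤ 1.2 * ‖ω‖ := by
    refine abs_log_near (by linarith) ?_
    have h5 := abs_norm_sub_norm_le (1 + conj w * ω) 1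
    rw [norm_one, add_sub_cancel_left, norm_mul, Complex.norm_conj] at h5
    refine h5.trans ?_
    have := norm_nonneg w
    nlinarith
  rw [abs_le] at a1 a2 ⊢
  constructor <;> nlinarith [a1.1, a1.2, a2.1, a2.2]

theorem Hl_near {w : ℂ} (hw : ‖w‖ < 1) :
    ∀ᶠ ω : ℂ in 𝓝 0, |Hl (mob w ω) - Hl w| ≤ 4 * π * YD w * ‖ω‖ := by
  set D : ℂ := deriv lamD w * ((1 - ‖w‖ ^ 2 : ℝ) : ℂ) with hD
  have h1 : HasDerivAt (lamD ∘ mob w) D 0 := by
    refine HasDerivAt.comp (0 : ℂ) ?_ (hasDerivAt_mob hw)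
    rw [mob_zero]
    exact (diff_lamD hw).hasDerivAt
  have p1 := one_sub_sq_pos hw
  have hD0 : D ≠ 0 := mul_ne_zero (deriv_lamD_ne hw) (Complex.ofReal_ne_zero.2 p1.ne')
  have hDn : ‖D‖ = (1 - ‖w‖ ^ 2) * ‖deriv lamD w‖ := by
    rw [hD, norm_mul, Complex.norm_real, Real.norm_of_nonneg p1.le, mul_comm]
  have hDp : 0 < ‖D‖ := norm_pos_iff.2 hD0
  have h2 : ∀ᶠ ω : ℂ in 𝓝 0, ‖lamD (mob w ω) - lamD w‖ ≤ 2 * ‖D‖ * ‖ω‖ := by
    have h3 := h1.isLittleO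
    have h4 := h3.def hDp
    filter_upwards [h4] with ω hω
    simp only [Function.comp_apply, mob_zero, sub_zero, smul_eq_mul] at hω
    have e : lamD (mob w ω) - lamD w = (lamD (mob w ω) - lamD w - ω * D) + ω * D := by ring
    rw [e]
    refine (norm_add_le _ _).trans ?_
    rw [norm_mul]
    linarith
  set x := ‖lamD w‖ with hx
  set y := ‖1 - lamD w‖ with hy
  have hx0 : 0 < x := norm_pos_iff.2 (lamD_ne_zero hw)
  have hy0 : 0 < y := norm_pos_iff.2 (sub_ne_zero.2 (lamD_ne_one hw).symm)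
  have hE : 0 < 1 + x + y := by positivity
  have hY := YD_eq hw
  rw [← hDn, ← hx, ← hy] at hY
  have hDY : ‖D‖ * (1 + x + y) = 2 * π * YD w * (x * y) := by
    rw [← hY]
    field_simp
  have h5 : ∀ᶠ ω : ℂ in 𝓝 0, ‖ω‖ ≤ (1 + x + y) / (8 * ‖D‖) := by
    have := Metric.ball_mem_nhds (0 : ℂ) (by positivity : 0 < (1 + x + y) / (8 * ‖D‖))
    filter_upwards [this] with ω hω
    rw [Metric.mem_ball, dist_zero_right] at hω
    exact hω.le
  filter_upwards [h2, h5] with ω h2 h5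
  have h6 : |(1 + ‖lamD (mob w ω)‖ + ‖1 - lamD (mob w ω)‖) - (1 + x + y)| ≤ 4 * ‖D‖ * ‖ω‖ := by
    have a := abs_norm_sub_norm_le (lamD (mob w ω)) (lamD w)
    have b := abs_norm_sub_norm_le (1 - lamD (mob w ω)) (1 - lamD w)
    have e : 1 - lamD (mob w ω) - (1 - lamD w) = -(lamD (mob w ω) - lamD w) := by ring
    rw [e, norm_neg] at b
    rw [← hx] at a
    rw [← hy] at b
    rw [abs_le] at a b ⊢
    constructor <;> linarith [a.1, a.2, b.1, b.2]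
  have h7 : 4 * ‖D‖ * ‖ω‖ = (4 * ‖D‖ * ‖ω‖ / (1 + x + y)) * (1 + x + y) := by
    field_simp
  rw [h7] at h6
  have h8 : 4 * ‖D‖ * ‖ω‖ / (1 + x + y) ≤ 1 / 2 := by
    rw [div_le_iff₀ hE]
    rw [le_div_iff₀ (by positivity)] at h5
    linarith
  have h9 := log_ratio hE (by positivity) h8 h6
  unfold Hl
  refine h9.trans ?_
  have h10 : ‖D‖ / (1 + x + y) ≤ 2 * π * YD w / 4 := by
    rw [div_le_div_iff₀ hE (by norm_num)]
    have h11 : ‖D‖ * 4 * (1 + x + y) ≤ 2 * π * YD w * (1 + x + y) * (1 + x + y) := by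
      have h12 : ‖D‖ * 4 * (1 + x + y) = 2 * π * YD w * (4 * (x * y)) := by
        linear_combination 4 * hDY
      rw [h12, mul_assoc (2 * π * YD w)]
      refine mul_le_mul_of_nonneg_left ?_ (by
        have := YD_lower hw
        positivity)
      nlinarith [sq_nonneg (x - y)]
    exact le_of_mul_le_mul_right h11 hE
  have e : 2 * (4 * ‖D‖ * ‖ω‖ / (1 + x + y)) = 8 * (‖D‖ / (1 + x + y)) * ‖ω‖ := by ring
  rw [e]
  have h11 := norm_nonneg ω
  nlinarith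

/-- **(L2)** for `i = 3` -/
theorem T_L2_three {w : ℂ} (hw : ‖w‖ < 1) : (1 - ‖w‖ ^ 2) * ‖deriv F3 w‖ ≤ 8400 * YD w := by
  have hY := YD_lower hw
  refine grad (F3_spec.1 w hw) hw (by linarith) ?_
  filter_upwards [small_ev, Hl_near hw] with ω h1 h2
  have hω1 : ‖ω‖ < 1 := by linarith
  have hm := norm_mob hw hω1
  have n0 := norm_nonneg ω
  rw [re_F3 hm, re_F3 hw, log_thD hm, log_thD hw]
  have a1 := L4 hw hm (by
    rw [ps_mob_zero hw hω1]
    exact h1.le)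
  rw [ps_mob_zero hw hω1] at a1
  have a2 := log_one_sub_mob hw h1
  have e1 : Real.log (2 * π * YD (mob w ω)) - Real.log (2 * π * YD w) =
      Real.log (YD (mob w ω)) - Real.log (YD w) := by
    have hp : (2 * π) ≠ 0 := by positivity
    rw [Real.log_mul hp (by linarith [YD_lower hm]), Real.log_mul hp (by linarith)]
    ring
  have hpi := Real.pi_lt_d2
  have h4 : 4 * π * YD w * ‖ω‖ ≤ 12.6 * YD w * ‖ω‖ := by
    have : 0 ≤ YD w * ‖ω‖ := by positivity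
    nlinarith
  have h5 : 6700 * ‖ω‖ + 3 * ‖ω‖ ≤ 8380 * YD w * ‖ω‖ := by nlinarith
  rw [abs_le] at a1 a2 h2 ⊢
  constructor <;> linarith [a1.1, a1.2, a2.1, a2.2, h2.1, h2.2]

/-! ### (L4) -/

/-- exactly one of the three cusps is near -/
theorem T_L4 {w : ℂ} (hw : ‖w‖ < 1) (hY : 20 ≤ YD w) :
    (‖lamD w‖ ≤ 2 * rexp (4 - YD w / 2) ∧ ‖lamD w‖ ≤ 1 / 10) ∨
    (‖1 - lamD w‖ ≤ 2 * rexp (4 - YD w / 2) ∧ ‖1 - lamD w‖ ≤ 1 / 10) ∨
    (‖lamD w‖⁻¹ ≤ 2 * rexp (4 - YD w / 2) ∧ ‖lamD w‖⁻¹ ≤ 1 / 10) := by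
  have h1 : 2 * rexp (4 - YD w / 2) ≤ 1 / 10 := by
    have h2 : rexp (4 - YD w / 2) ≤ rexp (-6) := Real.exp_le_exp.2 (by linarith)
    have h3 : rexp (-6) ≤ 1 / 20 := by
      have h4 : (20 : ℝ) ≤ rexp 6 := by
        have := Real.quadratic_le_exp_of_nonneg (by norm_num : (0 : ℝ) ≤ 6)
        linarith
      rw [Real.exp_neg, one_div]
      exact inv_anti₀ (by norm_num) h4
    linarith
  rcases min_le_YD hw with h | h | h
  · exact Or.inl ⟨h, h.trans h1⟩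
  · exact Or.inr (Or.inl ⟨h, h.trans h1⟩)
  · exact Or.inr (Or.inr ⟨h, h.trans h1⟩)

theorem not_two {w : ℂ} (hw : ‖w‖ < 1) :
    ¬ (‖lamD w‖ ≤ 1 / 10 ∧ ‖1 - lamD w‖ ≤ 1 / 10) ∧
    ¬ (‖lamD w‖ ≤ 1 / 10 ∧ ‖lamD w‖⁻¹ ≤ 1 / 10) ∧
    ¬ (‖1 - lamD w‖ ≤ 1 / 10 ∧ ‖lamD w‖⁻¹ ≤ 1 / 10) := by
  have hp := norm_pos_iff.2 (lamD_ne_zero hw)
  have h1 := norm_sub_norm_le (1 : ℂ) (lamD w)
  rw [norm_one] at h1
  have h2 := norm_sub_norm_le (lamD w) (lamD w - 1)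
  have e : lamD w - (lamD w - 1) = 1 := by ring
  rw [e, norm_one, norm_sub_rev] at h2
  refine ⟨?_, ?_, ?_⟩
  · rintro ⟨a, b⟩
    linarith
  · rintro ⟨a, b⟩
    rw [inv_le_comm₀ hp (by norm_num)] at b
    norm_num at b
    linarith
  · rintro ⟨a, b⟩
    rw [inv_le_comm₀ hp (by norm_num)] at b
    norm_num at b
    linarith

/-! ### (L5) growth -/

theorem Yf_ge_im (u : ℂ) (h : 0 < u.im) : 0.9 * u.im ≤ Yf u := by
  by_cases h1 : 0.86 ≤ u.im
  · obtain ⟨a1, a2⟩ := fd3 h1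
    obtain ⟨b1, b2⟩ := fd4 h1
    have a := (pow4_bd (by norm_num) a1 a2).1
    have b := (pow4_bd (by norm_num) b1 b2).1
    norm_num at a b
    have c : 0 ≤ ‖th2 u‖ ^ 4 := by positivity
    unfold Yf
    nlinarith
  · push Not at h1
    have : 0.8 ≤ Yf u := Yf_lower ⟨u, h⟩
    linarith

/-- Harnack for the maps `tau g` -/
theorem tau_harnack (g : SL(2, ℤ)) {v w : ℂ} (hv : ‖v‖ < 1) (hw : ‖w‖ < 1) :
    (tau g v).im * (1 - ps v w) ≤ 2 * (tau g w).im ∧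
    (tau g w).im * (1 - ps v w) ≤ 2 * (tau g v).im := by
  set ω := (w - v) / (1 - conj v * w) with hω
  have hωn : ‖ω‖ = ps v w := by
    rw [hω, norm_div, norm_sub_rev]
    rfl
  have hω1 : ‖ω‖ < 1 := norm_dd hv hw
  have hmob : (v + ω) / (1 + conj v * ω) = w := mob_sub hv hw
  have h1 := tau_mobius g hv hω1
  rw [hmob] at h1
  have h2 := im_mobius (tau g v) (kap g v) (norm_kap g hv) hω1
  rw [← h1] at h2
  have h3 := tau_im_pos g hv
  have h4 : ‖1 - kap g v * ω‖ ≤ 1 + ‖ω‖ := by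
    refine (norm_sub_le _ _).trans ?_
    rw [norm_one, norm_mul, norm_kap g hv, one_mul]
  have h5 : 1 - ‖ω‖ ≤ ‖1 - kap g v * ω‖ := by
    have := norm_sub_norm_le (1 : ℂ) (kap g v * ω)
    rwa [norm_one, norm_mul, norm_kap g hv, one_mul] at this
  have n0 := norm_nonneg ω
  have h6 : 0 < ‖1 - kap g v * ω‖ := by linarith
  rw [← hωn, h2]
  constructor
  · rw [← mul_div_assoc, le_div_iff₀ (pow_pos h6 2)]
    have h7 : ‖1 - kap g v * ω‖ ^ 2 ≤ (1 + ‖ω‖) ^ 2 := pow_le_pow_left₀ h6.le h4 2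
    have h9 : 0 ≤ 1 - ‖ω‖ := by linarith
    have h10 : 0 ≤ (1 - ‖ω‖) * (1 + ‖ω‖) := mul_nonneg h9 (by linarith)
    have h8 : (1 - ‖ω‖) * (1 + ‖ω‖) ^ 2 ≤ 2 * (1 - ‖ω‖ ^ 2) := by
      have := mul_le_mul_of_nonneg_left (by linarith : 1 + ‖ω‖ ≤ 2) h10
      nlinarith
    calc (tau g v).im * (1 - ‖ω‖) * ‖1 - kap g v * ω‖ ^ 2
        ≤ (tau g v).im * (1 - ‖ω‖) * (1 + ‖ω‖) ^ 2 :=
          mul_le_mul_of_nonneg_left h7 (by positivity)
      _ = (tau g v).im * ((1 - ‖ω‖) * (1 + ‖ω‖) ^ 2) := by ring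
      _ ≤ (tau g v).im * (2 * (1 - ‖ω‖ ^ 2)) := mul_le_mul_of_nonneg_left h8 h3.le
      _ = 2 * ((tau g v).im * (1 - ‖ω‖ ^ 2)) := by ring
  · rw [div_mul_eq_mul_div, div_le_iff₀ (pow_pos h6 2)]
    have h9 : 0 ≤ 1 - ‖ω‖ := by linarith
    have h7 : (1 - ‖ω‖) ^ 2 ≤ ‖1 - kap g v * ω‖ ^ 2 := pow_le_pow_left₀ h9 h5 2
    have h8 : (1 - ‖ω‖ ^ 2) * (1 - ‖ω‖) ≤ 2 * (1 - ‖ω‖) ^ 2 := by
      have := mul_le_mul_of_nonneg_left (by linarith : 1 + ‖ω‖ ≤ 2) (mul_nonneg h9 h9)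
      nlinarith
    calc (tau g v).im * (1 - ‖ω‖ ^ 2) * (1 - ‖ω‖) = (tau g v).im * ((1 - ‖ω‖ ^ 2) * (1 - ‖ω‖)) := by ring
      _ ≤ (tau g v).im * (2 * (1 - ‖ω‖) ^ 2) := mul_le_mul_of_nonneg_left h8 h3.le
      _ = 2 * (tau g v).im * (1 - ‖ω‖) ^ 2 := by ring
      _ ≤ 2 * (tau g v).im * ‖1 - kap g v * ω‖ ^ 2 :=
          mul_le_mul_of_nonneg_left h7 (by positivity)

/-- **(L5)** -/
theorem T_L5 {v w : ℂ} (hv : ‖v‖ < 1) (hw : ‖w‖ < 1) :
    YD v * (1 - ps v w) ≤ 12 * YD w := by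
  obtain ⟨g, hg⟩ := ModularGroup.exists_smul_mem_fd (⟨cy v, cy_im_pos hv⟩ : UpperHalfPlane)
  have h1 := Yf_upper_fd (fd_im hg)
  rw [Yf_inv, tau_eq g hv] at h1
  have h1' : YD v ≤ 5 * (tau g v).im := h1
  have h2 := (tau_harnack g hv hw).1
  have h3 := Yf_inv g (⟨cy w, cy_im_pos hw⟩ : UpperHalfPlane)
  rw [tau_eq g hw] at h3
  have h3' : Yf (tau g w) = YD w := h3
  have h4 := Yf_ge_im (tau g w) (tau_im_pos g hw)
  rw [h3'] at h4
  have h5 : 0 ≤ 1 - ps v w := by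
    have h6 : ps v w < 1 := by
      have := norm_dd hv hw
      rw [norm_div, norm_sub_rev] at this
      exact this
    linarith
  have h6 : YD v * (1 - ps v w) ≤ 5 * (tau g v).im * (1 - ps v w) :=
    mul_le_mul_of_nonneg_right h1' h5
  nlinarith [YD_lower hw]

/-! ### (L6) -/

/-- `HH = 3 H - Re F1 - Re F2` -/
noncomputable def HHl (w : ℂ) : ℝ := 3 * Hl w - (LL w).re - (L1 w).re

theorem Hl_eq {w : ℂ} (h : ‖w‖ < 1) : Hl w =
    Real.log (rexp (la (cy w)) + rexp (lb (cy w)) + rexp (lc (cy w))) - lb (cy w) := by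
  have him := cy_im_pos h
  have e2 : rexp (la (cy w)) = ‖th2 (cy w)‖ ^ 4 := Real.exp_log (n2 him)
  have e3 : rexp (lb (cy w)) = ‖th3 (cy w)‖ ^ 4 := Real.exp_log (n3 him)
  have e4 : rexp (lc (cy w)) = ‖th4 (cy w)‖ ^ 4 := Real.exp_log (n4 him)
  have f1 : ‖lamD w‖ = ‖th2 (cy w)‖ ^ 4 / ‖th3 (cy w)‖ ^ 4 := by
    unfold lamD lam
    rw [norm_div, norm_pow, norm_pow]
  have f2 : ‖1 - lamD w‖ = ‖th4 (cy w)‖ ^ 4 / ‖th3 (cy w)‖ ^ 4 := by
    unfold lamD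
    rw [one_sub_lam him, norm_div, norm_pow, norm_pow]
  unfold Hl
  rw [f1, f2, e2, e3, e4]
  have p3 := n3 him
  have p2 := n2 him
  have p4 := n4 him
  have g : 1 + ‖th2 (cy w)‖ ^ 4 / ‖th3 (cy w)‖ ^ 4 + ‖th4 (cy w)‖ ^ 4 / ‖th3 (cy w)‖ ^ 4 =
      (‖th2 (cy w)‖ ^ 4 + ‖th3 (cy w)‖ ^ 4 + ‖th4 (cy w)‖ ^ 4) / ‖th3 (cy w)‖ ^ 4 := by
    have := p3.ne'
    rw [eq_div_iff this, add_mul, add_mul, div_mul_cancel₀ _ this, div_mul_cancel₀ _ this]
    ring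
  rw [g, Real.log_div (by positivity) p3.ne']
  rfl

/-- **(L6)** -/
theorem T_L6 {w : ℂ} (h : ‖w‖ < 1) : (YD w - 8) / 2 ≤ HHl w ∧ HHl w ≤ 19 * YD w := by
  have him := cy_im_pos h
  set a := la (cy w) with ha
  set b := lb (cy w) with hb
  set c := lc (cy w) with hc
  have e1 : (LL w).re = a - b := by
    rw [re_LL h]
    exact log_lam him
  have e2 : (L1 w).re = c - b := by
    rw [re_L1 h]
    exact log_one_sub_lam him
  have e3 := Hl_eq h
  rw [← ha, ← hb, ← hc] at e3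
  set s := Real.log (rexp a + rexp b + rexp c) with hs
  have pa := Real.exp_pos a
  have pb := Real.exp_pos b
  have pc := Real.exp_pos c
  have sa : a ≤ s := by
    rw [hs, Real.le_log_iff_exp_le (by positivity)]
    linarith
  have sb : b ≤ s := by
    rw [hs, Real.le_log_iff_exp_le (by positivity)]
    linarith
  have sc : c ≤ s := by
    rw [hs, Real.le_log_iff_exp_le (by positivity)]
    linarith
  have hD := Yf_le_Df (⟨cy w, him⟩ : UpperHalfPlane)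
  have hD' : YD w ≤ 2 * Df (cy w) + 8 := hD
  have hD2 := Df_le_Yf (⟨cy w, him⟩ : UpperHalfPlane)
  have hD2' : Df (cy w) ≤ 7 * YD w := hD2
  have hY := YD_lower h
  have hDf : Df (cy w) = max (max a c) b - min (min a c) b := rfl
  set M := max (max a c) b with hM
  set m := min (min a c) b with hm
  have Ma : a ≤ M := (le_max_left _ _).trans (le_max_left _ _)
  have Mc : c ≤ M := (le_max_right _ _).trans (le_max_left _ _)
  have Mb : b ≤ M := le_max_right _ _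
  have ma : m ≤ a := (min_le_left _ _).trans (min_le_left _ _)
  have mc : m ≤ c := (min_le_left _ _).trans (min_le_right _ _)
  have mb : m ≤ b := min_le_right _ _
  have sM : M ≤ s := max_le (max_le sa sc) sb
  have eH : HHl w = (s - a) + (s - b) + (s - c) := by
    unfold HHl
    rw [e1, e2, e3]
    ring
  have l3 : Real.log 3 ≤ 1.1 := by
    have h1 : Real.log 3 ≤ Real.log (rexp 1.1) := by
      refine Real.log_le_log (by norm_num) ?_
      have h2 : rexp 1.1 = rexp 1 * rexp 0.1 := by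
        rw [← Real.exp_add]
        norm_num
      have h3 := Real.exp_one_gt_d9
      have h4 := Real.quadratic_le_exp_of_nonneg (by norm_num : (0 : ℝ) ≤ 0.1)
      rw [h2]
      nlinarith [Real.exp_pos 1, Real.exp_pos 0.1]
    rwa [Real.log_exp] at h1
  have sM2 : s ≤ M + 1.1 := by
    have h1 : rexp a + rexp b + rexp c ≤ 3 * rexp M := by
      have := Real.exp_le_exp.2 Ma
      have := Real.exp_le_exp.2 Mb
      have := Real.exp_le_exp.2 Mc
      linarith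
    have h2 := Real.log_le_log (by positivity) h1
    rw [Real.log_mul (by norm_num) (Real.exp_pos _).ne', Real.log_exp] at h2
    linarith
  rw [eH]
  constructor
  · rcases min_choice (min a c) b with h1 | h1
    · rcases min_choice a c with h2 | h2
      · have : m = a := by rw [hm, h1, h2]
        linarith
      · have : m = c := by rw [hm, h1, h2]
        linarith
    · have : m = b := by rw [hm, h1]
      linarith
  · have hmax : M = a ∨ M = c ∨ M = b := by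
      rcases max_choice (max a c) b with h1 | h1
      · rcases max_choice a c with h2 | h2
        · left
          rw [hM, h1, h2]
        · right; left
          rw [hM, h1, h2]
      · right; right
        rw [hM, h1]
    rcases hmax with h1 | h1 | h1 <;> linarith

end Pool.Agent.Helper84.Lam
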